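import Mathlib

/-!
The Laguerre inequality at `0` for entire functions of exponential type with only real zeros.
-/

namespace Pool.Agent.Lib.MP_8382de_an

open Filter Topology Set Metric

noncomputable section

/-- factor out the zeros in a closed disc -/
theorem factor_disc {f : ℂ → ℂ} (hf : Differentiable ℂ f) (hf0 : ∃ z, f z ≠ 0) (R : ℝ) :
    ∃ (S : Finset ℂ) (n : ℂ → ℕ) (g : ℂ → ℂ), Differentiable ℂ g ∧
      (∀ u ∈ S, f u = 0 ∧ ‖u‖ ≤ R) ∧ (∀ z, ‖z‖ ≤ R → g z ≠ 0) ∧
      ∀ z, f z = (∏ u ∈ S, (z - u) ^ n u) * g z := by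
  have hfa : AnalyticOnNhd ℂ f univ := fun z _ => hf.analyticAt z
  set U : Set ℂ := closedBall 0 R with hU
  have hfU : AnalyticOnNhd ℂ f U := fun z _ => hf.analyticAt z
  have hord : ∀ u : ℂ, meromorphicOrderAt f u ≠ ⊤ := by
    intro u hu
    rw [meromorphicOrderAt_eq_top_iff] at hu
    have h1 : f =ᶠ[𝓝[≠] u] (fun _ => (0 : ℂ)) := hu
    have h2 := hfa.eqOn_of_preconnected_of_frequently_eq (analyticOnNhd_const (v := (0 : ℂ)))
      isPreconnected_univ (mem_univ u) h1.frequently
    obtain ⟨z, hz⟩ := hf0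
    exact hz (h2 (mem_univ z))
  set D := MeromorphicOn.divisor f U with hD
  have hD0 : ∀ u, 0 ≤ D u := fun u => MeromorphicOn.AnalyticOnNhd.divisor_nonneg hfU u
  have hDfin0 : (D : ℂ → ℤ).HasFiniteSupport := D.finiteSupport (isCompact_closedBall 0 R)
  have hDfin : (Function.support (D : ℂ → ℤ)).Finite := hDfin0
  have hsupp : ∀ u, D u ≠ 0 → f u = 0 ∧ ‖u‖ ≤ R := by
    intro u hu
    have hu' : u ∈ U := D.supportWithinDomain hu
    refine ⟨?_, by simpa [hU] using hu'⟩
    by_contra hne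
    apply hu
    have h1 : meromorphicOrderAt f u = 0 := by
      rw [(hf.analyticAt u).meromorphicOrderAt_eq, (hf.analyticAt u).analyticOrderAt_eq_zero.mpr hne]
      rfl
    rw [hD, MeromorphicOn.divisor_apply hfU.meromorphicOn hu', h1]
    rfl
  set φ : ℂ → ℂ := ∏ᶠ u, (· - u) ^ D u with hφ
  have hφm : MeromorphicOn φ univ :=
    (Function.FactorizedRational.meromorphicNFOn_univ (D : ℂ → ℤ)).meromorphicOn
  have hfm : MeromorphicOn f univ := hfa.meromorphicOn
  set g := toMeromorphicNFOn (φ⁻¹ • f) univ with hg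
  have hgm : MeromorphicOn (φ⁻¹ • f) univ := hφm.inv.smul hfm
  have hgNF : MeromorphicNFOn g univ := meromorphicNFOn_toMeromorphicNFOn _ _
  have hgord : ∀ z, meromorphicOrderAt g z = -((D z : ℤ) : WithTop ℤ) + meromorphicOrderAt f z := by
    intro z
    rw [hg, meromorphicOrderAt_toMeromorphicNFOn hgm (mem_univ z),
      meromorphicOrderAt_smul (hφm z (mem_univ z)).inv (hfm z (mem_univ z)), meromorphicOrderAt_inv,
      Function.FactorizedRational.meromorphicOrderAt_eq (D : ℂ → ℤ) hDfin0]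
  have hDin : ∀ z ∈ U, meromorphicOrderAt f z = ((D z : ℤ) : WithTop ℤ) := by
    intro z hz
    rw [hD, MeromorphicOn.divisor_apply hfU.meromorphicOn hz]
    exact (WithTop.coe_untop₀_of_ne_top (hord z)).symm
  have hDout : ∀ z, z ∉ U → D z = 0 := by
    intro z hz
    by_contra hne
    exact hz (D.supportWithinDomain hne)
  have hga : ∀ z, AnalyticAt ℂ g z := by
    intro z
    rw [← (hgNF (mem_univ z)).meromorphicOrderAt_nonneg_iff_analyticAt, hgord]
    by_cases hz : z ∈ U
    · rw [hDin z hz, ← WithTop.LinearOrderedAddCommGroup.coe_neg, ← WithTop.coe_add]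
      simp
    · rw [hDout z hz]
      simpa using (hf.analyticAt z).meromorphicOrderAt_nonneg
  have hgd : Differentiable ℂ g := fun z => (hga z).differentiableAt
  refine ⟨hDfin.toFinset, fun u => (D u).toNat, g, hgd, ?_, ?_, ?_⟩
  · intro u hu
    exact hsupp u (by simpa using hu)
  · intro z hz
    have hzU : z ∈ U := by simpa [hU] using hz
    rw [← (hgNF (mem_univ z)).meromorphicOrderAt_eq_zero_iff, hgord, hDin z hzU,
      ← WithTop.LinearOrderedAddCommGroup.coe_neg, ← WithTop.coe_add]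
    simp
  · have hP : ∀ z, φ z = ∏ u ∈ hDfin.toFinset, (z - u) ^ (D u).toNat := by
      intro z
      rw [hφ, finprod_eq_prod_of_mulSupport_subset (s := hDfin.toFinset)]
      · rw [Finset.prod_apply]
        apply Finset.prod_congr rfl
        intro u _
        simp only [Pi.pow_apply]
        rw [← zpow_natCast, Int.toNat_of_nonneg (hD0 u)]
      · rw [Function.FactorizedRational.mulSupport]
        simp
    intro z
    have hcod : ∀ᶠ w in 𝓝[≠] z, f w = (∏ u ∈ hDfin.toFinset, (w - u) ^ (D u).toNat) * g w := by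
      have h1 : g =ᶠ[𝓝[≠] z] φ⁻¹ • f :=
        hgm.toMeromorphicNFOn_eq_self_on_nhdsNE (mem_univ z)
      have h2 : ∀ᶠ w in 𝓝[≠] z, φ w ≠ 0 := by
        have := (meromorphicOrderAt_ne_top_iff_eventually_ne_zero (hφm z (mem_univ z))).mp
          (Function.FactorizedRational.meromorphicOrderAt_ne_top (z := z) (D : ℂ → ℤ))
        exact this
      filter_upwards [h1, h2] with w hw1 hw2
      rw [hw1, ← hP]
      simp only [Pi.smul_apply', Pi.inv_apply, smul_eq_mul]
      field_simp
    have hc1 : Tendsto f (𝓝[≠] z) (𝓝 (f z)) :=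
      (hf z).continuousAt.tendsto.mono_left nhdsWithin_le_nhds
    have hc2 : Tendsto (fun w => (∏ u ∈ hDfin.toFinset, (w - u) ^ (D u).toNat) * g w) (𝓝[≠] z)
        (𝓝 ((∏ u ∈ hDfin.toFinset, (z - u) ^ (D u).toNat) * g z)) := by
      have : Continuous (fun w => (∏ u ∈ hDfin.toFinset, (w - u) ^ (D u).toNat) * g w) := by
        apply Continuous.mul _ hgd.continuous
        apply continuous_finsetProd
        intro u _
        fun_prop
      exact (this.tendsto z).mono_left nhdsWithin_le_nhds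
    exact tendsto_nhds_unique_of_eventuallyEq hc1 hc2 hcod

/-- the estimate with the zeros in one disc removed -/
theorem laguerre_disc {f : ℂ → ℂ} (hf : Differentiable ℂ f) (h0 : f 0 ≠ 0) {K : ℝ}
    (hK : ∀ z, ‖f z‖ ≤ K * Real.exp ‖z‖) (hreal : ∀ z, f z = 0 → z.im = 0) {R : ℝ} (hR : 1 ≤ R) :
    (deriv (logDeriv f) 0).re ≤ 16 * (Real.log (K / ‖f 0‖) + 2 * R) / R ^ 2 := by
  obtain ⟨S, n, g, hg, hS, hg0, hfg⟩ := factor_disc hf ⟨0, h0⟩ R
  set P : ℂ → ℂ := fun z => ∏ u ∈ S, (z - u) ^ n u with hP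
  have hPd : Differentiable ℂ P := by
    intro z
    apply DifferentiableAt.fun_finsetProd
    intro u _
    fun_prop
  have hS0 : ∀ u ∈ S, u ≠ 0 := by
    rintro u hu rfl
    exact h0 (hS 0 hu).1
  have hR0 : 0 < R := by linarith
  have hg00 : g 0 ≠ 0 := hg0 0 (by simpa using hR0.le)
  have hP0 : P 0 ≠ 0 := by
    intro h
    apply h0
    rw [hfg 0]
    show P 0 * g 0 = 0
    rw [h, zero_mul]
  have hf0n : 0 < ‖f 0‖ := norm_pos_iff.mpr h0
  have hK1 : ‖f 0‖ ≤ K := by simpa using hK 0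
  have hKpos : 0 < K := lt_of_lt_of_le hf0n hK1
  have hlogK : 0 ≤ Real.log (K / ‖f 0‖) := Real.log_nonneg (by rw [one_le_div hf0n]; exact hK1)
  set L := Real.log (K / ‖f 0‖) + 2 * R with hL
  have hL0 : 0 < L := by rw [hL]; linarith
  -- bound of g
  have hfP : ∀ z, f z = P z * g z := hfg
  have hgM : ∀ z : ℂ, ‖z‖ ≤ 2 * R → ‖g z‖ ≤ ‖g 0‖ * Real.exp L := by
    intro z hz
    have hC : ∀ w ∈ frontier (ball (0 : ℂ) (2 * R)), ‖g w‖ ≤ ‖g 0‖ * Real.exp L := by
      intro w hw
      rw [frontier_ball (0 : ℂ) (by positivity : 2 * R ≠ 0), mem_sphere, dist_zero_right] at hw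
      have h1 : ‖P 0‖ ≤ ‖P w‖ := by
        simp only [hP, norm_prod, norm_pow]
        apply Finset.prod_le_prod (fun _ _ => by positivity)
        intro u hu
        apply pow_le_pow_left₀ (norm_nonneg _)
        have h2 := (hS u hu).2
        have h3 : ‖w‖ - ‖u‖ ≤ ‖w - u‖ := norm_sub_norm_le w u
        rw [zero_sub, norm_neg]
        linarith
      have h4 := hK w
      rw [hfP w, norm_mul, hw] at h4
      have h5 : ‖P 0‖ * ‖g w‖ ≤ K * Real.exp (2 * R) :=
        (mul_le_mul_of_nonneg_right h1 (norm_nonneg _)).trans h4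
      have hP0n : 0 < ‖P 0‖ := norm_pos_iff.mpr hP0
      have h6 : ‖f 0‖ = ‖P 0‖ * ‖g 0‖ := by rw [hfP 0, norm_mul]
      have h7 : Real.exp L = K / ‖f 0‖ * Real.exp (2 * R) := by
        rw [hL, Real.exp_add, Real.exp_log (by positivity)]
      have h8 : ‖P 0‖ * (‖g 0‖ * Real.exp L) = K * Real.exp (2 * R) := by
        rw [h7, ← mul_assoc, ← h6]
        field_simp
      rw [← h8] at h5
      exact le_of_mul_le_mul_left h5 hP0n
    apply Complex.norm_le_of_forall_mem_frontier_norm_le isBounded_ball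
      hg.diffContOnCl hC
    rw [closure_ball (0 : ℂ) (by positivity : 2 * R ≠ 0)]
    simpa using hz
  -- logarithm of g
  have hld : DifferentiableOn ℂ (fun z => deriv g z / g z) (ball 0 R) := by
    intro z hz
    have hz' : ‖z‖ < R := by simpa using hz
    exact (((hg.deriv) z).div (hg z) (hg0 z hz'.le)).differentiableWithinAt
  obtain ⟨q, hq0, hq⟩ := hld.isExactOn_ball.with_val_at 0 0
  have hgq : ∀ z ∈ ball (0 : ℂ) R, g z = g 0 * Complex.exp (q z) := by
    intro z hz
    have hder : ∀ z ∈ ball (0 : ℂ) R, HasDerivAt (fun z => g z * Complex.exp (-(q z))) 0 z := by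
      intro z hz
      have hz' : ‖z‖ < R := by simpa using hz
      have e1 := (hg z).hasDerivAt
      have e2 := ((hq z hz).neg).cexp
      have e3 := e1.mul e2
      refine e3.congr_deriv ?_
      have := hg0 z hz'.le
      simp only [Pi.neg_apply]
      field_simp
      ring
    have h1 : g z * Complex.exp (-(q z)) = g 0 * Complex.exp (-(q 0)) := by
      apply (convex_ball (0 : ℂ) R).is_const_of_fderivWithin_eq_zero (𝕜 := ℂ)
        (f := fun z => g z * Complex.exp (-(q z))) _ _ hz (mem_ball_self hR0)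
      · intro w hw
        exact (hder w hw).differentiableAt.differentiableWithinAt
      · intro w hw
        rw [fderivWithin_of_isOpen isOpen_ball hw]
        have := (hder w hw).hasFDerivAt.fderiv
        rw [this]
        ext
        simp
    rw [hq0, neg_zero, Complex.exp_zero, mul_one] at h1
    rw [← h1, mul_assoc, ← Complex.exp_add]
    simp
  have hqre : Set.MapsTo q (ball 0 R) {z | z.re ≤ L} := by
    intro z hz
    have hz' : ‖z‖ < R := by simpa using hz
    have h1 := hgM z (by linarith)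
    rw [hgq z hz, norm_mul, Complex.norm_exp] at h1
    have h2 : 0 < ‖g 0‖ := norm_pos_iff.mpr hg00
    have h3 := le_of_mul_le_mul_left h1 h2
    exact Real.exp_le_exp.mp h3
  have hqd : DifferentiableOn ℂ q (ball 0 R) := fun z hz =>
    (hq z hz).differentiableAt.differentiableWithinAt
  have hqb : ∀ z : ℂ, ‖z‖ ≤ R / 2 → ‖q z‖ ≤ 2 * L := by
    intro z hz
    have h1 := Complex.borelCaratheodory_zero (f := q) hL0 hqd hqre hR0
      (by rw [mem_ball, dist_zero_right]; linarith) hq0
    refine h1.trans ?_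
    rw [div_le_iff₀ (by linarith)]
    apply mul_le_mul_of_nonneg_left _ (by linarith)
    linarith
  have hcl : DiffContOnCl ℂ q (ball 0 (R / 2)) := by
    apply DifferentiableOn.diffContOnCl
    apply hqd.mono
    rw [closure_ball (0 : ℂ) (by positivity : R / 2 ≠ 0)]
    intro z hz
    rw [mem_closedBall, dist_zero_right] at hz
    rw [mem_ball, dist_zero_right]
    linarith
  have hC := Complex.norm_iteratedDeriv_le_of_forall_mem_sphere_norm_le 2
    (by positivity : 0 < R / 2) hcl (C := 2 * L) (by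
      intro z hz
      rw [mem_sphere, dist_zero_right] at hz
      exact hqb z hz.le)
  have hdq : deriv q =ᶠ[𝓝 0] logDeriv g := by
    filter_upwards [ball_mem_nhds (0 : ℂ) hR0] with z hz
    rw [(hq z hz).deriv, logDeriv_apply]
  have hit : iteratedDeriv 2 q 0 = deriv (logDeriv g) 0 := by
    rw [iteratedDeriv_succ, iteratedDeriv_one]
    exact hdq.deriv_eq
  rw [hit] at hC
  -- logarithmic derivative of P
  have hPl : logDeriv P =ᶠ[𝓝 0] fun z => ∑ u ∈ S, (n u : ℂ) / (z - u) := by
    have hne : ∀ᶠ z in 𝓝 (0 : ℂ), ∀ u ∈ S, z - u ≠ 0 := by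
      rw [Filter.eventually_all_finset]
      intro u hu
      have : (0 : ℂ) - u ≠ 0 := by rw [zero_sub, neg_ne_zero]; exact hS0 u hu
      exact (continuous_id.sub continuous_const).continuousAt.eventually_ne this
    filter_upwards [hne] with z hz
    simp only [hP]
    have e0 := logDeriv_prod (s := S) (f := fun (u z : ℂ) => (z - u) ^ n u) (x := z)
      (fun u hu => pow_ne_zero _ (hz u hu)) (fun u _ => by fun_prop)
    rw [e0]
    apply Finset.sum_congr rfl
    intro u hu
    have e1 := logDeriv_fun_pow (f := fun z : ℂ => z - u) (x := z) (by fun_prop) (n u)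
    have e2 : deriv (fun z : ℂ => z - u) z = 1 := by simp
    rw [logDeriv_apply (fun z : ℂ => z - u), e2] at e1
    rw [e1]
    ring
  have hPder : HasDerivAt (fun z : ℂ => ∑ u ∈ S, (n u : ℂ) / (z - u))
      (∑ u ∈ S, -((n u : ℂ) / u ^ 2)) 0 := by
    apply HasDerivAt.fun_sum
    intro u hu
    have h1 : HasDerivAt (fun z : ℂ => z - u) 1 0 := (hasDerivAt_id _).sub_const _
    have hu0 : (0 : ℂ) - u ≠ 0 := by rw [zero_sub, neg_ne_zero]; exact hS0 u hu
    have h2 := (hasDerivAt_const (0 : ℂ) (n u : ℂ)).div h1 hu0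
    refine h2.congr_deriv ?_
    have := hS0 u hu
    field_simp
    ring
  have hPre : (deriv (logDeriv P) 0).re ≤ 0 := by
    rw [hPl.deriv_eq, hPder.deriv, Complex.re_sum]
    apply Finset.sum_nonpos
    intro u hu
    have him := hreal u (hS u hu).1
    have hur : u = ((u.re : ℝ) : ℂ) := Complex.ext (by simp) (by simp [him])
    rw [hur]
    have e : -((n (u.re : ℂ) : ℂ) / (u.re : ℂ) ^ 2) = ((-((n (u.re : ℂ) : ℝ) / u.re ^ 2) : ℝ) : ℂ) := by
      push_cast; ring
    rw [e, Complex.ofReal_re]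
    have : 0 ≤ (n (u.re : ℂ) : ℝ) / u.re ^ 2 := by positivity
    linarith
  -- conclusion
  have hfl : logDeriv f =ᶠ[𝓝 0] fun z => logDeriv P z + logDeriv g z := by
    have h1 : ∀ᶠ z in 𝓝 (0 : ℂ), P z ≠ 0 := hPd.continuous.continuousAt.eventually_ne hP0
    have h2 : ∀ᶠ z in 𝓝 (0 : ℂ), g z ≠ 0 := hg.continuous.continuousAt.eventually_ne hg00
    have hfe : f = fun z => P z * g z := funext hfP
    filter_upwards [h1, h2] with z hz1 hz2
    rw [hfe]
    exact logDeriv_mul z hz1 hz2 (hPd z) (hg z)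
  have hdP : DifferentiableAt ℂ (logDeriv P) 0 := by
    unfold logDeriv
    exact ((hPd.deriv) 0).div (hPd 0) hP0
  have hdg : DifferentiableAt ℂ (logDeriv g) 0 := by
    unfold logDeriv
    exact ((hg.deriv) 0).div (hg 0) hg00
  rw [hfl.deriv_eq, deriv_fun_add hdP hdg, Complex.add_re]
  have h3 : (deriv (logDeriv g) 0).re ≤ ‖deriv (logDeriv g) 0‖ := Complex.re_le_norm _
  have h4 : ((2 : ℕ).factorial : ℝ) * (2 * L) / (R / 2) ^ 2 = 16 * L / R ^ 2 := by
    rw [Nat.factorial_two]
    push_cast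
    field_simp
    norm_num
  rw [h4] at hC
  linarith

/-- the Laguerre inequality at `0` -/
theorem laguerre {f : ℂ → ℂ} (hf : Differentiable ℂ f) (h0 : f 0 ≠ 0) {K : ℝ}
    (hK : ∀ z, ‖f z‖ ≤ K * Real.exp ‖z‖) (hreal : ∀ z, f z = 0 → z.im = 0) :
    (deriv (logDeriv f) 0).re ≤ 0 := by
  have h1 : Tendsto (fun R : ℝ => 16 * (Real.log (K / ‖f 0‖) + 2 * R) / R ^ 2) atTop (𝓝 0) := by
    have e : (fun R : ℝ => 16 * (Real.log (K / ‖f 0‖) + 2 * R) / R ^ 2) =ᶠ[atTop]
        fun R : ℝ => 16 * Real.log (K / ‖f 0‖) * (R ^ 2)⁻¹ + 32 * R⁻¹ := by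
      filter_upwards [eventually_gt_atTop 0] with R hR
      field_simp
      ring
    rw [tendsto_congr' e]
    have t1 : Tendsto (fun R : ℝ => (R ^ 2)⁻¹) atTop (𝓝 0) :=
      (tendsto_pow_atTop (by norm_num)).inv_tendsto_atTop
    have t2 : Tendsto (fun R : ℝ => R⁻¹) atTop (𝓝 0) := tendsto_inv_atTop_zero
    have := (t1.const_mul (16 * Real.log (K / ‖f 0‖))).add (t2.const_mul 32)
    simpa using this
  apply ge_of_tendsto h1
  filter_upwards [eventually_ge_atTop 1] with R hR
  exact laguerre_disc hf h0 hK hreal hR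

end

end Pool.Agent.Lib.MP_8382de_an
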