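import Mathlib

/-!
An entire function of order at most one, with algebraic behaviour on the negative axis and
faster than polynomial growth on the positive axis, has infinitely many zeros.
-/

namespace Pool.Agent.Lib.MP_8382de_an

open Filter Topology Set

noncomputable section

/-- a zero free entire function of exponential type is an exponential -/
theorem exp_of_zero_free {g : ℂ → ℂ} (hg : Differentiable ℂ g) (h0 : ∀ z, g z ≠ 0) {K : ℝ}
    (hK : 1 ≤ K) (hb : ∀ z, ‖g z‖ ≤ K * Real.exp ‖z‖) :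
    ∃ u α : ℂ, ∀ z, g z = Complex.exp (u + α * z) := by
  -- logarithm
  have hd : Differentiable ℂ (fun z => deriv g z / g z) := by
    intro z
    exact ((hg.deriv) z).div (hg z) (h0 z)
  obtain ⟨h1, hh1⟩ := hd.isExactOn_univ
  have hh1' : ∀ z, HasDerivAt h1 (deriv g z / g z) z := fun z => hh1 z (mem_univ z)
  have hconst : ∀ z, g z * Complex.exp (-(h1 z)) = g 0 * Complex.exp (-(h1 0)) := by
    intro z
    have hder : ∀ z, HasDerivAt (fun z => g z * Complex.exp (-(h1 z))) 0 z := by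
      intro z
      have e1 := (hg z).hasDerivAt
      have e2 := ((hh1' z).neg).cexp
      have e3 := e1.mul e2
      refine e3.congr_deriv ?_
      have := h0 z
      simp only [Pi.neg_apply]
      field_simp
      ring
    exact is_const_of_deriv_eq_zero (fun z => (hder z).differentiableAt)
      (fun z => (hder z).deriv) z 0
  set k := g 0 * Complex.exp (-(h1 0)) with hk
  have hk0 : k ≠ 0 := mul_ne_zero (h0 0) (Complex.exp_ne_zero _)
  set h : ℂ → ℂ := fun z => h1 z + Complex.log k with hh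
  have hgh : ∀ z, g z = Complex.exp (h z) := by
    intro z
    rw [hh, Complex.exp_add, Complex.exp_log hk0, ← hconst z]
    have : Complex.exp (h1 z) * Complex.exp (-(h1 z)) = 1 := by
      rw [← Complex.exp_add]; simp
    linear_combination (-(g z)) * this
  have hhd : Differentiable ℂ h := by
    intro z
    exact ((hh1' z).add_const _).differentiableAt
  have hre : ∀ z, (h z).re ≤ Real.log K + ‖z‖ := by
    intro z
    have h2 := hb z
    rw [hgh z, Complex.norm_exp] at h2
    have h3 := Real.log_le_log (Real.exp_pos _) h2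
    rw [Real.log_exp, Real.log_mul (by linarith) (Real.exp_pos _).ne', Real.log_exp] at h3
    exact h3
  have hlogK : 0 ≤ Real.log K := Real.log_nonneg hK
  have hnorm : ∀ z, ‖h z‖ ≤ (2 * Real.log K + 4 + 3 * ‖h 0‖) + 4 * ‖z‖ := by
    intro z
    have hz0 := norm_nonneg z
    set R := 2 * ‖z‖ + 2 with hR
    set M := Real.log K + R with hM
    have h2 := Complex.borelCaratheodory (f := h) (M := M) (R := R) (z := z) (by rw [hM]; linarith)
      hhd.differentiableOn (by
        intro w hw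
        have hw' : ‖w‖ < R := by simpa using hw
        show (h w).re ≤ M
        have := hre w
        rw [hM]; linarith) (by rw [hR]; linarith) (by
        rw [Metric.mem_ball, dist_zero_right]; rw [hR]; linarith)
    refine h2.trans ?_
    have hden : 0 < R - ‖z‖ := by rw [hR]; linarith
    have q1 : 2 * M * ‖z‖ / (R - ‖z‖) ≤ 2 * M := by
      rw [div_le_iff₀ hden]
      apply mul_le_mul_of_nonneg_left _ (by rw [hM]; linarith)
      rw [hR]; linarith
    have q2 : ‖h 0‖ * (R + ‖z‖) / (R - ‖z‖) ≤ 3 * ‖h 0‖ := by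
      rw [div_le_iff₀ hden, mul_comm (3 : ℝ) ‖h 0‖, mul_assoc]
      apply mul_le_mul_of_nonneg_left _ (norm_nonneg _)
      rw [hR]; linarith
    have q3 : 2 * M = 2 * Real.log K + 4 + 4 * ‖z‖ := by rw [hM, hR]; ring
    linarith
  -- the slope is bounded
  set q := dslope h 0 with hq
  have hqd : Differentiable ℂ q := by
    rw [← differentiableOn_univ]
    exact (Complex.differentiableOn_dslope univ_mem).mpr hhd.differentiableOn
  have hqb : Bornology.IsBounded (range q) := by
    obtain ⟨B, hB⟩ := (isCompact_closedBall (0 : ℂ) 1).exists_bound_of_continuousOn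
      hqd.continuous.continuousOn
    rw [isBounded_iff_forall_norm_le]
    refine ⟨|B| + (2 * Real.log K + 4 + 3 * ‖h 0‖) + 4 + ‖h 0‖, ?_⟩
    rintro _ ⟨z, rfl⟩
    have hA : 0 ≤ 2 * Real.log K + 4 + 3 * ‖h 0‖ := by positivity
    have hn0 := norm_nonneg (h 0)
    rcases le_total ‖z‖ 1 with hz | hz
    · have := hB z (by simpa using hz)
      have := le_abs_self B
      linarith
    · have hz0 : z ≠ 0 := by
        rintro rfl
        rw [norm_zero] at hz; linarith
      rw [hq, dslope_of_ne _ hz0, slope_def_field, sub_zero, norm_div, div_le_iff₀ (by linarith)]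
      have h2 := hnorm z
      have h3 : ‖h z - h 0‖ ≤ ‖h z‖ + ‖h 0‖ := norm_sub_le _ _
      have h4 : (2 * Real.log K + 4 + 3 * ‖h 0‖) ≤ (2 * Real.log K + 4 + 3 * ‖h 0‖) * ‖z‖ :=
        le_mul_of_one_le_right hA hz
      have h5 : ‖h 0‖ ≤ ‖h 0‖ * ‖z‖ := le_mul_of_one_le_right hn0 hz
      have h6 : 0 ≤ |B| * ‖z‖ := by positivity
      nlinarith
  refine ⟨h 0, q 0, fun z => ?_⟩
  rw [hgh z]
  congr 1
  have h2 := hqd.apply_eq_apply_of_bounded hqb z 0
  rcases eq_or_ne z 0 with rfl | hz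
  · simp
  · rw [← h2, hq, dslope_of_ne _ hz, slope_def_field, sub_zero]
    field_simp
    ring

/-- factor out finitely many zeros -/
theorem factor_zeros {f : ℂ → ℂ} (hf : Differentiable ℂ f) (hf0 : ∃ z, f z ≠ 0)
    (hfin : {z | f z = 0}.Finite) :
    ∃ (S : Finset ℂ) (n : ℂ → ℕ) (g : ℂ → ℂ), Differentiable ℂ g ∧ (∀ z, g z ≠ 0) ∧
      ∀ z, f z = (∏ u ∈ S, (z - u) ^ n u) * g z := by
  have hfa : AnalyticOnNhd ℂ f univ := fun z _ => hf.analyticAt z
  have hord : ∀ u : ℂ, meromorphicOrderAt f u ≠ ⊤ := by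
    intro u hu
    rw [meromorphicOrderAt_eq_top_iff] at hu
    have h1 : f =ᶠ[𝓝[≠] u] (fun _ => (0 : ℂ)) := hu
    have h2 := hfa.eqOn_of_preconnected_of_frequently_eq (analyticOnNhd_const (v := (0 : ℂ)))
      isPreconnected_univ (mem_univ u) h1.frequently
    obtain ⟨z, hz⟩ := hf0
    exact hz (h2 (mem_univ z))
  have hD0 : ∀ u, 0 ≤ MeromorphicOn.divisor f univ u := fun u =>
    MeromorphicOn.AnalyticOnNhd.divisor_nonneg hfa u
  have hsupp : (MeromorphicOn.divisor f univ).support ⊆ {z | f z = 0} := by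
    intro u hu
    by_contra hne
    apply hu
    have h1 : meromorphicOrderAt f u = 0 := by
      rw [(hf.analyticAt u).meromorphicOrderAt_eq, (hf.analyticAt u).analyticOrderAt_eq_zero.mpr hne]
      rfl
    rw [MeromorphicOn.divisor_apply hfa.meromorphicOn (mem_univ u), h1]
    rfl
  have hDfin : (MeromorphicOn.divisor f univ).support.Finite := hfin.subset hsupp
  obtain ⟨g, hg, hg0, hfg⟩ := hfa.meromorphicOn.extract_zeros_poles (fun u => hord u) hDfin
  set D := MeromorphicOn.divisor f univ with hD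
  have hgd : Differentiable ℂ g := fun z => (hg z (mem_univ z)).differentiableAt
  refine ⟨hDfin.toFinset, fun u => (D u).toNat, g, hgd, fun z => hg0 ⟨z, mem_univ z⟩, ?_⟩
  have hP : ∀ z, (∏ᶠ u, (· - u) ^ D u : ℂ → ℂ) z = ∏ u ∈ hDfin.toFinset, (z - u) ^ (D u).toNat := by
    intro z
    rw [finprod_eq_prod_of_mulSupport_subset (s := hDfin.toFinset)]
    · rw [Finset.prod_apply]
      apply Finset.prod_congr rfl
      intro u _
      simp only [Pi.pow_apply]
      rw [← zpow_natCast, Int.toNat_of_nonneg (hD0 u)]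
    · rw [Function.FactorizedRational.mulSupport]
      simp
  intro z
  have hcod : {w | f w = (∏ u ∈ hDfin.toFinset, (w - u) ^ (D u).toNat) * g w} ∈ 𝓝[≠] z := by
    have h1 : {w | f w = ((∏ᶠ u, (· - u) ^ D u : ℂ → ℂ) • g) w} ∈ codiscreteWithin (univ : Set ℂ) :=
      hfg
    rw [mem_codiscreteWithin] at h1
    have h2 := h1 z (mem_univ z)
    rw [disjoint_principal_right, ← compl_eq_univ_sdiff, compl_compl] at h2
    filter_upwards [h2] with w hw
    rw [hw, Pi.smul_apply', smul_eq_mul, hP]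
  have hc1 : Tendsto f (𝓝[≠] z) (𝓝 (f z)) := (hf z).continuousAt.tendsto.mono_left nhdsWithin_le_nhds
  have hc2 : Tendsto (fun w => (∏ u ∈ hDfin.toFinset, (w - u) ^ (D u).toNat) * g w) (𝓝[≠] z)
      (𝓝 ((∏ u ∈ hDfin.toFinset, (z - u) ^ (D u).toNat) * g z)) := by
    have : Continuous (fun w => (∏ u ∈ hDfin.toFinset, (w - u) ^ (D u).toNat) * g w) := by
      apply Continuous.mul _ hgd.continuous
      apply continuous_finsetProd
      intro u _
      fun_prop
    exact (this.tendsto z).mono_left nhdsWithin_le_nhds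
  exact tendsto_nhds_unique_of_eventuallyEq hc1 hc2 hcod

lemma prod_bounds (S : Finset ℂ) (n : ℂ → ℕ) : ∃ (R : ℝ) (N : ℕ), 1 ≤ R ∧
    (∀ z : ℂ, R ≤ ‖z‖ → 1 ≤ ‖∏ u ∈ S, (z - u) ^ n u‖) ∧
    (∀ z : ℂ, ‖∏ u ∈ S, (z - u) ^ n u‖ ≤ (‖z‖ + R) ^ N) := by
  set R : ℝ := 1 + ∑ u ∈ S, ‖u‖ with hR
  have hs : ∀ u ∈ S, ‖u‖ ≤ ∑ u ∈ S, ‖u‖ := fun u hu =>
    Finset.single_le_sum (f := fun u : ℂ => ‖u‖) (fun u _ => norm_nonneg u) hu
  have h0 : 0 ≤ ∑ u ∈ S, ‖u‖ := Finset.sum_nonneg fun u _ => norm_nonneg u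
  refine ⟨R, ∑ u ∈ S, n u, by rw [hR]; linarith, ?_, ?_⟩
  · intro z hz
    rw [norm_prod]
    rw [← Finset.prod_const_one (s := S) (M := ℝ)]
    apply Finset.prod_le_prod (fun _ _ => zero_le_one)
    intro u hu
    rw [norm_pow]
    apply one_le_pow₀
    have h1 : ‖z‖ - ‖u‖ ≤ ‖z - u‖ := norm_sub_norm_le z u
    have h2 := hs u hu
    rw [hR] at hz
    linarith
  · intro z
    rw [norm_prod, ← Finset.prod_pow_eq_pow_sum]
    apply Finset.prod_le_prod
    · intro u _; positivity
    · intro u hu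
      rw [norm_pow]
      apply pow_le_pow_left₀ (norm_nonneg _)
      have h1 : ‖z - u‖ ≤ ‖z‖ + ‖u‖ := norm_sub_le z u
      have h2 := hs u hu
      rw [hR]
      linarith

theorem infinite_zeros {f : ℂ → ℂ} (hf : Differentiable ℂ f) {K : ℝ}
    (hK : ∀ z, ‖f z‖ ≤ K * Real.exp ‖z‖) {X δ C : ℝ} {m : ℕ} (hδ : 0 < δ)
    (hneg : ∀ x : ℝ, X ≤ x → δ ≤ x ^ m * ‖f (-(x : ℂ))‖ ∧ ‖f (-(x : ℂ))‖ ≤ C)
    (hpos : ∀ n : ℕ, ∃ c : ℝ, 0 < c ∧ ∀ x : ℝ, 0 ≤ x → c * x ^ n ≤ ‖f (x : ℂ)‖) :
    ¬ {z | f z = 0}.Finite := by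
  intro hfin
  have hf0 : ∃ z, f z ≠ 0 := by
    obtain ⟨c, hc, h⟩ := hpos 0
    refine ⟨((0 : ℝ) : ℂ), fun h0 => ?_⟩
    have := h 0 le_rfl
    rw [h0] at this
    simp at this
    linarith
  obtain ⟨S, n, g, hg, hg0, hfg⟩ := factor_zeros hf hf0 hfin
  obtain ⟨R, N, hR, hlow, hup⟩ := prod_bounds S n
  have hK0 : 0 ≤ K := by
    have := (norm_nonneg _).trans (hK 0)
    rw [norm_zero, Real.exp_zero, mul_one] at this
    exact this
  -- growth of g
  obtain ⟨B, hB⟩ := (isCompact_closedBall (0 : ℂ) R).exists_bound_of_continuousOn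
    hg.continuous.continuousOn
  have hgb : ∀ z, ‖g z‖ ≤ (K + |B| + 1) * Real.exp ‖z‖ := by
    intro z
    have he : 1 ≤ Real.exp ‖z‖ := Real.one_le_exp (norm_nonneg z)
    rcases le_total ‖z‖ R with hz | hz
    · have h1 := hB z (by simpa using hz)
      have h2 := le_abs_self B
      have h3 : K + |B| + 1 ≤ (K + |B| + 1) * Real.exp ‖z‖ :=
        le_mul_of_one_le_right (by positivity) he
      linarith
    · have h1 := hK z
      rw [hfg z, norm_mul] at h1
      have h2 := hlow z hz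
      have h3 : ‖g z‖ ≤ ‖∏ u ∈ S, (z - u) ^ n u‖ * ‖g z‖ := le_mul_of_one_le_left (norm_nonneg _) h2
      have h4 : K * Real.exp ‖z‖ ≤ (K + |B| + 1) * Real.exp ‖z‖ := by
        apply mul_le_mul_of_nonneg_right _ (by positivity)
        have := abs_nonneg B
        linarith
      linarith
  obtain ⟨u, α, hexp⟩ := exp_of_zero_free hg hg0 (K := K + |B| + 1)
    (by have := abs_nonneg B; linarith) hgb
  have hgn : ∀ x : ℝ, ‖g (-(x : ℂ))‖ = Real.exp (u.re - α.re * x) := by
    intro x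
    rw [hexp, Complex.norm_exp]
    congr 1
    simp
    ring
  have hgp : ∀ x : ℝ, ‖g (x : ℂ)‖ = Real.exp (u.re + α.re * x) := by
    intro x
    rw [hexp, Complex.norm_exp]
    congr 1
    simp
  have hnn : ∀ x : ℝ, 0 ≤ x → ‖(-(x : ℂ))‖ = x := by
    intro x hx
    rw [norm_neg, Complex.norm_real, Real.norm_eq_abs, abs_of_nonneg hx]
  -- Re α ≥ 0
  have ha1 : 0 ≤ α.re := by
    by_contra hcon
    push Not at hcon
    have h1 : Tendsto (fun x : ℝ => Real.exp (u.re - α.re * x)) atTop atTop := by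
      apply Real.tendsto_exp_atTop.comp
      have : Tendsto (fun x : ℝ => u.re + (-α.re) * x) atTop atTop :=
        tendsto_atTop_add_const_left _ _ (Tendsto.const_mul_atTop (by linarith) tendsto_id)
      refine this.congr fun x => ?_
      ring
    have h2 := (h1.eventually_gt_atTop C).and ((eventually_ge_atTop X).and (eventually_ge_atTop R))
    obtain ⟨x, hx1, hx2, hx3⟩ := h2.exists
    have hx0 : 0 ≤ x := by linarith
    have h3 := (hneg x hx2).2
    rw [hfg, norm_mul, hgn] at h3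
    have h4 := hlow (-(x : ℂ)) (by rw [hnn x hx0]; exact hx3)
    have h5 := le_mul_of_one_le_left (Real.exp_pos (u.re - α.re * x)).le h4
    linarith
  have ha2 : α.re ≤ 0 := by
    by_contra hcon
    push Not at hcon
    have h1 : Tendsto (fun x : ℝ => x ^ (((m + N : ℕ) : ℝ)) * Real.exp (-α.re * x)) atTop (𝓝 0) :=
      tendsto_rpow_mul_exp_neg_mul_atTop_nhds_zero _ _ hcon
    have h1' : Tendsto (fun x : ℝ => (2 ^ N * Real.exp u.re) *
        (x ^ (((m + N : ℕ) : ℝ)) * Real.exp (-α.re * x))) atTop (𝓝 0) := by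
      have := h1.const_mul (2 ^ N * Real.exp u.re)
      rwa [mul_zero] at this
    have h2 := (h1'.eventually_lt_const hδ).and
      ((eventually_ge_atTop X).and (eventually_ge_atTop R))
    obtain ⟨x, hx1, hx2, hx3⟩ := h2.exists
    have hx0 : 0 ≤ x := by linarith
    have h3 := (hneg x hx2).1
    rw [hfg, norm_mul, hgn] at h3
    have h4 := hup (-(x : ℂ))
    rw [hnn x hx0] at h4
    have h5 : (x + R) ^ N ≤ 2 ^ N * x ^ N := by
      rw [← mul_pow]
      apply pow_le_pow_left₀ (by linarith)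
      linarith
    have h6 : x ^ m * (‖∏ u ∈ S, (-(x : ℂ) - u) ^ n u‖ * Real.exp (u.re - α.re * x)) ≤
        x ^ m * ((2 ^ N * x ^ N) * Real.exp (u.re - α.re * x)) := by
      apply mul_le_mul_of_nonneg_left _ (by positivity)
      exact mul_le_mul_of_nonneg_right (h4.trans h5) (Real.exp_pos _).le
    have h7 : x ^ m * ((2 ^ N * x ^ N) * Real.exp (u.re - α.re * x)) =
        (2 ^ N * Real.exp u.re) * (x ^ (((m + N : ℕ) : ℝ)) * Real.exp (-α.re * x)) := by
      rw [Real.rpow_natCast, pow_add, sub_eq_add_neg, Real.exp_add]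
      rw [show -(α.re * x) = -α.re * x by ring]
      ring
    linarith
  have ha : α.re = 0 := le_antisymm ha2 ha1
  -- contradiction on the positive axis
  obtain ⟨c, hc, hcb⟩ := hpos (N + 1)
  set x : ℝ := R + 2 ^ N * Real.exp u.re / c + 1 with hx
  have hq : 0 ≤ 2 ^ N * Real.exp u.re / c := by positivity
  have hx0 : 0 < x := by rw [hx]; linarith
  have h1 := hcb x hx0.le
  rw [hfg, norm_mul, hgp, ha, zero_mul, add_zero] at h1
  have h2 := hup (x : ℂ)
  rw [Complex.norm_real, Real.norm_eq_abs, abs_of_pos hx0] at h2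
  have h3 : (x + R) ^ N ≤ 2 ^ N * x ^ N := by
    rw [← mul_pow]
    apply pow_le_pow_left₀ (by linarith)
    rw [hx]; linarith
  have h4 : c * x ^ (N + 1) ≤ 2 ^ N * x ^ N * Real.exp u.re :=
    h1.trans (mul_le_mul_of_nonneg_right (h2.trans h3) (Real.exp_pos _).le)
  have h5 : c * x ≤ 2 ^ N * Real.exp u.re := by
    have hxN : 0 < x ^ N := by positivity
    rw [pow_succ] at h4
    have : (c * x) * x ^ N ≤ (2 ^ N * Real.exp u.re) * x ^ N := by linarith
    exact le_of_mul_le_mul_right this hxN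
  have h6 : c * x = c * R + 2 ^ N * Real.exp u.re + c := by
    rw [hx]; field_simp
  have h7 : 0 ≤ c * R := by positivity
  linarith

end

end Pool.Agent.Lib.MP_8382de_an
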