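import Pool.Agent.Lib.MP_8382de_an.Right
import Pool.Agent.Lib.MP_8382de_an.Entire

/-!
Conclusion.
-/

namespace Pool.Agent.Lib.MP_8382de_an

open Filter Topology Set

noncomputable section

lemma term_norm {a b c d : ℝ} (ha : 0 < a) (hb : 0 < b) (hc : 0 < c) (hd : 0 < d) (k : ℕ) (z : ℂ) :
    ‖((gam a b c d k : ℝ) : ℂ) * z ^ k / (k.factorial : ℂ)‖ =
      gam a b c d k * ‖z‖ ^ k / (k.factorial : ℝ) := by
  rw [norm_div, norm_mul, norm_pow, Complex.norm_real, Real.norm_eq_abs,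
    abs_of_pos (gam_pos ha hb hc hd k), Complex.norm_natCast]

lemma term_summable {a b c d : ℝ} (ha : 0 < a) (hb : 0 < b) (hc : a + b < c) (hd : 0 < d) (z : ℂ) :
    Summable (fun k : ℕ => ((gam a b c d k : ℝ) : ℂ) * z ^ k / (k.factorial : ℂ)) := by
  apply Summable.of_norm
  refine (gam_summable ha hb hc hd ‖z‖).congr fun k => ?_
  rw [term_norm ha hb (by linarith) hd, abs_of_nonneg (norm_nonneg z)]

lemma Phi_norm_le {a b c d : ℝ} (ha : 0 < a) (hb : 0 < b) (hc : a + b < c) (hd : 0 < d) :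
    ∃ K : ℝ, ∀ z, ‖Phi a b c d z‖ ≤ K * Real.exp ‖z‖ := by
  obtain ⟨K, hK, hKb⟩ := gam_bdd ha hb hc hd
  refine ⟨K, fun z => ?_⟩
  have h1 : HasSum (fun k : ℕ => K * (‖z‖ ^ k / (k.factorial : ℝ))) (K * Real.exp ‖z‖) := by
    rw [Real.exp_eq_exp_ℝ]
    exact (NormedSpace.expSeries_div_hasSum_exp ‖z‖).mul_left K
  unfold Phi
  apply tsum_of_norm_bounded h1
  intro k
  rw [term_norm ha hb (by linarith) hd, mul_div_assoc]
  exact mul_le_mul_of_nonneg_right (hKb k) (by positivity)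

lemma Phi_differentiable {a b c d : ℝ} (ha : 0 < a) (hb : 0 < b) (hc : a + b < c) (hd : 0 < d) :
    Differentiable ℂ (Phi a b c d) := by
  intro z
  have h1 : DifferentiableOn ℂ (fun w : ℂ => ∑' k : ℕ, ((gam a b c d k : ℝ) : ℂ) * w ^ k /
      (k.factorial : ℂ)) (Metric.ball 0 (‖z‖ + 1)) := by
    apply Complex.differentiableOn_tsum_of_summable_norm
      (u := fun k : ℕ => gam a b c d k * |‖z‖ + 1| ^ k / (k.factorial : ℝ))
      (gam_summable ha hb hc hd (‖z‖ + 1))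
    · intro k
      fun_prop
    · exact Metric.isOpen_ball
    · intro k w hw
      rw [term_norm ha hb (by linarith) hd]
      have hw' : ‖w‖ ≤ |‖z‖ + 1| := by
        rw [Metric.mem_ball, dist_zero_right] at hw
        exact hw.le.trans (le_abs_self _)
      have := gam_pos ha hb (by linarith : 0 < c) hd k
      gcongr
  exact (h1.differentiableAt (Metric.isOpen_ball.mem_nhds (by simp)))

lemma Phi_pos {a b c d : ℝ} (ha : 0 < a) (hb : 0 < b) (hc : a + b < c) (hd : 0 < d) (n : ℕ) :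
    ∃ e : ℝ, 0 < e ∧ ∀ x : ℝ, 0 ≤ x → e * x ^ n ≤ ‖Phi a b c d (x : ℂ)‖ := by
  have hg := gam_pos ha hb (by linarith : 0 < c) hd
  refine ⟨gam a b c d n / (n.factorial : ℝ), by have := hg n; positivity, fun x hx => ?_⟩
  have h1 : Phi a b c d (x : ℂ) =
      ((∑' k : ℕ, gam a b c d k * x ^ k / (k.factorial : ℝ) : ℝ) : ℂ) := by
    unfold Phi
    rw [Complex.ofReal_tsum]
    congr 1
    ext k
    push_cast
    ring
  have hs : Summable (fun k : ℕ => gam a b c d k * x ^ k / (k.factorial : ℝ)) := by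
    have := gam_summable ha hb hc hd x
    rwa [abs_of_nonneg hx] at this
  have h2 : gam a b c d n * x ^ n / (n.factorial : ℝ) ≤
      ∑' k : ℕ, gam a b c d k * x ^ k / (k.factorial : ℝ) :=
    hs.le_tsum n (fun k _ => by have := hg k; positivity)
  rw [h1, Complex.norm_real, Real.norm_eq_abs]
  refine le_trans (le_of_eq ?_) (h2.trans (le_abs_self _))
  ring

/-- from the asymptotics to the two sided bound -/
lemma neg_bounds {F : ℝ → ℂ} {s0 σ2 C : ℝ} {A B : ℂ} (hs0 : 0 < s0) (hs : s0 < σ2) (hC : 0 ≤ C)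
    (hAB : B ≠ 0 ∨ A ≠ 0)
    (hF : ∀ x : ℝ, 0 < x → ‖F x + (A - B * Real.log x) * ((x ^ (-s0) : ℝ) : ℂ)‖ ≤ C * x ^ (-σ2)) :
    ∃ (X δ C' : ℝ) (m : ℕ), 0 < δ ∧ ∀ x : ℝ, X ≤ x → δ ≤ x ^ m * ‖F x‖ ∧ ‖F x‖ ≤ C' := by
  obtain ⟨δ0, X0, hδ0, hX0, hlow⟩ : ∃ δ0 X0 : ℝ, 0 < δ0 ∧ 1 ≤ X0 ∧
      ∀ x : ℝ, X0 ≤ x → δ0 ≤ ‖A - B * Real.log x‖ := by
    by_cases hB : B = 0
    · have hA : A ≠ 0 := by tauto
      refine ⟨‖A‖, 1, norm_pos_iff.mpr hA, le_rfl, fun x _ => ?_⟩
      rw [hB, zero_mul, sub_zero]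
    · have hBn : 0 < ‖B‖ := norm_pos_iff.mpr hB
      refine ⟨1, Real.exp ((‖A‖ + 1) / ‖B‖), one_pos, Real.one_le_exp (by positivity),
        fun x hx => ?_⟩
      have hx0 : 0 < x := lt_of_lt_of_le (Real.exp_pos _) hx
      have h1 : (‖A‖ + 1) / ‖B‖ ≤ Real.log x := (Real.le_log_iff_exp_le hx0).mpr hx
      have h2 : ‖A‖ + 1 ≤ ‖B‖ * Real.log x := by
        rw [div_le_iff₀ hBn] at h1
        linarith
      have h3 : ‖B * (Real.log x : ℂ)‖ = ‖B‖ * Real.log x := by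
        rw [norm_mul, Complex.norm_real, Real.norm_eq_abs, abs_of_nonneg]
        exact (by positivity : 0 ≤ (‖A‖ + 1) / ‖B‖).trans h1
      have h4 : ‖B * (Real.log x : ℂ)‖ - ‖A‖ ≤ ‖A - B * Real.log x‖ := by
        rw [norm_sub_rev]
        exact norm_sub_norm_le _ _
      linarith
  have hlim : Tendsto (fun x : ℝ => C * x ^ (-(σ2 - s0))) atTop (𝓝 (C * 0)) :=
    (tendsto_rpow_neg_atTop (by linarith)).const_mul C
  rw [mul_zero] at hlim
  obtain ⟨X1, hX1⟩ := (hlim.eventually_le_const (show 0 < δ0 / 2 by positivity)).exists_forall_of_atTop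
  refine ⟨max X0 X1, δ0 / 2, C + (‖A‖ + ‖B‖ / s0), ⌈s0⌉₊, by positivity, fun x hx => ?_⟩
  have hx0 : X0 ≤ x := (le_max_left _ _).trans hx
  have hx1 : X1 ≤ x := (le_max_right _ _).trans hx
  have hx1' : 1 ≤ x := hX0.trans hx0
  have hxp : 0 < x := by linarith
  have hb := hF x hxp
  have hlog : 0 ≤ Real.log x := Real.log_nonneg hx1'
  have hps : 0 < x ^ (-s0) := Real.rpow_pos_of_pos hxp _
  have hnn : ‖(A - B * Real.log x) * ((x ^ (-s0) : ℝ) : ℂ)‖ = ‖A - B * Real.log x‖ * x ^ (-s0) := by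
    rw [norm_mul, Complex.norm_real, Real.norm_eq_abs, abs_of_pos hps]
  constructor
  · have h1 : ‖(A - B * Real.log x) * ((x ^ (-s0) : ℝ) : ℂ)‖ - C * x ^ (-σ2) ≤ ‖F x‖ := by
      have h2 : ‖(A - B * Real.log x) * ((x ^ (-s0) : ℝ) : ℂ)‖ ≤
          ‖F x + (A - B * Real.log x) * ((x ^ (-s0) : ℝ) : ℂ)‖ + ‖F x‖ := by
        have := norm_sub_le (F x + (A - B * Real.log x) * ((x ^ (-s0) : ℝ) : ℂ)) (F x)
        rwa [add_sub_cancel_left] at this
      linarith
    rw [hnn] at h1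
    have h3 : C * x ^ (-σ2) ≤ δ0 / 2 * x ^ (-s0) := by
      have h4 := hX1 x hx1
      have h5 := mul_le_mul_of_nonneg_right h4 hps.le
      have h6 : C * x ^ (-(σ2 - s0)) * x ^ (-s0) = C * x ^ (-σ2) := by
        rw [mul_assoc, ← Real.rpow_add hxp]
        congr 2; ring
      rwa [h6] at h5
    have h7 : δ0 * x ^ (-s0) ≤ ‖A - B * Real.log x‖ * x ^ (-s0) :=
      mul_le_mul_of_nonneg_right (hlow x hx0) hps.le
    have h8 : δ0 / 2 * x ^ (-s0) ≤ ‖F x‖ := by linarith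
    have h9 : 1 ≤ x ^ ⌈s0⌉₊ * x ^ (-s0) := by
      rw [← Real.rpow_natCast, ← Real.rpow_add hxp]
      apply Real.one_le_rpow hx1'
      have := Nat.le_ceil s0
      linarith
    have h10 : x ^ ⌈s0⌉₊ * (δ0 / 2 * x ^ (-s0)) ≤ x ^ ⌈s0⌉₊ * ‖F x‖ :=
      mul_le_mul_of_nonneg_left h8 (by positivity)
    have h11 : δ0 / 2 * 1 ≤ δ0 / 2 * (x ^ ⌈s0⌉₊ * x ^ (-s0)) :=
      mul_le_mul_of_nonneg_left h9 (by positivity)
    linarith
  · have h1 : ‖F x‖ ≤ C * x ^ (-σ2) + ‖(A - B * Real.log x) * ((x ^ (-s0) : ℝ) : ℂ)‖ := by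
      have := norm_sub_le (F x + (A - B * Real.log x) * ((x ^ (-s0) : ℝ) : ℂ))
        ((A - B * Real.log x) * ((x ^ (-s0) : ℝ) : ℂ))
      rw [add_sub_cancel_right] at this
      linarith
    rw [hnn] at h1
    have h2 : x ^ (-σ2) ≤ 1 := Real.rpow_le_one_of_one_le_of_nonpos hx1' (by linarith)
    have h2' : C * x ^ (-σ2) ≤ C * 1 := mul_le_mul_of_nonneg_left h2 hC
    have h3 : x ^ (-s0) ≤ 1 := Real.rpow_le_one_of_one_le_of_nonpos hx1' (by linarith)
    have h4 : ‖A - B * Real.log x‖ ≤ ‖A‖ + ‖B‖ * Real.log x := by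
      refine (norm_sub_le _ _).trans (le_of_eq ?_)
      rw [norm_mul, Complex.norm_real, Real.norm_eq_abs, abs_of_nonneg hlog]
    have h5 : Real.log x * x ^ (-s0) ≤ 1 / s0 := by
      have h6 := Real.log_le_rpow_div hxp.le hs0
      have h7 := mul_le_mul_of_nonneg_right h6 hps.le
      have h8 : x ^ s0 / s0 * x ^ (-s0) = 1 / s0 := by
        rw [div_mul_eq_mul_div, ← Real.rpow_add hxp]
        simp
      rwa [h8] at h7
    have h9 : ‖A - B * Real.log x‖ * x ^ (-s0) ≤ ‖A‖ + ‖B‖ / s0 := by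
      have h10 : ‖A - B * Real.log x‖ * x ^ (-s0) ≤ (‖A‖ + ‖B‖ * Real.log x) * x ^ (-s0) :=
        mul_le_mul_of_nonneg_right h4 hps.le
      have h11 : ‖A‖ * x ^ (-s0) ≤ ‖A‖ * 1 := mul_le_mul_of_nonneg_left h3 (norm_nonneg _)
      have h12 : ‖B‖ * (Real.log x * x ^ (-s0)) ≤ ‖B‖ * (1 / s0) :=
        mul_le_mul_of_nonneg_left h5 (norm_nonneg _)
      have h13 : ‖B‖ * (1 / s0) = ‖B‖ / s0 := by ring
      have h14 : (‖A‖ + ‖B‖ * Real.log x) * x ^ (-s0) =
          ‖A‖ * x ^ (-s0) + ‖B‖ * (Real.log x * x ^ (-s0)) := by ring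
      linarith
    linarith

theorem main {a b c d : ℝ} (ha : 0 < a) (hb : 0 < b) (hc : a + b < c) (hc1 : c ≤ a + b + 1)
    (hd : 0 < d) {p : ℝ} (hp : Gen a b c d p)
    (h : c < a + b + 1 ∨ (1 + c - a - b) * p - d < -1) :
    {x : ℝ | Phi a b c d (x : ℂ) = 0}.Finite ∧
      {z : ℂ | Phi a b c d z = 0 ∧ z.im ≠ 0}.Infinite := by
  have hf := Phi_differentiable ha hb hc hd
  obtain ⟨K, hK⟩ := Phi_norm_le ha hb hc hd
  obtain ⟨s0, σ2, C, A, B, hs0, hs, hC, hAB, hF⟩ := asym ha hb hc hc1 hd hp h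
  obtain ⟨X, δ, C', m, hδ, hneg⟩ := neg_bounds hs0 hs hC hAB hF
  have hinf := infinite_zeros hf hK hδ hneg (Phi_pos ha hb hc hd)
  -- real zeros
  have hreal : {z : ℂ | Phi a b c d z = 0 ∧ z.im = 0}.Finite := by
    by_contra hcon
    have hinf' : {z : ℂ | Phi a b c d z = 0 ∧ z.im = 0}.Infinite := hcon
    obtain ⟨e0, he0, hpos0⟩ := Phi_pos ha hb hc hd 0
    have hsub : {z : ℂ | Phi a b c d z = 0 ∧ z.im = 0} ⊆ Metric.closedBall 0 |X| := by
      rintro z ⟨hz0, hz1⟩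
      have hz : z = ((z.re : ℝ) : ℂ) := Complex.ext (by simp) (by simp [hz1])
      rw [Metric.mem_closedBall, dist_zero_right]
      rcases le_or_gt 0 z.re with h1 | h1
      · exfalso
        have := hpos0 z.re h1
        rw [← hz, hz0] at this
        simp at this
        linarith
      · by_contra hcon2
        push Not at hcon2
        have hzn : ‖z‖ = -z.re := by
          rw [hz, Complex.norm_real, Real.norm_eq_abs, Complex.ofReal_re, abs_of_neg h1]
        have h2 := (hneg (-z.re) (by rw [← hzn]; exact (le_abs_self X).trans hcon2.le)).1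
        have h3 : (-((-z.re : ℝ) : ℂ)) = z := by
          rw [hz]; push_cast; simp
        rw [h3, hz0, norm_zero, mul_zero] at h2
        linarith
    obtain ⟨w, -, hw⟩ := hinf'.exists_accPt_of_subset_isCompact (isCompact_closedBall 0 |X|) hsub
    have hfr : ∃ᶠ z in 𝓝[≠] w, Phi a b c d z = 0 := by
      rw [accPt_iff_frequently_nhdsNE] at hw
      exact hw.mono fun z hz => hz.1
    have hfa : AnalyticOnNhd ℂ (Phi a b c d) univ := fun z _ => hf.analyticAt z
    have h0 := hfa.eqOn_zero_of_preconnected_of_frequently_eq_zero isPreconnected_univ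
      (mem_univ w) hfr
    have h1 := hpos0 0 le_rfl
    rw [h0 (mem_univ _)] at h1
    simp at h1
    linarith
  constructor
  · have : {x : ℝ | Phi a b c d (x : ℂ) = 0} = Complex.ofReal ⁻¹' {z : ℂ | Phi a b c d z = 0 ∧ z.im = 0} := by
      ext x
      simp
    rw [this]
    exact hreal.preimage Complex.ofReal_injective.injOn
  · intro hfin
    apply hinf
    apply (hreal.union hfin).subset
    intro z hz
    by_cases h1 : z.im = 0
    · exact Or.inl ⟨hz, h1⟩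
    · exact Or.inr ⟨hz, h1⟩

theorem Phi_swap (a b c d : ℝ) : Phi a b c d = Phi b a c d := by
  ext z
  unfold Phi gam
  congr 1
  ext k
  rw [mul_comm (Real.Gamma (a * k + 1))]

theorem final {a b c d : ℝ} (ha : 0 < a) (hb : 0 < b) (hc : a + b < c) (hd : 0 < d)
    (h : c < a + b + 1 ∨ (c = a + b + 1 ∧ 1 + 2 / max a b < d)) :
    {x : ℝ | Phi a b c d (x : ℂ) = 0}.Finite ∧
      {z : ℂ | Phi a b c d z = 0 ∧ z.im ≠ 0}.Infinite := by
  rcases h with h | ⟨h, hmax⟩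
  · obtain ⟨p, hp⟩ := exists_gen (a := a) (b := b) (c := c) (d := d) ha hb (by linarith)
    exact main ha hb hc h.le hd hp (Or.inl h)
  · rcases le_total b a with hab | hab
    · rw [max_eq_left hab] at hmax
      refine main ha hb hc h.le hd (gen_crit ha hab h hmax) (Or.inr ?_)
      have e : (1 + c - a - b) * (1 / a) = 2 / a := by rw [h]; ring
      rw [e]; linarith
    · rw [max_eq_right hab] at hmax
      rw [Phi_swap]
      refine main hb ha (by linarith) (by linarith) hd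
        (gen_crit hb hab (by linarith) hmax) (Or.inr ?_)
      have e : (1 + c - b - a) * (1 / b) = 2 / b := by rw [h]; ring
      rw [e]; linarith

end

end Pool.Agent.Lib.MP_8382de_an
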