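import Mathlib

/-!
Two sided bounds for the Gamma function off the real axis, from Euler's product.
-/

namespace Pool.Agent.Lib.MP_8382de_an

open Filter Topology Set

noncomputable section

/-- `log (1 + y^2 / t^2)` -/
def hf (y t : ℝ) : ℝ := Real.log (1 + y ^ 2 / t ^ 2)

/-- the integral of `hf y` over `(x, oo)` -/
def Gf (x y : ℝ) : ℝ := 2 * y * Real.arctan (y / x) - x * Real.log (1 + y ^ 2 / x ^ 2)

lemma arctan_le_self' {u : ℝ} (hu : 0 ≤ u) : Real.arctan u ≤ u := by
  rcases hu.eq_or_lt with rfl | hu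
  · simp
  · have h1 : 0 < Real.arctan u := Real.arctan_pos.mpr hu
    have h2 := Real.lt_tan h1 (Real.arctan_lt_pi_div_two u)
    rw [Real.tan_arctan] at h2
    exact h2.le

lemma one_add_pos (y t : ℝ) : 0 < 1 + y ^ 2 / t ^ 2 := by positivity

lemma hf_nonneg (y t : ℝ) : 0 ≤ hf y t := by
  unfold hf
  apply Real.log_nonneg
  have : 0 ≤ y ^ 2 / t ^ 2 := by positivity
  linarith

lemma hasDerivAt_hf {y t : ℝ} (ht : 0 < t) :
    HasDerivAt (hf y) (-(2 * y ^ 2 / (t * (t ^ 2 + y ^ 2)))) t := by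
  unfold hf
  have h1 : HasDerivAt (fun t : ℝ => 1 + y ^ 2 / t ^ 2) (-(y ^ 2 * (2 * t)) / (t ^ 2) ^ 2) t := by
    have h2 : HasDerivAt (fun t : ℝ => t ^ 2) (2 * t) t := by
      simpa using hasDerivAt_pow 2 t
    have h3 := (hasDerivAt_const t (y ^ 2)).div h2 (by positivity)
    have h4 := h3.const_add 1
    refine h4.congr_deriv ?_
    ring
  have h5 := h1.log (one_add_pos y t).ne'
  convert h5 using 1
  have : t ^ 2 + y ^ 2 ≠ 0 := by positivity
  field_simp

lemma hasDerivAt_Gf {x y : ℝ} (hx : 0 < x) : HasDerivAt (fun x => Gf x y) (-(hf y x)) x := by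
  have h1 : HasDerivAt (fun x : ℝ => y / x) (-y / x ^ 2) x := by
    have := (hasDerivAt_const x y).div (hasDerivAt_id x) hx.ne'
    refine this.congr_deriv ?_
    simp
  have h2 : HasDerivAt (fun x : ℝ => Real.arctan (y / x)) (1 / (1 + (y / x) ^ 2) * (-y / x ^ 2)) x :=
    h1.arctan
  have h3 : HasDerivAt (fun x : ℝ => 2 * y * Real.arctan (y / x))
      (2 * y * (1 / (1 + (y / x) ^ 2) * (-y / x ^ 2))) x := h2.const_mul (2 * y)
  have h4 : HasDerivAt (fun x : ℝ => x * hf y x)
      (1 * hf y x + x * (-(2 * y ^ 2 / (x * (x ^ 2 + y ^ 2))))) x :=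
    (hasDerivAt_id x).mul (hasDerivAt_hf hx)
  have h5 := h3.sub h4
  refine h5.congr_deriv ?_
  have : x ^ 2 + y ^ 2 ≠ 0 := by positivity
  have h6 : 1 + (y / x) ^ 2 ≠ 0 := by positivity
  field_simp
  ring

lemma Gf_homog {l : ℝ} (hl : 0 < l) (x y : ℝ) : Gf (l * x) (l * y) = l * Gf x y := by
  unfold Gf
  rw [mul_div_mul_left _ _ hl.ne']
  have : (l * y) ^ 2 / (l * x) ^ 2 = y ^ 2 / x ^ 2 := by
    rw [mul_pow, mul_pow, mul_div_mul_left _ _ (by positivity)]
  rw [this]; ring

lemma Gf_neg (x y : ℝ) : Gf x (-y) = Gf x y := by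
  unfold Gf
  rw [neg_div, Real.arctan_neg, neg_sq]; ring

lemma hf_neg (y t : ℝ) : hf (-y) t = hf y t := by unfold hf; rw [neg_sq]

lemma Gf_abs (x y : ℝ) : Gf x |y| = Gf x y := by
  rcases abs_choice y with h | h <;> rw [h]
  exact Gf_neg x y

lemma hf_anti {y s t : ℝ} (hs : 0 < s) (hst : s ≤ t) : hf y t ≤ hf y s := by
  unfold hf
  apply Real.log_le_log (one_add_pos y t)
  have h : s ^ 2 ≤ t ^ 2 := by nlinarith
  have : y ^ 2 / t ^ 2 ≤ y ^ 2 / s ^ 2 := by
    apply div_le_div_of_nonneg_left (by positivity) (by positivity) h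
  linarith

lemma continuousOn_Gf (y : ℝ) : ContinuousOn (fun x => Gf x y) (Ioi 0) :=
  fun _ hx => (hasDerivAt_Gf hx).continuousAt.continuousWithinAt

lemma Gf_anti {y s t : ℝ} (hs : 0 < s) (hst : s ≤ t) : Gf t y ≤ Gf s y := by
  have h : AntitoneOn (fun x => Gf x y) (Ioi 0) := by
    apply antitoneOn_of_deriv_nonpos (convex_Ioi 0) (continuousOn_Gf y)
    · intro x hx
      rw [interior_Ioi] at hx
      exact (hasDerivAt_Gf hx).differentiableAt.differentiableWithinAt
    · intro x hx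
      rw [interior_Ioi] at hx
      rw [(hasDerivAt_Gf hx).deriv]
      have := hf_nonneg y x
      linarith
  exact h hs (lt_of_lt_of_le hs hst) hst

lemma abs_Gf_le {x : ℝ} (hx : 0 < x) (y : ℝ) : |Gf x y| ≤ 3 * y ^ 2 / x := by
  have h0 : abs (Gf x y) = abs (Gf x (abs y)) := by rw [Gf_abs]
  rw [h0]
  have hy := abs_nonneg y
  have h1 : Real.arctan (|y| / x) ≤ |y| / x := arctan_le_self' (by positivity)
  have h1' : 0 ≤ Real.arctan (|y| / x) := Real.arctan_nonneg.mpr (by positivity)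
  have h2 : Real.log (1 + |y| ^ 2 / x ^ 2) ≤ |y| ^ 2 / x ^ 2 := by
    have := Real.log_le_sub_one_of_pos (one_add_pos |y| x)
    linarith
  have h2' : 0 ≤ Real.log (1 + |y| ^ 2 / x ^ 2) := hf_nonneg |y| x
  have h3 : 2 * |y| * Real.arctan (|y| / x) ≤ 2 * y ^ 2 / x := by
    have : 2 * |y| * Real.arctan (|y| / x) ≤ 2 * |y| * (|y| / x) :=
      mul_le_mul_of_nonneg_left h1 (by positivity)
    have e : 2 * |y| * (|y| / x) = 2 * y ^ 2 / x := by
      rw [← sq_abs y]; ring
    linarith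
  have h4 : x * Real.log (1 + |y| ^ 2 / x ^ 2) ≤ y ^ 2 / x := by
    have : x * Real.log (1 + |y| ^ 2 / x ^ 2) ≤ x * (|y| ^ 2 / x ^ 2) :=
      mul_le_mul_of_nonneg_left h2 hx.le
    have e : x * (|y| ^ 2 / x ^ 2) = y ^ 2 / x := by
      rw [sq_abs]; field_simp
    linarith
  have h5 : 0 ≤ 2 * |y| * Real.arctan (|y| / x) := by positivity
  have h6 : 0 ≤ x * Real.log (1 + |y| ^ 2 / x ^ 2) := by positivity
  have e3 : 3 * y ^ 2 / x = 2 * y ^ 2 / x + y ^ 2 / x := by ring
  have h7 : 0 ≤ 2 * y ^ 2 / x := by positivity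
  have h8 : 0 ≤ y ^ 2 / x := by positivity
  unfold Gf
  rw [abs_le]
  constructor
  · linarith
  · linarith

lemma tendsto_Gf_add_nat {x : ℝ} (hx : 0 < x) (y : ℝ) :
    Tendsto (fun n : ℕ => Gf (x + n) y) atTop (𝓝 0) := by
  have h1 : Tendsto (fun n : ℕ => 3 * y ^ 2 / (x + n)) atTop (𝓝 0) := by
    apply Tendsto.div_atTop tendsto_const_nhds
    exact tendsto_atTop_add_const_left _ _ tendsto_natCast_atTop_atTop
  apply squeeze_zero_norm _ h1
  intro n
  rw [Real.norm_eq_abs]
  exact abs_Gf_le (by positivity) y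

lemma Gf_nonneg {x : ℝ} (hx : 0 < x) (y : ℝ) : 0 ≤ Gf x y := by
  apply le_of_tendsto' (tendsto_Gf_add_nat hx y)
  intro n
  exact Gf_anti hx (by simp)

lemma Gf_le {x : ℝ} (hx : 0 < x) (y : ℝ) : Gf x y ≤ Real.pi * |y| - x * hf y x := by
  rw [← Gf_abs]
  unfold Gf
  have h1 : Real.arctan (|y| / x) ≤ Real.pi / 2 := (Real.arctan_lt_pi_div_two _).le
  have h2 : 2 * |y| * Real.arctan (|y| / x) ≤ 2 * |y| * (Real.pi / 2) :=
    mul_le_mul_of_nonneg_left h1 (by positivity)
  have : Real.log (1 + |y| ^ 2 / x ^ 2) = hf y x := by unfold hf; rw [sq_abs]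
  rw [this]; linarith

lemma Gf_ge {x : ℝ} (hx : 0 < x) (y : ℝ) : Real.pi * |y| - 2 * x - x * hf y x ≤ Gf x y := by
  rcases eq_or_ne y 0 with rfl | hy
  · have := Gf_nonneg hx 0
    have h2 := hf_nonneg 0 x
    have h3 : 0 ≤ x * hf 0 x := by positivity
    simp only [abs_zero, mul_zero]
    linarith
  rw [← Gf_abs]
  have hy' : 0 < |y| := abs_pos.mpr hy
  have h0 : Real.log (1 + |y| ^ 2 / x ^ 2) = hf y x := by unfold hf; rw [sq_abs]
  unfold Gf
  rw [h0]
  have h1 : Real.arctan (x / |y|) = Real.pi / 2 - Real.arctan (|y| / x) := by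
    have := Real.arctan_inv_of_pos (x := |y| / x) (by positivity)
    rwa [inv_div] at this
  have h2 : Real.arctan (x / |y|) ≤ x / |y| := arctan_le_self' (by positivity)
  have h3 : Real.pi / 2 - x / |y| ≤ Real.arctan (|y| / x) := by linarith
  have h4 : 2 * |y| * (Real.pi / 2 - x / |y|) ≤ 2 * |y| * Real.arctan (|y| / x) :=
    mul_le_mul_of_nonneg_left h3 (by positivity)
  have h5 : 2 * |y| * (Real.pi / 2 - x / |y|) = Real.pi * |y| - 2 * x := by
    field_simp
  linarith

lemma convexOn_hf (y : ℝ) : ConvexOn ℝ (Ioi 0) (hf y) := by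
  apply MonotoneOn.convexOn_of_deriv (convex_Ioi 0)
  · exact fun t ht => (hasDerivAt_hf ht).continuousAt.continuousWithinAt
  · intro t ht
    rw [interior_Ioi] at ht
    exact (hasDerivAt_hf ht).differentiableAt.differentiableWithinAt
  · intro s hs t ht hst
    rw [interior_Ioi] at hs ht
    rw [(hasDerivAt_hf hs).deriv, (hasDerivAt_hf ht).deriv]
    have hs' : (0:ℝ) < s := hs
    have ht' : (0:ℝ) < t := ht
    apply neg_le_neg
    apply div_le_div_of_nonneg_left (by positivity) (by positivity)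
    have : s ^ 2 + y ^ 2 ≤ t ^ 2 + y ^ 2 := by nlinarith
    exact mul_le_mul hst this (by positivity) ht'.le

/-- trapezoidal rule -/
lemma trapezoid {m : ℝ} (hm : 0 < m) (y : ℝ) :
    Gf m y - Gf (m + 1) y ≤ (hf y m + hf y (m + 1)) / 2 := by
  set φ : ℝ → ℝ := fun s => s * (hf y m + hf y (m + s)) / 2 - (Gf m y - Gf (m + s) y) with hφ
  have hd : ∀ s : ℝ, 0 ≤ s → HasDerivAt φ
      ((1 * (hf y m + hf y (m + s)) + s * (-(2 * y ^ 2 / ((m + s) * ((m + s) ^ 2 + y ^ 2))))) / 2
        - (- (-(hf y (m + s))))) s := by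
    intro s hs
    have hms : 0 < m + s := by linarith
    have e1 : HasDerivAt (fun s => hf y (m + s))
        (-(2 * y ^ 2 / ((m + s) * ((m + s) ^ 2 + y ^ 2)))) s :=
      HasDerivAt.comp_const_add m s (hasDerivAt_hf hms)
    have e2 : HasDerivAt (fun s => Gf (m + s) y) (-(hf y (m + s))) s :=
      HasDerivAt.comp_const_add m s (hasDerivAt_Gf hms)
    have e3 := ((hasDerivAt_id s).mul (e1.const_add (hf y m))).div_const 2
    have e4 := e2.const_sub (Gf m y)
    exact e3.sub e4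
  have hmono : MonotoneOn φ (Icc 0 1) := by
    apply monotoneOn_of_deriv_nonneg (convex_Icc 0 1)
    · exact fun s hs => (hd s hs.1).continuousAt.continuousWithinAt
    · intro s hs
      rw [interior_Icc] at hs
      exact (hd s hs.1.le).differentiableAt.differentiableWithinAt
    · intro s hs
      rw [interior_Icc] at hs
      rw [(hd s hs.1.le).deriv]
      have hms : 0 < m + s := by linarith [hs.1]
      have h := (convexOn_hf y).slope_le_of_hasDerivAt (x := m) (y := m + s) hm hms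
        (by linarith [hs.1]) (hasDerivAt_hf hms)
      rw [slope_def_field, div_le_iff₀ (by linarith [hs.1])] at h
      have e : m + s - m = s := by ring
      rw [e] at h
      linarith
  have h0 : φ 0 ≤ φ 1 := hmono (by simp) (by simp) zero_le_one
  simp only [hφ] at h0
  simp only [add_zero, zero_mul, one_mul, zero_div, sub_self] at h0
  linarith

/-- midpoint rule -/
lemma midpoint {m : ℝ} (hm : 1 / 2 < m) (y : ℝ) :
    hf y m ≤ Gf (m - 1 / 2) y - Gf (m + 1 / 2) y := by
  set φ : ℝ → ℝ := fun s => Gf (m - s) y - Gf (m + s) y - 2 * s * hf y m with hφ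
  have hd : ∀ s : ℝ, 0 ≤ s → s < m → HasDerivAt φ
      (-(-(hf y (m - s))) - (-(hf y (m + s))) - 2 * 1 * hf y m) s := by
    intro s hs hsm
    have hms : 0 < m + s := by linarith
    have hms' : 0 < m - s := by linarith
    have e1 : HasDerivAt (fun s => Gf (m - s) y) (-(-(hf y (m - s)))) s :=
      HasDerivAt.comp_const_sub m s (hasDerivAt_Gf hms')
    have e2 : HasDerivAt (fun s => Gf (m + s) y) (-(hf y (m + s))) s :=
      HasDerivAt.comp_const_add m s (hasDerivAt_Gf hms)
    have e3 : HasDerivAt (fun s => 2 * s * hf y m) (2 * 1 * hf y m) s :=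
      ((hasDerivAt_id s).const_mul 2).mul_const _
    exact (e1.sub e2).sub e3
  have hmono : MonotoneOn φ (Icc 0 (1 / 2)) := by
    apply monotoneOn_of_deriv_nonneg (convex_Icc _ _)
    · exact fun s hs => (hd s hs.1 (by linarith [hs.2])).continuousAt.continuousWithinAt
    · intro s hs
      rw [interior_Icc] at hs
      exact (hd s hs.1.le (by linarith [hs.2])).differentiableAt.differentiableWithinAt
    · intro s hs
      rw [interior_Icc] at hs
      rw [(hd s hs.1.le (by linarith [hs.2])).deriv]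
      have hms : 0 < m + s := by linarith [hs.1]
      have hms' : 0 < m - s := by linarith [hs.2]
      have h := (convexOn_hf y).2 (mem_Ioi.mpr hms') (mem_Ioi.mpr hms)
        (show (0:ℝ) ≤ 1 / 2 by norm_num) (show (0:ℝ) ≤ 1 / 2 by norm_num) (by norm_num)
      simp only [smul_eq_mul] at h
      have e : 1 / 2 * (m - s) + 1 / 2 * (m + s) = m := by ring
      rw [e] at h
      linarith
  have h0 : φ 0 ≤ φ (1 / 2) := hmono (by simp) (by simp) (by norm_num)
  simp only [hφ] at h0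
  simp only [add_zero, sub_zero, sub_self, mul_zero, zero_mul] at h0
  linarith

/-- simple lower rectangle -/
lemma rect_le {m : ℝ} (hm : 0 < m) (y : ℝ) : hf y (m + 1) ≤ Gf m y - Gf (m + 1) y := by
  have h := midpoint (m := m + 1) (by linarith) y
  -- use monotone comparison by the mean value theorem instead
  obtain ⟨c, hc, hc'⟩ := exists_deriv_eq_slope (fun x => Gf x y) (a := m) (b := m + 1)
    (by linarith)
    (fun x hx => (hasDerivAt_Gf (lt_of_lt_of_le hm hx.1)).continuousAt.continuousWithinAt)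
    (fun x hx => (hasDerivAt_Gf (lt_trans hm hx.1)).differentiableAt.differentiableWithinAt)
  have hc0 : 0 < c := lt_trans hm hc.1
  rw [(hasDerivAt_Gf hc0).deriv] at hc'
  have e : m + 1 - m = 1 := by ring
  rw [e, div_one] at hc'
  have h2 : hf y (m + 1) ≤ hf y c := hf_anti hc0 hc.2.le
  linarith

lemma rect_ge {m : ℝ} (hm : 0 < m) (y : ℝ) : Gf m y - Gf (m + 1) y ≤ hf y m := by
  have h := trapezoid hm y
  have h2 : hf y (m + 1) ≤ hf y m := hf_anti hm (by linarith)
  linarith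

lemma sum_ge {x : ℝ} (hx : 0 < x) (y : ℝ) (n : ℕ) :
    hf y x / 2 + Gf x y - Gf (x + n) y ≤ ∑ j ∈ Finset.range (n + 1), hf y (x + j) := by
  have key : ∀ n : ℕ, hf y x / 2 + hf y (x + n) / 2 + Gf x y - Gf (x + n) y
      ≤ ∑ j ∈ Finset.range (n + 1), hf y (x + j) := by
    intro n
    induction n with
    | zero => simp
    | succ n ih =>
      rw [Finset.sum_range_succ]
      have h := trapezoid (m := x + n) (by positivity) y
      have e : x + ((n + 1 : ℕ) : ℝ) = x + n + 1 := by push_cast; ring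
      rw [e]
      linarith
  have h1 := key n
  have h2 := hf_nonneg y (x + n)
  linarith

lemma sum_le {x : ℝ} (hx : 0 < x) (y : ℝ) (n : ℕ) :
    ∑ j ∈ Finset.range (n + 1), hf y (x + j) ≤ hf y x + Gf x y := by
  have key : ∀ n : ℕ, ∑ j ∈ Finset.range (n + 1), hf y (x + j)
      ≤ hf y x + Gf x y - Gf (x + n) y := by
    intro n
    induction n with
    | zero => simp
    | succ n ih =>
      rw [Finset.sum_range_succ]
      have h := rect_le (m := x + n) (by positivity) y
      have e : x + ((n + 1 : ℕ) : ℝ) = x + n + 1 := by push_cast; ring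
      rw [e]
      linarith
  have h1 := key n
  have h2 := Gf_nonneg (x := x + n) (by positivity) y
  linarith

lemma sum_le_mid {x : ℝ} (hx : 1 / 2 < x) (y : ℝ) (n : ℕ) :
    ∑ j ∈ Finset.range (n + 1), hf y (x + j) ≤ Gf (x - 1 / 2) y := by
  have key : ∀ n : ℕ, ∑ j ∈ Finset.range (n + 1), hf y (x + j)
      ≤ Gf (x - 1 / 2) y - Gf (x + n + 1 / 2) y := by
    intro n
    induction n with
    | zero =>
      simpa using midpoint hx y
    | succ n ih =>
      rw [Finset.sum_range_succ]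
      have h := midpoint (m := x + n + 1) (by have : (0:ℝ) ≤ n := by positivity
                                              linarith) y
      have e : x + ((n + 1 : ℕ) : ℝ) = x + n + 1 := by push_cast; ring
      have e2 : x + n + 1 - 1 / 2 = x + n + 1 / 2 := by ring
      rw [e2] at h
      rw [e]
      linarith
  have h1 := key n
  have h2 := Gf_nonneg (x := x + n + 1 / 2) (by positivity) y
  linarith

lemma norm_add_mul_I {u : ℝ} (hu : 0 < u) (y : ℝ) :
    ‖(u : ℂ) + y * Complex.I‖ = u * Real.exp (hf y u / 2) := by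
  have h1 : Real.exp (hf y u / 2) = Real.sqrt (1 + y ^ 2 / u ^ 2) := by
    unfold hf
    rw [← Real.log_sqrt (one_add_pos y u).le, Real.exp_log (Real.sqrt_pos.mpr (one_add_pos y u))]
  rw [h1, Complex.norm_add_mul_I]
  rw [← Real.sqrt_sq hu.le, ← Real.sqrt_mul (by positivity), Real.sqrt_sq hu.le]
  congr 1
  field_simp

lemma norm_GammaSeq {x : ℝ} (hx : 0 < x) (y : ℝ) {n : ℕ} (hn : n ≠ 0) :
    ‖Complex.GammaSeq (x + y * Complex.I) n‖ =
      ‖Complex.GammaSeq (x : ℂ) n‖ *
        Real.exp (-(∑ j ∈ Finset.range (n + 1), hf y (x + j)) / 2) := by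
  unfold Complex.GammaSeq
  rw [norm_div, norm_div, norm_mul, norm_mul, norm_prod, norm_prod]
  have h1 : ‖(n : ℂ) ^ ((x : ℂ) + y * Complex.I)‖ = ‖(n : ℂ) ^ (x : ℂ)‖ := by
    rw [Complex.norm_natCast_cpow_of_pos (Nat.pos_of_ne_zero hn),
      Complex.norm_natCast_cpow_of_pos (Nat.pos_of_ne_zero hn)]
    simp
  rw [h1]
  have h2 : ∏ j ∈ Finset.range (n + 1), ‖(x : ℂ) + y * Complex.I + (j : ℂ)‖ =
      (∏ j ∈ Finset.range (n + 1), ‖(x : ℂ) + (j : ℂ)‖) *
        Real.exp ((∑ j ∈ Finset.range (n + 1), hf y (x + j)) / 2) := by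
    rw [Finset.sum_div, Real.exp_sum, ← Finset.prod_mul_distrib]
    apply Finset.prod_congr rfl
    intro j _
    have hp : 0 < x + j := by positivity
    have e : (x : ℂ) + y * Complex.I + (j : ℂ) = ((x + j : ℝ) : ℂ) + y * Complex.I := by
      push_cast; ring
    rw [e, norm_add_mul_I hp]
    congr 1
    have e2 : (x : ℂ) + (j : ℂ) = ((x + j : ℝ) : ℂ) := by push_cast; ring
    rw [e2, Complex.norm_real, Real.norm_eq_abs, abs_of_pos hp]
  rw [h2, neg_div, Real.exp_neg]
  have h3 : ∏ j ∈ Finset.range (n + 1), ‖(x : ℂ) + (j : ℂ)‖ ≠ 0 := by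
    apply Finset.prod_ne_zero_iff.mpr
    intro j _
    have hp : 0 < x + j := by positivity
    have e2 : (x : ℂ) + (j : ℂ) = ((x + j : ℝ) : ℂ) := by push_cast; ring
    rw [e2, Complex.norm_real, Real.norm_eq_abs, abs_of_pos hp]
    exact hp.ne'
  have h4 := (Real.exp_pos ((∑ j ∈ Finset.range (n + 1), hf y (x + j)) / 2)).ne'
  field_simp

lemma norm_Gamma_real {x : ℝ} (hx : 0 < x) : ‖Complex.Gamma (x : ℂ)‖ = Real.Gamma x := by
  rw [Complex.Gamma_ofReal, Complex.norm_real, Real.norm_eq_abs, abs_of_pos (Real.Gamma_pos_of_pos hx)]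

/-- upper bound -/
theorem norm_Gamma_le {x : ℝ} (hx : 0 < x) (y : ℝ) :
    ‖Complex.Gamma (x + y * Complex.I)‖ ≤
      Real.Gamma x * Real.exp (-(hf y x / 2 + Gf x y) / 2) := by
  have h1 : Tendsto (fun n : ℕ => ‖Complex.GammaSeq (x + y * Complex.I) n‖) atTop
      (𝓝 ‖Complex.Gamma (x + y * Complex.I)‖) :=
    (Complex.GammaSeq_tendsto_Gamma _).norm
  have h2 : Tendsto (fun n : ℕ => ‖Complex.GammaSeq (x : ℂ) n‖ *
      Real.exp (-(hf y x / 2 + Gf x y - Gf (x + n) y) / 2)) atTop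
      (𝓝 (Real.Gamma x * Real.exp (-(hf y x / 2 + Gf x y) / 2))) := by
    apply Tendsto.mul
    · rw [← norm_Gamma_real hx]
      exact (Complex.GammaSeq_tendsto_Gamma _).norm
    · have h3 := tendsto_Gf_add_nat hx y
      have h4 : Tendsto (fun n : ℕ => -(hf y x / 2 + Gf x y - Gf (x + n) y) / 2) atTop
          (𝓝 (-(hf y x / 2 + Gf x y - 0) / 2)) :=
        ((tendsto_const_nhds.sub h3).neg).div_const 2
      rw [sub_zero] at h4
      exact (Real.continuous_exp.tendsto _).comp h4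
  apply le_of_tendsto_of_tendsto h1 h2
  filter_upwards [eventually_ne_atTop 0] with n hn
  rw [norm_GammaSeq hx y hn]
  apply mul_le_mul_of_nonneg_left _ (norm_nonneg _)
  apply Real.exp_le_exp.mpr
  have := sum_ge hx y n
  linarith

/-- lower bound valid for all `x > 0` -/
theorem le_norm_Gamma {x : ℝ} (hx : 0 < x) (y : ℝ) :
    Real.Gamma x * Real.exp (-(hf y x + Gf x y) / 2) ≤ ‖Complex.Gamma (x + y * Complex.I)‖ := by
  have h1 : Tendsto (fun n : ℕ => ‖Complex.GammaSeq (x + y * Complex.I) n‖) atTop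
      (𝓝 ‖Complex.Gamma (x + y * Complex.I)‖) :=
    (Complex.GammaSeq_tendsto_Gamma _).norm
  have h2 : Tendsto (fun n : ℕ => ‖Complex.GammaSeq (x : ℂ) n‖ *
      Real.exp (-(hf y x + Gf x y) / 2)) atTop
      (𝓝 (Real.Gamma x * Real.exp (-(hf y x + Gf x y) / 2))) := by
    apply Tendsto.mul _ tendsto_const_nhds
    rw [← norm_Gamma_real hx]
    exact (Complex.GammaSeq_tendsto_Gamma _).norm
  apply le_of_tendsto_of_tendsto h2 h1
  filter_upwards [eventually_ne_atTop 0] with n hn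
  rw [norm_GammaSeq hx y hn]
  apply mul_le_mul_of_nonneg_left _ (norm_nonneg _)
  apply Real.exp_le_exp.mpr
  have := sum_le hx y n
  linarith

/-- lower bound with the right power, for `x > 1/2` -/
theorem le_norm_Gamma' {x : ℝ} (hx : 1 / 2 < x) (y : ℝ) :
    Real.Gamma x * Real.exp (-(Gf (x - 1 / 2) y) / 2) ≤ ‖Complex.Gamma (x + y * Complex.I)‖ := by
  have hx0 : 0 < x := by linarith
  have h1 : Tendsto (fun n : ℕ => ‖Complex.GammaSeq (x + y * Complex.I) n‖) atTop
      (𝓝 ‖Complex.Gamma (x + y * Complex.I)‖) :=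
    (Complex.GammaSeq_tendsto_Gamma _).norm
  have h2 : Tendsto (fun n : ℕ => ‖Complex.GammaSeq (x : ℂ) n‖ *
      Real.exp (-(Gf (x - 1 / 2) y) / 2)) atTop
      (𝓝 (Real.Gamma x * Real.exp (-(Gf (x - 1 / 2) y) / 2))) := by
    apply Tendsto.mul _ tendsto_const_nhds
    rw [← norm_Gamma_real hx0]
    exact (Complex.GammaSeq_tendsto_Gamma _).norm
  apply le_of_tendsto_of_tendsto h2 h1
  filter_upwards [eventually_ne_atTop 0] with n hn
  rw [norm_GammaSeq hx0 y hn]
  apply mul_le_mul_of_nonneg_left _ (norm_nonneg _)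
  apply Real.exp_le_exp.mpr
  have := sum_le_mid hx y n
  linarith

end

end Pool.Agent.Lib.MP_8382de_an
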