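import Pool.Agent.Lib.MP_8382de_an.MB

/-!
The Mellin-Barnes representation: moving the line of integration to the left.
-/

namespace Pool.Agent.Lib.MP_8382de_an

open Filter Topology Set MeasureTheory

noncomputable section

lemma hf_homog {l : ℝ} (hl : 0 < l) (y x : ℝ) : hf (l * y) (l * x) = hf y x := by
  unfold hf
  rw [mul_pow, mul_pow, mul_div_mul_left _ _ (by positivity)]

lemma up_line {a X : ℝ} (ha : 0 < a) (hX : 0 < X) (t : ℝ) :
    ‖Complex.Gamma (((1 + a * X : ℝ) : ℂ) + ((-(a * t) : ℝ) : ℂ) * Complex.I)‖ ≤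
      Real.Gamma (1 + a * X) * Real.exp (-(a * Gf X t - hf t X) / 2) := by
  have haX : 0 < a * X := by positivity
  refine (norm_Gamma_le (x := 1 + a * X) (by positivity) _).trans ?_
  apply mul_le_mul_of_nonneg_left _ (Real.Gamma_pos_of_pos (by positivity)).le
  apply Real.exp_le_exp.mpr
  rw [hf_neg, Gf_neg]
  have h1 := rect_ge haX (a * t)
  rw [Gf_homog ha, hf_homog ha] at h1
  have h2 := hf_nonneg (a * t) (1 + a * X)
  rw [show a * X + 1 = 1 + a * X by ring] at h1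
  linarith

lemma low_line {c X : ℝ} (hc : 0 < c) (hX : 0 < X) {e : ℝ} (he : 0 ≤ e) (t : ℝ) :
    Real.Gamma (e + c * X) * Real.exp (-(hf t X + c * Gf X t) / 2) ≤
    ‖Complex.Gamma (((e + c * X : ℝ) : ℂ) + ((-(c * t) : ℝ) : ℂ) * Complex.I)‖ := by
  have hcX : 0 < c * X := by positivity
  refine le_trans ?_ (le_norm_Gamma (x := e + c * X) (by positivity) _)
  apply mul_le_mul_of_nonneg_left _ (Real.Gamma_pos_of_pos (by positivity)).le
  apply Real.exp_le_exp.mpr
  rw [hf_neg, Gf_neg]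
  have h1 : hf (c * t) (e + c * X) ≤ hf (c * t) (c * X) := hf_anti hcX (by linarith)
  have h2 : Gf (e + c * X) (c * t) ≤ Gf (c * X) (c * t) := Gf_anti hcX (by linarith)
  rw [hf_homog hc] at h1
  rw [Gf_homog hc] at h2
  linarith

lemma exp_abs_le_cosh (y : ℝ) : Real.exp |y| / 2 ≤ Real.cosh y := by
  rw [Real.cosh_eq]
  have h1 := Real.exp_pos y
  have h2 := Real.exp_pos (-y)
  rcases abs_choice y with h | h <;> rw [h] <;> linarith

lemma norm_sin_line (N : ℕ) (t : ℝ) :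
    Real.exp (Real.pi * |t|) / 2 ≤
      ‖Complex.sin (Real.pi * (((-((N : ℝ) + 1 / 2) : ℝ) : ℂ) + t * Complex.I))‖ := by
  have e : (Real.pi : ℂ) * (((-((N : ℝ) + 1 / 2) : ℝ) : ℂ) + t * Complex.I) =
      ((Real.pi * t : ℝ) : ℂ) * Complex.I - Real.pi / 2 - N * Real.pi := by
    push_cast; ring
  rw [e, Complex.sin_antiperiodic.sub_nat_mul_eq N, Complex.sin_sub_pi_div_two, Complex.cos_mul_I, norm_mul,
    norm_pow, norm_neg, norm_neg, norm_one, one_pow, one_mul, ← Complex.ofReal_cosh,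
    Complex.norm_real, Real.norm_eq_abs, abs_of_pos (Real.cosh_pos _)]
  have := exp_abs_le_cosh (Real.pi * t)
  rwa [abs_mul, abs_of_pos Real.pi_pos] at this

lemma left_line {a b c d : ℝ} (ha : 0 < a) (hb : 0 < b) (hc : a + b < c) (hc1 : c ≤ a + b + 1)
    (hd : 0 < d) (N : ℕ) (hN : 3 ≤ N) (hX : 1 ≤ (a + b) * ((N : ℝ) + 1 / 2)) (t : ℝ) :
    ‖Mf a b c d (((-((N : ℝ) + 1 / 2) : ℝ) : ℂ) + t * Complex.I)‖ ≤
      2 * Real.pi * ((N : ℝ) + 1 / 2) ^ 2 / (N.factorial : ℝ) * (1 + t ^ 2)⁻¹ := by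
  set X : ℝ := (N : ℝ) + 1 / 2 with hXdef
  have hN' : (3 : ℝ) ≤ N := by exact_mod_cast hN
  have hX3 : 3 ≤ X := by rw [hXdef]; linarith
  have hX0 : 0 < X := by linarith
  have hc0 : 0 < c := by linarith
  set s : ℂ := ((-X : ℝ) : ℂ) + t * Complex.I with hs
  set h := hf t X with hh
  set G := Gf X t with hG
  have hG0 : 0 ≤ G := Gf_nonneg hX0 t
  have hh0 : 0 ≤ h := hf_nonneg t X
  have hGle : G ≤ Real.pi * |t| - X * h := Gf_le hX0 t
  -- the four factors
  have q1 := up_line ha hX0 t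
  have q2 := up_line hb hX0 t
  have q3 := low_line hc0 hX0 (e := d + 1) (by linarith) t
  have q4 := low_line (c := 1) one_pos hX0 (e := 1) (by norm_num) t
  rw [one_mul, one_mul, one_mul] at q4
  have e1 : (1 : ℂ) - a * s = ((1 + a * X : ℝ) : ℂ) + ((-(a * t) : ℝ) : ℂ) * Complex.I := by
    rw [hs]; push_cast; ring
  have e2 : (1 : ℂ) - b * s = ((1 + b * X : ℝ) : ℂ) + ((-(b * t) : ℝ) : ℂ) * Complex.I := by
    rw [hs]; push_cast; ring
  have e3 : (d : ℂ) + 1 - c * s =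
      ((d + 1 + c * X : ℝ) : ℂ) + ((-(c * t) : ℝ) : ℂ) * Complex.I := by
    rw [hs]; push_cast; ring
  have e4 : (1 : ℂ) - s = ((1 + X : ℝ) : ℂ) + ((-t : ℝ) : ℂ) * Complex.I := by
    rw [hs]; push_cast; ring
  rw [← e1] at q1
  rw [← e2] at q2
  rw [← e3] at q3
  rw [← e4] at q4
  have p1 : 0 < Real.Gamma (1 + a * X) := Real.Gamma_pos_of_pos (by positivity)
  have p2 : 0 < Real.Gamma (1 + b * X) := Real.Gamma_pos_of_pos (by positivity)
  have p3 : 0 < Real.Gamma (d + 1 + c * X) := Real.Gamma_pos_of_pos (by positivity)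
  have p4 : 0 < Real.Gamma (1 + X) := Real.Gamma_pos_of_pos (by positivity)
  have hsin := norm_sin_line N t
  rw [← hXdef, ← hs] at hsin
  have hrefl := Complex.Gamma_mul_Gamma_one_sub s
  have hnorm : ‖Complex.Gamma s‖ * ‖Complex.Gamma (1 - s)‖ =
      Real.pi / ‖Complex.sin (Real.pi * s)‖ := by
    rw [← norm_mul, hrefl, norm_div, Complex.norm_real, Real.norm_eq_abs,
      abs_of_pos Real.pi_pos]
  have hexp0 : 0 < Real.exp (Real.pi * |t|) := Real.exp_pos _
  have q5 : ‖Complex.Gamma s‖ * (Real.Gamma (1 + X) * Real.exp (-(h + G) / 2)) ≤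
      2 * Real.pi * Real.exp (-(Real.pi * |t|)) := by
    have h1 : ‖Complex.Gamma s‖ * (Real.Gamma (1 + X) * Real.exp (-(h + G) / 2)) ≤
        ‖Complex.Gamma s‖ * ‖Complex.Gamma (1 - s)‖ :=
      mul_le_mul_of_nonneg_left q4 (norm_nonneg _)
    refine h1.trans ?_
    rw [hnorm]
    have h2 : Real.pi / ‖Complex.sin (Real.pi * s)‖ ≤ Real.pi / (Real.exp (Real.pi * |t|) / 2) :=
      div_le_div_of_nonneg_left Real.pi_pos.le (by positivity) hsin
    refine h2.trans (le_of_eq ?_)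
    rw [Real.exp_neg]
    field_simp
  have q5' : ‖Complex.Gamma s‖ ≤
      2 * Real.pi / Real.Gamma (1 + X) * Real.exp (-(Real.pi * |t|) + (h + G) / 2) := by
    have : 2 * Real.pi / Real.Gamma (1 + X) * Real.exp (-(Real.pi * |t|) + (h + G) / 2) =
        2 * Real.pi * Real.exp (-(Real.pi * |t|)) /
          (Real.Gamma (1 + X) * Real.exp (-(h + G) / 2)) := by
      rw [Real.exp_add, neg_div (2 : ℝ) (h + G), Real.exp_neg ((h + G) / 2)]
      have := (Real.exp_pos ((h + G) / 2)).ne'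
      field_simp
    rw [this, le_div_iff₀ (by positivity)]
    exact q5
  have q3' : ‖(Complex.Gamma (d + 1 - c * s))⁻¹‖ ≤
      1 / Real.Gamma (d + 1 + c * X) * Real.exp ((h + c * G) / 2) := by
    rw [norm_inv]
    have h1 : 0 < Real.Gamma (d + 1 + c * X) * Real.exp (-(h + c * G) / 2) := by positivity
    refine (inv_anti₀ h1 q3).trans (le_of_eq ?_)
    rw [mul_inv, neg_div, Real.exp_neg, inv_inv, one_div]
  have hprod : ‖Mf a b c d s‖ ≤
      (2 * Real.pi / Real.Gamma (1 + X) * Real.exp (-(Real.pi * |t|) + (h + G) / 2)) *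
      (Real.Gamma (1 + a * X) * Real.exp (-(a * G - h) / 2)) *
      (Real.Gamma (1 + b * X) * Real.exp (-(b * G - h) / 2)) *
      (1 / Real.Gamma (d + 1 + c * X) * Real.exp ((h + c * G) / 2)) := by
    unfold Mf
    rw [norm_mul, norm_mul, norm_mul]
    gcongr
  refine hprod.trans ?_
  have e5 : (2 * Real.pi / Real.Gamma (1 + X) * Real.exp (-(Real.pi * |t|) + (h + G) / 2)) *
      (Real.Gamma (1 + a * X) * Real.exp (-(a * G - h) / 2)) *
      (Real.Gamma (1 + b * X) * Real.exp (-(b * G - h) / 2)) *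
      (1 / Real.Gamma (d + 1 + c * X) * Real.exp ((h + c * G) / 2)) =
      2 * Real.pi * (Real.Gamma (1 + a * X) * Real.Gamma (1 + b * X) /
        Real.Gamma (d + 1 + c * X)) / Real.Gamma (1 + X) *
      Real.exp (-(Real.pi * |t|) + 2 * h + (1 + c - a - b) / 2 * G) := by
    have : Real.exp (-(Real.pi * |t|) + 2 * h + (1 + c - a - b) / 2 * G) =
        Real.exp (-(Real.pi * |t|) + (h + G) / 2) * Real.exp (-(a * G - h) / 2) *
        Real.exp (-(b * G - h) / 2) * Real.exp ((h + c * G) / 2) := by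
      rw [← Real.exp_add, ← Real.exp_add, ← Real.exp_add]
      congr 1; ring
    rw [this]
    ring
  rw [e5]
  have hR : Real.Gamma (1 + a * X) * Real.Gamma (1 + b * X) / Real.Gamma (d + 1 + c * X) ≤ 1 := by
    have := ratio_le ha hb hc hd hX
    rwa [show 1 + a * X = a * X + 1 by ring, show 1 + b * X = b * X + 1 by ring,
      show d + 1 + c * X = c * X + d + 1 by ring]
  have hfac : (N.factorial : ℝ) ≤ Real.Gamma (1 + X) := by
    rw [← Real.Gamma_nat_eq_factorial]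
    apply Real.Gamma_strictMonoOn_Ici.monotoneOn
    · simp only [mem_Ici]; linarith
    · simp only [mem_Ici]; linarith
    · rw [hXdef]; linarith
  have hfac0 : (0 : ℝ) < N.factorial := by exact_mod_cast N.factorial_pos
  have hE : Real.exp (-(Real.pi * |t|) + 2 * h + (1 + c - a - b) / 2 * G) ≤
      X ^ 2 * (1 + t ^ 2)⁻¹ := by
    have h1 : -(Real.pi * |t|) + 2 * h + (1 + c - a - b) / 2 * G ≤ -h := by
      have h2 : (1 + c - a - b) / 2 * G ≤ 1 * G :=
        mul_le_mul_of_nonneg_right (by linarith) hG0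
      have h3 : 3 * h ≤ X * h := mul_le_mul_of_nonneg_right hX3 hh0
      linarith
    refine (Real.exp_le_exp.mpr h1).trans ?_
    rw [Real.exp_neg, hh, hf, Real.exp_log (one_add_pos t X)]
    rw [← div_eq_mul_inv, inv_eq_one_div, div_le_div_iff₀ (one_add_pos t X) (by positivity)]
    have h4 : X ^ 2 * (1 + t ^ 2 / X ^ 2) = X ^ 2 + t ^ 2 := by
      field_simp
    rw [h4]
    nlinarith
  have h6 : 2 * Real.pi * (Real.Gamma (1 + a * X) * Real.Gamma (1 + b * X) /
        Real.Gamma (d + 1 + c * X)) / Real.Gamma (1 + X) ≤ 2 * Real.pi / (N.factorial : ℝ) := by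
    rw [div_le_div_iff₀ p4 hfac0]
    have h7 : 2 * Real.pi * (Real.Gamma (1 + a * X) * Real.Gamma (1 + b * X) /
        Real.Gamma (d + 1 + c * X)) ≤ 2 * Real.pi * 1 :=
      mul_le_mul_of_nonneg_left hR (by positivity)
    rw [mul_one] at h7
    exact mul_le_mul h7 hfac hfac0.le (by positivity)
  have h8 := mul_le_mul h6 hE (Real.exp_pos _).le (by positivity)
  refine h8.trans (le_of_eq ?_)
  ring

lemma J_left_bound {a b c d : ℝ} (ha : 0 < a) (hb : 0 < b) (hc : a + b < c) (hc1 : c ≤ a + b + 1)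
    (hd : 0 < d) (N : ℕ) (hN : 3 ≤ N) (hX : 1 ≤ (a + b) * ((N : ℝ) + 1 / 2)) {x : ℝ} (hx : 0 < x) :
    ‖J a b c d (-((N : ℝ) + 1 / 2)) x‖ ≤
      2 * Real.pi ^ 2 * x ^ (1 / 2 : ℝ) * ((4 * x) ^ N / (N.factorial : ℝ)) := by
  unfold J
  set C := 2 * Real.pi * ((N : ℝ) + 1 / 2) ^ 2 / (N.factorial : ℝ) * x ^ ((N : ℝ) + 1 / 2) with hC
  have hb1 : ∀ t : ℝ, ‖Fx a b c d x (((-((N : ℝ) + 1 / 2) : ℝ) : ℂ) + t * Complex.I)‖ ≤
      C * (1 + t ^ 2)⁻¹ := by
    intro t
    unfold Fx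
    rw [norm_mul, norm_xpow hx, neg_neg]
    have := mul_le_mul_of_nonneg_right (left_line ha hb hc hc1 hd N hN hX t)
      (Real.rpow_nonneg hx.le ((N : ℝ) + 1 / 2))
    refine this.trans (le_of_eq ?_)
    rw [hC]; ring
  have h1 := norm_integral_le_of_norm_le (integrable_inv_one_add_sq.const_mul C)
    (Eventually.of_forall hb1)
  rw [integral_const_mul, integral_univ_inv_one_add_sq] at h1
  refine h1.trans ?_
  rw [hC, Real.rpow_add hx, Real.rpow_natCast]
  have h2 : ((N : ℝ) + 1 / 2) ^ 2 ≤ 4 ^ N := by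
    have h3 : (N : ℝ) + 1 / 2 ≤ 2 ^ N := by
      have : N + 1 ≤ 2 ^ N := Nat.lt_two_pow_self
      have : ((N + 1 : ℕ) : ℝ) ≤ ((2 ^ N : ℕ) : ℝ) := by exact_mod_cast this
      push_cast at this
      linarith
    calc ((N : ℝ) + 1 / 2) ^ 2 ≤ (2 ^ N) ^ 2 := pow_le_pow_left₀ (by positivity) h3 2
      _ = 4 ^ N := by rw [← pow_mul, mul_comm, pow_mul]; norm_num
  have hfac0 : (0 : ℝ) < N.factorial := by exact_mod_cast N.factorial_pos
  rw [mul_pow]
  have e1 : 2 * Real.pi * ((N : ℝ) + 1 / 2) ^ 2 / (N.factorial : ℝ) *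
      (x ^ N * x ^ (1 / 2 : ℝ)) * Real.pi =
      (2 * Real.pi ^ 2 * x ^ (1 / 2 : ℝ) * (x ^ N / (N.factorial : ℝ))) *
        ((N : ℝ) + 1 / 2) ^ 2 := by ring
  have e2 : 2 * Real.pi ^ 2 * x ^ (1 / 2 : ℝ) * (4 ^ N * x ^ N / (N.factorial : ℝ)) =
      (2 * Real.pi ^ 2 * x ^ (1 / 2 : ℝ) * (x ^ N / (N.factorial : ℝ))) * 4 ^ N := by ring
  rw [e1, e2]
  have h4 : 0 ≤ x ^ (1 / 2 : ℝ) := Real.rpow_nonneg hx.le _
  apply mul_le_mul_of_nonneg_left h2 (by positivity)

lemma J_left_tendsto {a b c d : ℝ} (ha : 0 < a) (hb : 0 < b) (hc : a + b < c) (hc1 : c ≤ a + b + 1)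
    (hd : 0 < d) {x : ℝ} (hx : 0 < x) :
    Tendsto (fun N : ℕ => J a b c d (-((N : ℝ) + 1 / 2)) x) atTop (𝓝 0) := by
  have h1 : Tendsto (fun N : ℕ => 2 * Real.pi ^ 2 * x ^ (1 / 2 : ℝ) *
      ((4 * x) ^ N / (N.factorial : ℝ))) atTop (𝓝 (2 * Real.pi ^ 2 * x ^ (1 / 2 : ℝ) * 0)) :=
    (FloorSemiring.tendsto_pow_div_factorial_atTop (4 * x)).const_mul _
  rw [mul_zero] at h1
  apply squeeze_zero_norm' _ h1
  obtain ⟨k0, hk0⟩ := exists_nat_ge (1 / (a + b))
  have hab : 0 < a + b := by linarith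
  filter_upwards [eventually_ge_atTop (max 3 k0)] with N hN
  have h2 : 3 ≤ N := le_trans (le_max_left _ _) hN
  have h3 : k0 ≤ N := le_trans (le_max_right _ _) hN
  apply J_left_bound ha hb hc hc1 hd N h2 _ hx
  have h4 : 1 / (a + b) ≤ (N : ℝ) + 1 / 2 := by
    have : (k0 : ℝ) ≤ N := by exact_mod_cast h3
    linarith
  rwa [div_le_iff₀ hab, mul_comm] at h4

/-- the terms of the series at `-x` -/
def um (a b c d x : ℝ) (k : ℕ) : ℝ := (-1) ^ k * gam a b c d k * x ^ k / (k.factorial : ℝ)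

lemma gam_summable {a b c d : ℝ} (ha : 0 < a) (hb : 0 < b) (hc : a + b < c) (hd : 0 < d) (x : ℝ) :
    Summable (fun k : ℕ => gam a b c d k * |x| ^ k / (k.factorial : ℝ)) := by
  obtain ⟨K, hK, hKb⟩ := gam_bdd ha hb hc hd
  have h1 : Summable (fun k : ℕ => K * (|x| ^ k / (k.factorial : ℝ))) :=
    (Real.summable_pow_div_factorial |x|).mul_left K
  refine Summable.of_nonneg_of_le ?_ ?_ h1
  · intro k
    have := gam_pos ha hb (show 0 < c by linarith) hd k
    positivity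
  · intro k
    rw [mul_div_assoc]
    exact mul_le_mul_of_nonneg_right (hKb k) (by positivity)

lemma um_summable {a b c d : ℝ} (ha : 0 < a) (hb : 0 < b) (hc : a + b < c) (hd : 0 < d) (x : ℝ) :
    Summable (um a b c d x) := by
  apply Summable.of_norm
  refine (gam_summable ha hb hc hd x).congr ?_
  intro k
  unfold um
  rw [norm_div, norm_mul, norm_mul, norm_pow, norm_neg, norm_one, one_pow, one_mul, norm_pow,
    Real.norm_eq_abs, Real.norm_eq_abs, Real.norm_eq_abs,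
    abs_of_pos (gam_pos ha hb (show 0 < c by linarith) hd k), Nat.abs_cast]

lemma Phi_neg {a b c d : ℝ} (x : ℝ) :
    Phi a b c d (-(x : ℂ)) = ((∑' k, um a b c d x k : ℝ) : ℂ) := by
  unfold Phi
  rw [Complex.ofReal_tsum]
  congr 1
  ext k
  unfold um
  push_cast
  rw [neg_pow]
  ring

theorem J_eq_Phi {a b c d : ℝ} (ha : 0 < a) (hb : 0 < b) (hc : a + b < c) (hc1 : c ≤ a + b + 1)
    (hd : 0 < d) {σ : ℝ} (h0 : 0 < σ) (h1 : σ < 1) (hsa : a * σ < 1) (hsb : b * σ < 1)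
    (h : c < a + b + 1 ∨ (1 + c - a - b) * σ - d < -1) {x : ℝ} (hx : 0 < x) :
    J a b c d σ x = 2 * Real.pi * Phi a b c d (-(x : ℂ)) := by
  have hκ : 0 < 1 + c - a - b := by linarith
  have hmono : ∀ σ' : ℝ, σ' ≤ σ → (c < a + b + 1 ∨ (1 + c - a - b) * σ' - d < -1) := by
    intro σ' hs
    rcases h with h | h
    · exact Or.inl h
    · right
      have := mul_le_mul_of_nonneg_left hs hκ.le
      linarith
  have key : ∀ N : ℕ, J a b c d σ x - J a b c d (-((N : ℝ) + 1 / 2)) x =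
      2 * Real.pi * ((∑ k ∈ Finset.range (N + 1), um a b c d x k : ℝ) : ℂ) := by
    intro N
    induction N with
    | zero =>
      have := left_step ha hb hc hc1 0 (σ1 := -(((0 : ℕ) : ℝ) + 1 / 2)) (σ2 := σ) (by norm_num)
        (by norm_num) (by simpa using h0) (by simpa using h1) hsa hsb h hx
      rw [this]
      simp [um]
    | succ N ih =>
      have hN0 : (0 : ℝ) ≤ N := by positivity
      have hle : -((N : ℝ) + 1 / 2) ≤ 0 := by linarith
      have := left_step ha hb hc hc1 (N + 1) (σ1 := -(((N + 1 : ℕ) : ℝ) + 1 / 2))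
        (σ2 := -((N : ℝ) + 1 / 2)) (by push_cast; linarith) (by push_cast; linarith)
        (by push_cast; linarith) (by push_cast; linarith)
        (by have := mul_nonpos_of_nonneg_of_nonpos ha.le hle; linarith)
        (by have := mul_nonpos_of_nonneg_of_nonpos hb.le hle; linarith)
        (hmono _ (by linarith)) hx
      rw [Finset.sum_range_succ]
      have e : J a b c d σ x - J a b c d (-(((N + 1 : ℕ) : ℝ) + 1 / 2)) x =
          (J a b c d σ x - J a b c d (-((N : ℝ) + 1 / 2)) x) +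
          (J a b c d (-((N : ℝ) + 1 / 2)) x - J a b c d (-(((N + 1 : ℕ) : ℝ) + 1 / 2)) x) := by
        ring
      rw [e, ih, this]
      unfold um
      push_cast
      ring
  have l1 : Tendsto (fun N : ℕ => J a b c d σ x - J a b c d (-((N : ℝ) + 1 / 2)) x) atTop
      (𝓝 (J a b c d σ x - 0)) :=
    tendsto_const_nhds.sub (J_left_tendsto ha hb hc hc1 hd hx)
  have l2 : Tendsto (fun N : ℕ => 2 * Real.pi *
      ((∑ k ∈ Finset.range (N + 1), um a b c d x k : ℝ) : ℂ)) atTop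
      (𝓝 (2 * Real.pi * ((∑' k, um a b c d x k : ℝ) : ℂ))) := by
    apply Tendsto.const_mul
    apply (Complex.continuous_ofReal.tendsto _).comp
    exact (um_summable ha hb hc hd x).hasSum.tendsto_sum_nat.comp (tendsto_add_atTop_nat 1)
  rw [sub_zero] at l1
  rw [Phi_neg]
  refine tendsto_nhds_unique l1 (l2.congr fun N => (key N).symm)

end

end Pool.Agent.Lib.MP_8382de_an
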