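import Mathlib

/-!
Moving a vertical line of integration, with and without one (at most double) pole.
-/

namespace Pool.Agent.Lib.MP_8382de_an

open Filter Topology Set MeasureTheory

noncomputable section

/-- the closed vertical strip -/
def vs (σ1 σ2 : ℝ) : Set ℂ := {s | σ1 ≤ s.re ∧ s.re ≤ σ2}

def VB (g : ℂ → ℂ) (σ1 σ2 η C T : ℝ) : Prop :=
  ∀ σ t : ℝ, σ1 ≤ σ → σ ≤ σ2 → T ≤ |t| → ‖g (σ + t * Complex.I)‖ ≤ C * (1 + t ^ 2) ^ (-η)

lemma base_pos (t : ℝ) : 0 < 1 + t ^ 2 := by positivity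

lemma integrable_base {η : ℝ} (hη : 1 / 2 < η) : Integrable (fun t : ℝ => (1 + t ^ 2) ^ (-η)) := by
  have h := integrable_rpow_neg_one_add_norm_sq (E := ℝ) (μ := volume) (r := 2 * η)
    (by simp; linarith)
  refine h.congr (Eventually.of_forall fun t => ?_)
  simp only [Real.norm_eq_abs, sq_abs]
  congr 1; ring

/-- a bound on the whole strip -/
lemma VB.global {g : ℂ → ℂ} {σ1 σ2 η C T : ℝ} (hg : ContinuousOn g (vs σ1 σ2)) (hη : 1 / 2 < η)
    (hb : VB g σ1 σ2 η C T) : ∃ K : ℝ, 0 ≤ K ∧ ∀ σ t : ℝ, σ1 ≤ σ → σ ≤ σ2 →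
      ‖g (σ + t * Complex.I)‖ ≤ K * (1 + t ^ 2) ^ (-η) := by
  have hcomp : IsCompact (Icc σ1 σ2 ×ˢ Icc (-|T|) |T|) := isCompact_Icc.prod isCompact_Icc
  have hcont : ContinuousOn (fun q : ℝ × ℝ => g (q.1 + q.2 * Complex.I))
      (Icc σ1 σ2 ×ˢ Icc (-|T|) |T|) := by
    apply hg.comp (by fun_prop)
    rintro ⟨σ, t⟩ ⟨h1, _⟩
    simp only [vs, mem_ofPred_eq, Complex.add_re, Complex.ofReal_re, Complex.mul_re, Complex.I_re,
      mul_zero, Complex.ofReal_im, Complex.I_im, mul_one, sub_self, add_zero]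
    exact h1
  obtain ⟨B, hB⟩ := hcomp.exists_bound_of_continuousOn hcont
  refine ⟨|C| + |B| * (1 + T ^ 2) ^ η, by positivity, ?_⟩
  intro σ t h1 h2
  have hp : 0 < (1 + t ^ 2) ^ (-η) := Real.rpow_pos_of_pos (base_pos t) _
  rcases le_total T |t| with h | h
  · have := hb σ t h1 h2 h
    refine this.trans (mul_le_mul_of_nonneg_right ?_ hp.le)
    have : 0 ≤ |B| * (1 + T ^ 2) ^ η := by positivity
    have := le_abs_self C
    linarith
  · have ht : |t| ≤ |T| := h.trans (le_abs_self T)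
    have ht' := abs_le.mp ht
    have := hB (σ, t) ⟨⟨h1, h2⟩, ht'⟩
    simp only at this
    have h3 : ‖g (σ + t * Complex.I)‖ ≤ |B| := this.trans (le_abs_self B)
    have h4 : 1 ≤ (1 + T ^ 2) ^ η * (1 + t ^ 2) ^ (-η) := by
      rw [Real.rpow_neg (base_pos t).le, ← div_eq_mul_inv, one_le_div (Real.rpow_pos_of_pos (base_pos t) _)]
      apply Real.rpow_le_rpow (base_pos t).le _ (by linarith)
      have : t ^ 2 ≤ T ^ 2 := sq_le_sq.mpr ht
      linarith
    calc ‖g (σ + t * Complex.I)‖ ≤ |B| * 1 := by rw [mul_one]; exact h3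
      _ ≤ |B| * ((1 + T ^ 2) ^ η * (1 + t ^ 2) ^ (-η)) :=
          mul_le_mul_of_nonneg_left h4 (abs_nonneg B)
      _ = (|B| * (1 + T ^ 2) ^ η) * (1 + t ^ 2) ^ (-η) := by ring
      _ ≤ (|C| + |B| * (1 + T ^ 2) ^ η) * (1 + t ^ 2) ^ (-η) := by
          apply mul_le_mul_of_nonneg_right _ hp.le
          have := abs_nonneg C
          linarith

lemma continuous_line {g : ℂ → ℂ} {σ1 σ2 : ℝ} (hg : ContinuousOn g (vs σ1 σ2)) {σ : ℝ}
    (h1 : σ1 ≤ σ) (h2 : σ ≤ σ2) : Continuous (fun t : ℝ => g (σ + t * Complex.I)) := by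
  apply hg.comp_continuous (by fun_prop)
  intro t
  simp only [vs, mem_ofPred_eq, Complex.add_re, Complex.ofReal_re, Complex.mul_re, Complex.I_re,
      mul_zero, Complex.ofReal_im, Complex.I_im, mul_one, sub_self, add_zero]
  exact ⟨h1, h2⟩

lemma integrable_line {g : ℂ → ℂ} {σ η K : ℝ} (hc : Continuous (fun t : ℝ => g (σ + t * Complex.I)))
    (hη : 1 / 2 < η) (hb : ∀ t : ℝ, ‖g (σ + t * Complex.I)‖ ≤ K * (1 + t ^ 2) ^ (-η)) :
    Integrable (fun t : ℝ => g (σ + t * Complex.I)) :=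
  ((integrable_base hη).const_mul K).mono' hc.aestronglyMeasurable (Eventually.of_forall hb)

/-- no pole -/
theorem vshift {g : ℂ → ℂ} {σ1 σ2 η C T : ℝ} (h12 : σ1 ≤ σ2) (hg : DifferentiableOn ℂ g (vs σ1 σ2))
    (hη : 1 / 2 < η) (hb : VB g σ1 σ2 η C T) :
    ∫ t : ℝ, g (σ1 + t * Complex.I) = ∫ t : ℝ, g (σ2 + t * Complex.I) := by
  obtain ⟨K, hK, hKb⟩ := VB.global hg.continuousOn hη hb
  have i1 : Integrable (fun t : ℝ => g (σ1 + t * Complex.I)) :=
    integrable_line (continuous_line hg.continuousOn le_rfl h12) hη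
      (fun t => hKb σ1 t le_rfl h12)
  have i2 : Integrable (fun t : ℝ => g (σ2 + t * Complex.I)) :=
    integrable_line (continuous_line hg.continuousOn h12 le_rfl) hη
      (fun t => hKb σ2 t h12 le_rfl)
  have l1 := intervalIntegral_tendsto_integral i1 tendsto_neg_atTop_atBot tendsto_id
  have l2 := intervalIntegral_tendsto_integral i2 tendsto_neg_atTop_atBot tendsto_id
  have hrect : ∀ R : ℝ, 0 ≤ R → ‖(∫ y : ℝ in (-R)..R, g (σ2 + y * Complex.I)) -
      (∫ y : ℝ in (-R)..R, g (σ1 + y * Complex.I))‖ ≤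
        2 * (K * (1 + R ^ 2) ^ (-η) * (σ2 - σ1)) := by
    intro R hR
    have h := Complex.integral_boundary_rect_eq_zero_of_differentiableOn g
      (σ1 + ((-R : ℝ) : ℂ) * Complex.I) (σ2 + (R : ℂ) * Complex.I) (by
        apply hg.mono
        intro s hs
        rw [Complex.mem_reProdIm] at hs
        have h1 := hs.1
        simp only [Complex.add_re, Complex.ofReal_re, Complex.mul_re, Complex.I_re,
          mul_zero, Complex.ofReal_im, Complex.I_im, mul_one, sub_self, add_zero] at h1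
        rw [uIcc_of_le h12] at h1
        exact h1)
    simp only [Complex.add_re, Complex.ofReal_re, Complex.mul_re, Complex.I_re,
          mul_zero, Complex.ofReal_im, Complex.I_im, mul_one, sub_self, add_zero, Complex.add_im,
          Complex.mul_im, zero_add] at h
    have hor : ∀ u : ℝ, u ^ 2 = R ^ 2 → ‖∫ x : ℝ in σ1..σ2, g (x + u * Complex.I)‖ ≤
        K * (1 + R ^ 2) ^ (-η) * (σ2 - σ1) := by
      intro u hu
      have := intervalIntegral.norm_integral_le_of_norm_le_const (a := σ1) (b := σ2)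
        (f := fun x : ℝ => g (x + u * Complex.I)) (C := K * (1 + R ^ 2) ^ (-η)) (by
          intro x hx
          rw [uIoc_of_le h12] at hx
          have := hKb x u hx.1.le hx.2
          rwa [hu] at this)
      rwa [abs_of_nonneg (by linarith)] at this
    have h1 := hor (-R) (by ring)
    have h2 := hor R rfl
    have e : Complex.I • ((∫ y : ℝ in (-R)..R, g (σ2 + y * Complex.I)) -
      (∫ y : ℝ in (-R)..R, g (σ1 + y * Complex.I))) =
      (∫ x : ℝ in σ1..σ2, g (x + (R : ℝ) * Complex.I)) -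
        (∫ x : ℝ in σ1..σ2, g (x + ((-R : ℝ) : ℂ) * Complex.I)) := by
      rw [smul_sub]
      linear_combination h
    have e2 : ‖(∫ y : ℝ in (-R)..R, g (σ2 + y * Complex.I)) -
      (∫ y : ℝ in (-R)..R, g (σ1 + y * Complex.I))‖ =
      ‖(∫ x : ℝ in σ1..σ2, g (x + (R : ℝ) * Complex.I)) -
        (∫ x : ℝ in σ1..σ2, g (x + ((-R : ℝ) : ℂ) * Complex.I))‖ := by
      rw [← e, norm_smul, Complex.norm_I, one_mul]
    rw [e2]
    refine (norm_sub_le _ _).trans ?_
    linarith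
  have lz : Tendsto (fun R : ℝ => 2 * (K * (1 + R ^ 2) ^ (-η) * (σ2 - σ1))) atTop (𝓝 0) := by
    have h0 : Tendsto (fun R : ℝ => (1 + R ^ 2) ^ (-η)) atTop (𝓝 0) := by
      have h1 : Tendsto (fun R : ℝ => 1 + R ^ 2) atTop atTop :=
        tendsto_atTop_add_const_left _ _ (tendsto_pow_atTop (by norm_num))
      exact (tendsto_rpow_neg_atTop (by linarith)).comp h1
    have h2 : Tendsto (fun R : ℝ => 2 * (K * (1 + R ^ 2) ^ (-η) * (σ2 - σ1))) atTop
        (𝓝 (2 * (K * 0 * (σ2 - σ1)))) :=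
      ((h0.const_mul K).mul_const _).const_mul 2
    simpa using h2
  have lim : Tendsto (fun R : ℝ => (∫ y : ℝ in (-R)..R, g (σ2 + y * Complex.I)) -
      (∫ y : ℝ in (-R)..R, g (σ1 + y * Complex.I))) atTop (𝓝 0) := by
    apply squeeze_zero_norm' _ lz
    filter_upwards [eventually_ge_atTop (0:ℝ)] with R hR
    exact hrect R hR
  have lim2 := l2.sub l1
  simp only [id] at lim2
  have := tendsto_nhds_unique lim2 lim
  exact (sub_eq_zero.mp this).symm

/-- antiderivative for the double pole -/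
lemma int_double {u : ℝ} (hu : u ≠ 0) :
    Integrable (fun t : ℝ => 1 / ((u : ℂ) + t * Complex.I) ^ 2) ∧
    ∫ t : ℝ, 1 / ((u : ℂ) + t * Complex.I) ^ 2 = 0 := by
  have hne : ∀ t : ℝ, (u : ℂ) + t * Complex.I ≠ 0 := by
    intro t h
    have := congrArg Complex.re h
    simp at this
    exact hu this
  have hn : ∀ t : ℝ, ‖(u : ℂ) + t * Complex.I‖ ^ 2 = u ^ 2 + t ^ 2 := by
    intro t
    rw [Complex.norm_add_mul_I, Real.sq_sqrt (by positivity)]
  have hcont : Continuous (fun t : ℝ => 1 / ((u : ℂ) + t * Complex.I) ^ 2) := by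
    apply Continuous.div continuous_const (by fun_prop)
    intro t
    exact pow_ne_zero 2 (hne t)
  have hu2 : 0 < u ^ 2 := by positivity
  have hint : Integrable (fun t : ℝ => 1 / ((u : ℂ) + t * Complex.I) ^ 2) := by
    apply ((integrable_base (η := 1) (by norm_num)).const_mul (1 + 1 / u ^ 2)).mono'
      hcont.aestronglyMeasurable
    refine Eventually.of_forall fun t => ?_
    rw [norm_div, norm_one, norm_pow, hn, Real.rpow_neg_one, ← div_eq_mul_inv,
      div_le_div_iff₀ (by positivity) (base_pos t)]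
    have : (1 + 1 / u ^ 2) * (u ^ 2 + t ^ 2) = u ^ 2 + t ^ 2 + 1 + t ^ 2 / u ^ 2 := by
      field_simp
      ring
    rw [this]
    have : 0 ≤ t ^ 2 / u ^ 2 := by positivity
    linarith
  refine ⟨hint, ?_⟩
  have hd : ∀ t : ℝ, HasDerivAt (fun t : ℝ => Complex.I * ((u : ℂ) + t * Complex.I)⁻¹)
      (1 / ((u : ℂ) + t * Complex.I) ^ 2) t := by
    intro t
    have h1 : HasDerivAt (fun t : ℝ => (u : ℂ) + t * Complex.I) (1 * Complex.I) t :=
      (((hasDerivAt_id t).ofReal_comp).mul_const Complex.I).const_add _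
    have h2 := (h1.inv (hne t)).const_mul Complex.I
    refine h2.congr_deriv ?_
    have := hne t
    field_simp
    ring_nf
    rw [Complex.I_sq]
    ring
  have hlim : ∀ l : Filter ℝ, Tendsto (fun t : ℝ => |t|) l atTop →
      Tendsto (fun t : ℝ => Complex.I * ((u : ℂ) + t * Complex.I)⁻¹) l (𝓝 0) := by
    intro l hl
    apply squeeze_zero_norm' (a := fun t : ℝ => |t|⁻¹) _ (tendsto_inv_atTop_zero.comp hl)
    filter_upwards [hl.eventually (eventually_ge_atTop 1)] with t ht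
    rw [norm_mul, Complex.norm_I, one_mul, norm_inv]
    apply inv_anti₀ (by linarith)
    have := Complex.abs_im_le_norm ((u : ℂ) + t * Complex.I)
    simpa using this
  have := integral_of_hasDerivAt_of_tendsto hd hint (hlim _ tendsto_abs_atBot_atTop)
    (hlim _ tendsto_abs_atTop_atTop)
  simpa using this

lemma tendsto_log_diff {u v : ℝ} (hu : u ≠ 0) (hv : v ≠ 0) (l : Filter ℝ)
    (hl : Tendsto (fun t : ℝ => |t|) l atTop) :
    Tendsto (fun t : ℝ => Real.log (u ^ 2 + t ^ 2) - Real.log (v ^ 2 + t ^ 2)) l (𝓝 0) := by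
  have h1 : Tendsto (fun t : ℝ => (u ^ 2 - v ^ 2) / (v ^ 2 + t ^ 2)) l (𝓝 0) := by
    apply Tendsto.div_atTop tendsto_const_nhds
    apply tendsto_atTop_add_const_left
    have h2 : Tendsto (fun t : ℝ => |t| ^ 2) l atTop :=
      (tendsto_pow_atTop (by norm_num)).comp hl
    simpa [sq_abs] using h2
  have h2 : Tendsto (fun t : ℝ => Real.log (1 + (u ^ 2 - v ^ 2) / (v ^ 2 + t ^ 2))) l (𝓝 0) := by
    have h3 : Tendsto (fun t : ℝ => 1 + (u ^ 2 - v ^ 2) / (v ^ 2 + t ^ 2)) l (𝓝 (1 + 0)) :=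
      h1.const_add 1
    rw [add_zero] at h3
    have h4 := (Real.continuousAt_log (one_ne_zero)).tendsto.comp h3
    rw [Real.log_one] at h4
    exact h4
  refine h2.congr (fun t => ?_)
  have hu2 : 0 < u ^ 2 + t ^ 2 := by positivity
  have hv2 : 0 < v ^ 2 + t ^ 2 := by positivity
  rw [← Real.log_div hu2.ne' hv2.ne']
  congr 1
  field_simp
  ring

lemma int_diff {u v : ℝ} (hu : u ≠ 0) (hv : 0 < v) :
    Integrable (fun t : ℝ => 1 / ((u : ℂ) + t * Complex.I) - 1 / ((v : ℂ) + t * Complex.I)) ∧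
    ∫ t : ℝ, (1 / ((u : ℂ) + t * Complex.I) - 1 / ((v : ℂ) + t * Complex.I)) =
      (if 0 < u then 0 else -(2 * Real.pi : ℝ) : ℝ) := by
  have hne : ∀ u : ℝ, u ≠ 0 → ∀ t : ℝ, (u : ℂ) + t * Complex.I ≠ 0 := by
    intro u hu t h
    have := congrArg Complex.re h
    simp at this
    exact hu this
  have hn : ∀ u t : ℝ, ‖(u : ℂ) + t * Complex.I‖ ^ 2 = u ^ 2 + t ^ 2 := by
    intro u t
    rw [Complex.norm_add_mul_I, Real.sq_sqrt (by positivity)]
  have hv' : v ≠ 0 := hv.ne'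
  have heq : ∀ t : ℝ, 1 / ((u : ℂ) + t * Complex.I) - 1 / ((v : ℂ) + t * Complex.I) =
      ((v - u : ℝ) : ℂ) * (1 / (((u : ℂ) + t * Complex.I) * ((v : ℂ) + t * Complex.I))) := by
    intro t
    have h1 := hne u hu t
    have h2 := hne v hv' t
    field_simp
    push_cast
    ring
  have hcont : Continuous (fun t : ℝ => 1 / ((u : ℂ) + t * Complex.I) - 1 / ((v : ℂ) + t * Complex.I)) := by
    apply Continuous.sub
    · exact Continuous.div continuous_const (by fun_prop) (hne u hu)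
    · exact Continuous.div continuous_const (by fun_prop) (hne v hv')
  have hb1 : ∀ u : ℝ, u ≠ 0 → ∀ t : ℝ,
      (‖(u : ℂ) + t * Complex.I‖ ^ 2)⁻¹ ≤ (1 + 1 / u ^ 2) * (1 + t ^ 2)⁻¹ := by
    intro u hu t
    have hu2 : 0 < u ^ 2 := by positivity
    rw [hn, ← div_eq_mul_inv, inv_eq_one_div, div_le_div_iff₀ (by positivity) (base_pos t)]
    have : (1 + 1 / u ^ 2) * (u ^ 2 + t ^ 2) = u ^ 2 + t ^ 2 + 1 + t ^ 2 / u ^ 2 := by
      field_simp
      ring
    rw [this]
    have : 0 ≤ t ^ 2 / u ^ 2 := by positivity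
    linarith
  have hint : Integrable (fun t : ℝ => 1 / ((u : ℂ) + t * Complex.I) - 1 / ((v : ℂ) + t * Complex.I)) := by
    apply ((integrable_base (η := 1) (by norm_num)).const_mul
      (|v - u| * ((1 + 1 / u ^ 2) + (1 + 1 / v ^ 2)))).mono' hcont.aestronglyMeasurable
    refine Eventually.of_forall fun t => ?_
    rw [heq, norm_mul, Complex.norm_real, Real.norm_eq_abs, norm_div, norm_one, norm_mul,
      Real.rpow_neg_one, mul_assoc]
    apply mul_le_mul_of_nonneg_left _ (abs_nonneg _)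
    have h1 := hb1 u hu t
    have h2 := hb1 v hv' t
    set A := ‖(u : ℂ) + t * Complex.I‖
    set B := ‖(v : ℂ) + t * Complex.I‖
    have hA : 0 < A := norm_pos_iff.mpr (hne u hu t)
    have hB : 0 < B := norm_pos_iff.mpr (hne v hv' t)
    have h3 : 1 / (A * B) ≤ (A ^ 2)⁻¹ + (B ^ 2)⁻¹ := by
      have e1 : 1 / (A * B) = A⁻¹ * B⁻¹ := by field_simp
      have e2 : (A ^ 2)⁻¹ = A⁻¹ ^ 2 := by rw [inv_pow]
      have e3 : (B ^ 2)⁻¹ = B⁻¹ ^ 2 := by rw [inv_pow]
      rw [e1, e2, e3]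
      nlinarith [sq_nonneg (A⁻¹ - B⁻¹), inv_pos.mpr hA, inv_pos.mpr hB]
    calc 1 / (A * B) ≤ (A ^ 2)⁻¹ + (B ^ 2)⁻¹ := h3
      _ ≤ (1 + 1 / u ^ 2) * (1 + t ^ 2)⁻¹ + (1 + 1 / v ^ 2) * (1 + t ^ 2)⁻¹ := add_le_add h1 h2
      _ = _ := by ring
  refine ⟨hint, ?_⟩
  set A : ℝ → ℂ := fun t => ((Real.arctan (t / u) - Real.arctan (t / v) : ℝ) : ℂ) -
    Complex.I / 2 * ((Real.log (u ^ 2 + t ^ 2) - Real.log (v ^ 2 + t ^ 2) : ℝ) : ℂ) with hA
  have hd : ∀ t : ℝ, HasDerivAt A
      (1 / ((u : ℂ) + t * Complex.I) - 1 / ((v : ℂ) + t * Complex.I)) t := by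
    intro t
    have g1 : ∀ u : ℝ, u ≠ 0 → HasDerivAt (fun t : ℝ => Real.arctan (t / u))
        (1 / (1 + (t / u) ^ 2) * (1 / u)) t := by
      intro u hu
      exact ((hasDerivAt_id t).div_const u).arctan
    have g2 : ∀ u : ℝ, u ≠ 0 → HasDerivAt (fun t : ℝ => Real.log (u ^ 2 + t ^ 2))
        (2 * t / (u ^ 2 + t ^ 2)) t := by
      intro u hu
      have h1 : HasDerivAt (fun t : ℝ => u ^ 2 + t ^ 2) (2 * t) t := by
        have := (hasDerivAt_pow 2 t).const_add (u ^ 2)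
        simpa using this
      exact h1.log (by positivity)
    have k1 := ((g1 u hu).sub (g1 v hv')).ofReal_comp
    have k2 := (((g2 u hu).sub (g2 v hv')).ofReal_comp).const_mul (Complex.I / 2)
    have k3 := k1.sub k2
    refine k3.congr_deriv ?_
    have e : ∀ u : ℝ, u ≠ 0 → 1 / ((u : ℂ) + t * Complex.I) =
        ((1 / (1 + (t / u) ^ 2) * (1 / u) : ℝ) : ℂ) - Complex.I / 2 * ((2 * t / (u ^ 2 + t ^ 2) : ℝ) : ℂ) := by
      intro u hu
      have h1 := hne u hu t
      have h2 : u ^ 2 + t ^ 2 ≠ 0 := by positivity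
      have e1 : (1 / (1 + (t / u) ^ 2) * (1 / u) : ℝ) = u / (u ^ 2 + t ^ 2) := by
        field_simp
      rw [e1]
      have h3 : ((u : ℂ) ^ 2 + (t : ℂ) ^ 2) ≠ 0 := by exact_mod_cast h2
      push_cast
      rw [div_eq_iff h1]
      field_simp
      ring_nf
      rw [Complex.I_sq]
      ring
    rw [e u hu, e v hv']
    push_cast
    ring
  have arc_top : ∀ u : ℝ, 0 < u → Tendsto (fun t : ℝ => Real.arctan (t / u)) atTop
      (𝓝 (Real.pi / 2)) := by
    intro u hu
    have h1 : Tendsto (fun t : ℝ => t / u) atTop atTop := tendsto_id.atTop_div_const hu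
    exact (tendsto_nhds_of_tendsto_nhdsWithin Real.tendsto_arctan_atTop).comp h1
  have arc_bot : ∀ u : ℝ, 0 < u → Tendsto (fun t : ℝ => Real.arctan (t / u)) atBot
      (𝓝 (-(Real.pi / 2))) := by
    intro u hu
    have h1 : Tendsto (fun t : ℝ => t / u) atBot atBot := tendsto_id.atBot_div_const hu
    exact (tendsto_nhds_of_tendsto_nhdsWithin Real.tendsto_arctan_atBot).comp h1
  have arc_top' : ∀ u : ℝ, u < 0 → Tendsto (fun t : ℝ => Real.arctan (t / u)) atTop
      (𝓝 (-(Real.pi / 2))) := by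
    intro u hu
    have h1 := (arc_top (-u) (by linarith)).neg
    refine h1.congr (fun t => ?_)
    rw [div_neg, Real.arctan_neg, neg_neg]
  have arc_bot' : ∀ u : ℝ, u < 0 → Tendsto (fun t : ℝ => Real.arctan (t / u)) atBot
      (𝓝 (Real.pi / 2)) := by
    intro u hu
    have h1 := (arc_bot (-u) (by linarith)).neg
    rw [neg_neg] at h1
    refine h1.congr (fun t => ?_)
    rw [div_neg, Real.arctan_neg, neg_neg]
  have hlim : ∀ (l : Filter ℝ) (p q : ℝ), Tendsto (fun t : ℝ => |t|) l atTop →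
      Tendsto (fun t : ℝ => Real.arctan (t / u)) l (𝓝 p) →
      Tendsto (fun t : ℝ => Real.arctan (t / v)) l (𝓝 q) →
      Tendsto A l (𝓝 ((p - q : ℝ) : ℂ)) := by
    intro l p q hl h1 h2
    have h3 := (h1.sub h2).ofReal
    have h4 := ((tendsto_log_diff hu hv' l hl).ofReal).const_mul (Complex.I / 2)
    have h5 := h3.sub h4
    simpa [hA] using h5
  by_cases hup : 0 < u
  · rw [if_pos hup]
    have := integral_of_hasDerivAt_of_tendsto hd hint
      (hlim _ _ _ tendsto_abs_atBot_atTop (arc_bot u hup) (arc_bot v hv))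
      (hlim _ _ _ tendsto_abs_atTop_atTop (arc_top u hup) (arc_top v hv))
    rw [this]
    push_cast
    ring
  · rw [if_neg hup]
    have hun : u < 0 := lt_of_le_of_ne (not_lt.mp hup) hu
    have := integral_of_hasDerivAt_of_tendsto hd hint
      (hlim _ _ _ tendsto_abs_atBot_atTop (arc_bot' u hun) (arc_bot v hv))
      (hlim _ _ _ tendsto_abs_atTop_atTop (arc_top' u hun) (arc_top v hv))
    rw [this]
    push_cast
    ring

/-- crossing a pole of order at most two -/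
theorem residue_shift {F H : ℂ → ℂ} {U : Set ℂ} {σ1 σ2 p η C T : ℝ} (hU : IsOpen U)
    (hsub : vs σ1 σ2 ⊆ U) (hH : DifferentiableOn ℂ H U) (hp1 : σ1 < p) (hp2 : p < σ2)
    (hF : ∀ s ∈ vs σ1 σ2, s ≠ (p : ℂ) → F s = H s / (s - p) ^ 2)
    (hη : 1 / 2 < η) (hb : VB F σ1 σ2 η C T) :
    Integrable (fun t : ℝ => F (σ1 + t * Complex.I)) ∧
    Integrable (fun t : ℝ => F (σ2 + t * Complex.I)) ∧
    (∫ t : ℝ, F (σ2 + t * Complex.I)) - (∫ t : ℝ, F (σ1 + t * Complex.I)) =
      2 * Real.pi * deriv H p := by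
  have h12 : σ1 ≤ σ2 := (hp1.trans hp2).le
  have hpU : (p : ℂ) ∈ U := hsub (by simp [vs, hp1.le, hp2.le])
  have hUp : U ∈ 𝓝 (p : ℂ) := hU.mem_nhds hpU
  set H1 := dslope H p with hH1
  set H2 := dslope H1 p with hH2
  have hd1 : DifferentiableOn ℂ H1 U := (Complex.differentiableOn_dslope hUp).mpr hH
  have hd2 : DifferentiableOn ℂ H2 U := (Complex.differentiableOn_dslope hUp).mpr hd1
  set q : ℝ := σ1 - 1 with hq
  set g : ℂ → ℂ := fun s => H2 s + deriv H p / (s - q) with hg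
  have hgd : DifferentiableOn ℂ g (vs σ1 σ2) := by
    apply DifferentiableOn.add (hd2.mono hsub)
    apply DifferentiableOn.div (differentiableOn_const _) (by fun_prop)
    intro s hs h
    have : s = q := sub_eq_zero.mp h
    rw [this] at hs
    have := hs.1
    simp [hq] at this
    linarith
  have hFg : ∀ s ∈ vs σ1 σ2, s ≠ (p : ℂ) → F s = g s + H p / (s - p) ^ 2 +
      deriv H p * (1 / (s - p) - 1 / (s - q)) := by
    intro s hs hsp
    have hsp' : s - p ≠ 0 := sub_ne_zero.mpr hsp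
    have hsq : s - q ≠ 0 := by
      intro h
      have : s = q := sub_eq_zero.mp h
      rw [this] at hs
      have := hs.1
      simp [hq] at this
      linarith
    rw [hF s hs hsp]
    have e1 : H1 s = (H s - H p) / (s - p) := by
      rw [hH1, dslope_of_ne _ hsp, slope_def_field]
    have e2 : H1 p = deriv H p := by rw [hH1, dslope_same]
    have e3 : H2 s = (H1 s - H1 p) / (s - p) := by
      rw [hH2, dslope_of_ne _ hsp, slope_def_field]
    simp only [hg]
    rw [e3, e1, e2]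
    field_simp
    ring
  -- values on vertical lines
  have line_mem : ∀ σ t : ℝ, σ1 ≤ σ → σ ≤ σ2 → ((σ : ℂ) + t * Complex.I) ∈ vs σ1 σ2 := by
    intro σ t h1 h2
    simp [vs, h1, h2]
  have hge : ∀ σ t : ℝ, σ1 ≤ σ → σ ≤ σ2 → ((σ : ℂ) + t * Complex.I) ≠ p →
      F (σ + t * Complex.I) = g (σ + t * Complex.I) +
      H p * (1 / (((σ - p : ℝ) : ℂ) + t * Complex.I) ^ 2) +
      deriv H p * (1 / (((σ - p : ℝ) : ℂ) + t * Complex.I) - 1 / (((σ - q : ℝ) : ℂ) + t * Complex.I)) := by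
    intro σ t h1 h2 h3
    rw [hFg _ (line_mem σ t h1 h2) h3]
    have e1 : (σ : ℂ) + t * Complex.I - p = ((σ - p : ℝ) : ℂ) + t * Complex.I := by push_cast; ring
    have e2 : (σ : ℂ) + t * Complex.I - q = ((σ - q : ℝ) : ℂ) + t * Complex.I := by push_cast; ring
    rw [e1, e2, mul_one_div]
  -- bound for g
  have hgb : VB g σ1 σ2 (min η 1) (|C| + 2 * (‖H p‖ + ‖deriv H p‖ * (p - q))) (max T 1) := by
    intro σ t h1 h2 ht
    have ht1 : T ≤ |t| := (le_max_left _ _).trans ht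
    have ht2 : 1 ≤ |t| := (le_max_right _ _).trans ht
    have ht0 : t ≠ 0 := by
      intro h; rw [h, abs_zero] at ht2; linarith
    have hne : ((σ : ℂ) + t * Complex.I) ≠ p := by
      intro h
      have := congrArg Complex.im h
      simp at this
      exact ht0 this
    have e := hge σ t h1 h2 hne
    have nrm : ∀ u : ℝ, |t| ≤ ‖(u : ℂ) + t * Complex.I‖ := by
      intro u
      have := Complex.abs_im_le_norm ((u : ℂ) + t * Complex.I)
      simpa using this
    have n1 := nrm (σ - p)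
    have n2 := nrm (σ - q)
    set z1 : ℂ := ((σ - p : ℝ) : ℂ) + t * Complex.I with hz1
    set z2 : ℂ := ((σ - q : ℝ) : ℂ) + t * Complex.I with hz2
    have hz1n : z1 ≠ 0 := norm_pos_iff.mp (by linarith)
    have hz2n : z2 ≠ 0 := norm_pos_iff.mp (by linarith)
    have hdiff : z2 - z1 = ((p - q : ℝ) : ℂ) := by rw [hz1, hz2]; push_cast; ring
    have hpq : 0 < p - q := by rw [hq]; linarith
    have i1 : ‖(1 : ℂ) / z1 ^ 2‖ ≤ 1 / t ^ 2 := by
      rw [norm_div, norm_one, norm_pow]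
      apply one_div_le_one_div_of_le (by positivity)
      rw [← sq_abs]
      exact pow_le_pow_left₀ (abs_nonneg t) n1 2
    have i2 : ‖1 / z1 - 1 / z2‖ ≤ (p - q) / t ^ 2 := by
      have : 1 / z1 - 1 / z2 = ((p - q : ℝ) : ℂ) / (z1 * z2) := by
        rw [← hdiff]; field_simp
      rw [this, norm_div, Complex.norm_real, Real.norm_eq_abs, abs_of_pos hpq, norm_mul]
      apply div_le_div_of_nonneg_left hpq.le (by positivity)
      rw [← sq_abs, sq]
      exact mul_le_mul n1 n2 (abs_nonneg t) (by linarith)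
    have eg : g (σ + t * Complex.I) = F (σ + t * Complex.I) - H p * (1 / z1 ^ 2) -
        deriv H p * (1 / z1 - 1 / z2) := by rw [e]; ring
    have hinv : 1 / t ^ 2 ≤ 2 * (1 + t ^ 2) ^ (-(min η 1)) := by
      have h5 : 1 ≤ t ^ 2 := by rw [← sq_abs]; nlinarith
      have h6 : (1 + t ^ 2) ^ (-(1:ℝ)) ≤ (1 + t ^ 2) ^ (-(min η 1)) := by
        apply Real.rpow_le_rpow_of_exponent_le (by linarith)
        have := min_le_right η 1
        linarith
      have h7 : 1 / t ^ 2 ≤ 2 * (1 + t ^ 2) ^ (-(1:ℝ)) := by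
        rw [Real.rpow_neg_one, ← div_eq_mul_inv, div_le_div_iff₀ (by positivity) (by positivity)]
        linarith
      linarith
    have hFb := hb σ t h1 h2 ht1
    have hFb2 : ‖F (σ + t * Complex.I)‖ ≤ |C| * (1 + t ^ 2) ^ (-(min η 1)) := by
      refine hFb.trans ?_
      apply mul_le_mul (le_abs_self C) _ (by positivity) (abs_nonneg C)
      apply Real.rpow_le_rpow_of_exponent_le
      · have : 0 ≤ t ^ 2 := by positivity
        linarith
      · have := min_le_left η 1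
        linarith
    rw [eg]
    have t1 : ‖H p * (1 / z1 ^ 2)‖ ≤ ‖H p‖ * (2 * (1 + t ^ 2) ^ (-(min η 1))) := by
      rw [norm_mul]
      exact mul_le_mul_of_nonneg_left (i1.trans hinv) (norm_nonneg _)
    have t2 : ‖deriv H p * (1 / z1 - 1 / z2)‖ ≤
        ‖deriv H p‖ * ((p - q) * (2 * (1 + t ^ 2) ^ (-(min η 1)))) := by
      rw [norm_mul]
      apply mul_le_mul_of_nonneg_left _ (norm_nonneg _)
      refine i2.trans ?_
      have := mul_le_mul_of_nonneg_left hinv hpq.le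
      calc (p - q) / t ^ 2 = (p - q) * (1 / t ^ 2) := by ring
        _ ≤ _ := this
    calc ‖F (σ + t * Complex.I) - H p * (1 / z1 ^ 2) - deriv H p * (1 / z1 - 1 / z2)‖
        ≤ ‖F (σ + t * Complex.I)‖ + ‖H p * (1 / z1 ^ 2)‖ + ‖deriv H p * (1 / z1 - 1 / z2)‖ := by
          refine (norm_sub_le _ _).trans ?_
          have := norm_sub_le (F (σ + t * Complex.I)) (H p * (1 / z1 ^ 2))
          linarith
      _ ≤ |C| * (1 + t ^ 2) ^ (-(min η 1)) + ‖H p‖ * (2 * (1 + t ^ 2) ^ (-(min η 1))) +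
          ‖deriv H p‖ * ((p - q) * (2 * (1 + t ^ 2) ^ (-(min η 1)))) :=
          add_le_add (add_le_add hFb2 t1) t2
      _ = _ := by ring
  have hη' : 1 / 2 < min η 1 := lt_min hη (by norm_num)
  have hgs := vshift h12 hgd hη' hgb
  obtain ⟨K, hK, hKb⟩ := VB.global hgd.continuousOn hη' hgb
  have ig : ∀ σ : ℝ, σ1 ≤ σ → σ ≤ σ2 → Integrable (fun t : ℝ => g (σ + t * Complex.I)) :=
    fun σ h1 h2 => integrable_line (continuous_line hgd.continuousOn h1 h2) hη'
      (fun t => hKb σ t h1 h2)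
  have hu1 : σ1 - p ≠ 0 := by intro h; linarith
  have hu2 : σ2 - p ≠ 0 := by intro h; linarith
  have hv1 : 0 < σ1 - q := by rw [hq]; linarith
  have hv2 : 0 < σ2 - q := by rw [hq]; linarith
  have main : ∀ σ : ℝ, σ1 ≤ σ → σ ≤ σ2 → σ - p ≠ 0 → 0 < σ - q →
      Integrable (fun t : ℝ => F (σ + t * Complex.I)) ∧
      ∫ t : ℝ, F (σ + t * Complex.I) = (∫ t : ℝ, g (σ + t * Complex.I)) +
        deriv H p * ((if 0 < σ - p then 0 else -(2 * Real.pi) : ℝ) : ℂ) := by
    intro σ h1 h2 hu hv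
    obtain ⟨j1, j2⟩ := int_double hu
    obtain ⟨k1, k2⟩ := int_diff hu hv
    have hfe : (fun t : ℝ => F (σ + t * Complex.I)) = fun t : ℝ => g (σ + t * Complex.I) +
      H p * (1 / (((σ - p : ℝ) : ℂ) + t * Complex.I) ^ 2) +
      deriv H p * (1 / (((σ - p : ℝ) : ℂ) + t * Complex.I) - 1 / (((σ - q : ℝ) : ℂ) + t * Complex.I)) := by
      funext t
      apply hge σ t h1 h2
      intro h
      have := congrArg Complex.re h
      simp at this
      exact hu (by linarith)
    have i1 : Integrable (fun t : ℝ => g (σ + t * Complex.I) +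
        H p * (1 / (((σ - p : ℝ) : ℂ) + t * Complex.I) ^ 2)) :=
      (ig σ h1 h2).add (j1.const_mul (H p))
    have i2 := k1.const_mul (deriv H p)
    constructor
    · rw [hfe]
      exact i1.add i2
    · rw [hfe, integral_add i1 i2, integral_add (ig σ h1 h2) (j1.const_mul (H p)),
        integral_const_mul, integral_const_mul, j2, k2]
      simp
  obtain ⟨a1, a2⟩ := main σ1 le_rfl h12 hu1 hv1
  obtain ⟨b1, b2⟩ := main σ2 h12 le_rfl hu2 hv2
  refine ⟨a1, b1, ?_⟩
  rw [a2, b2, hgs, if_pos (by linarith : 0 < σ2 - p), if_neg (by linarith : ¬ 0 < σ1 - p)]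
  push_cast
  ring

end

end Pool.Agent.Lib.MP_8382de_an
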