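import Pool.Agent.Lib.MP_8382de_an.MBound
import Pool.Agent.Lib.MP_8382de_an.Shift

/-!
The Mellin-Barnes representation of Phi on the negative axis.
-/

namespace Pool.Agent.Lib.MP_8382de_an

open Filter Topology Set MeasureTheory

noncomputable section

/-- the numbers `gamma_k` -/
def gam (a b c d : ℝ) (k : ℕ) : ℝ :=
  Real.Gamma (a * k + 1) * Real.Gamma (b * k + 1) / Real.Gamma (c * k + d + 1)

def Phi (a b c d : ℝ) (x : ℂ) : ℂ := ∑' k : ℕ, ((gam a b c d k : ℝ) : ℂ) * x ^ k / (k.factorial : ℂ)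

lemma Gamma_mul_le {x y : ℝ} (hx : 1 ≤ x) (hy : 1 ≤ y) :
    Real.Gamma x * Real.Gamma y ≤ Real.Gamma (x + y - 1) := by
  have hx0 : 0 < x := by linarith
  have hy0 : 0 < y := by linarith
  have hz0 : 0 < x + y - 1 := by linarith
  rcases eq_or_lt_of_le hx with rfl | hx1
  · rw [Real.Gamma_one, one_mul]; apply le_of_eq; congr 1; ring
  rcases eq_or_lt_of_le hy with rfl | hy1
  · rw [Real.Gamma_one, mul_one]; apply le_of_eq; congr 1; ring
  set D := x + y - 2 with hD
  have hD0 : 0 < D := by rw [hD]; linarith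
  have hc := Real.convexOn_log_Gamma
  have key : ∀ u : ℝ, 1 ≤ u → u ≤ x + y - 1 →
      Real.log (Real.Gamma u) ≤ (u - 1) / D * Real.log (Real.Gamma (x + y - 1)) := by
    intro u h1 h2
    have w1 : (0:ℝ) ≤ 1 - (u - 1) / D := by
      rw [sub_nonneg, div_le_one hD0]; rw [hD]; linarith
    have w2 : (0:ℝ) ≤ (u - 1) / D := div_nonneg (by linarith) hD0.le
    have := hc.2 (mem_Ioi.mpr (zero_lt_one)) (mem_Ioi.mpr hz0) w1 w2 (by ring)
    simp only [smul_eq_mul, Function.comp_apply, Real.Gamma_one, Real.log_one, mul_zero,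
      zero_add] at this
    have e : (1 - (u - 1) / D) * 1 + (u - 1) / D * (x + y - 1) = u := by
      field_simp
      rw [hD]; ring
    rwa [e] at this
  have k1 := key x hx (by linarith)
  have k2 := key y hy (by linarith)
  have px := Real.Gamma_pos_of_pos hx0
  have py := Real.Gamma_pos_of_pos hy0
  have pz := Real.Gamma_pos_of_pos hz0
  rw [← Real.log_le_log_iff (mul_pos px py) pz, Real.log_mul px.ne' py.ne']
  have e : (x - 1) / D * Real.log (Real.Gamma (x + y - 1)) +
      (y - 1) / D * Real.log (Real.Gamma (x + y - 1)) = Real.log (Real.Gamma (x + y - 1)) := by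
    rw [← add_mul, ← add_div]
    have : x - 1 + (y - 1) = D := by rw [hD]; ring
    rw [this, div_self hD0.ne', one_mul]
  linarith

lemma ratio_le {a b c d X : ℝ} (ha : 0 < a) (hb : 0 < b) (hc : a + b < c) (hd : 0 < d)
    (hX : 1 ≤ (a + b) * X) :
    Real.Gamma (a * X + 1) * Real.Gamma (b * X + 1) / Real.Gamma (c * X + d + 1) ≤ 1 := by
  have hX0 : 0 < X := by
    by_contra h
    have : (a + b) * X ≤ 0 := mul_nonpos_of_nonneg_of_nonpos (by linarith) (not_lt.mp h)
    linarith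
  have h1 := Gamma_mul_le (x := a * X + 1) (y := b * X + 1) (by nlinarith) (by nlinarith)
  have h2 : Real.Gamma (a * X + 1 + (b * X + 1) - 1) ≤ Real.Gamma (c * X + d + 1) := by
    apply Real.Gamma_strictMonoOn_Ici.monotoneOn
    · simp only [mem_Ici]; nlinarith
    · simp only [mem_Ici]; nlinarith
    · nlinarith
  have hpos : 0 < Real.Gamma (c * X + d + 1) := Real.Gamma_pos_of_pos (by nlinarith)
  rw [div_le_one hpos]
  linarith

lemma gam_pos {a b c d : ℝ} (ha : 0 < a) (hb : 0 < b) (hc : 0 < c) (hd : 0 < d) (k : ℕ) :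
    0 < gam a b c d k := by
  unfold gam
  have := Real.Gamma_pos_of_pos (show 0 < a * k + 1 by positivity)
  have := Real.Gamma_pos_of_pos (show 0 < b * k + 1 by positivity)
  have := Real.Gamma_pos_of_pos (show 0 < c * k + d + 1 by positivity)
  positivity

lemma gam_bdd {a b c d : ℝ} (ha : 0 < a) (hb : 0 < b) (hc : a + b < c) (hd : 0 < d) :
    ∃ K : ℝ, 0 < K ∧ ∀ k : ℕ, gam a b c d k ≤ K := by
  obtain ⟨k0, hk0⟩ := exists_nat_ge (1 / (a + b))
  have hab : 0 < a + b := by linarith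
  refine ⟨1 + ∑ k ∈ Finset.range k0, gam a b c d k, ?_, ?_⟩
  · have : 0 ≤ ∑ k ∈ Finset.range k0, gam a b c d k :=
      Finset.sum_nonneg fun k _ => (gam_pos ha hb (by linarith) hd k).le
    linarith
  · intro k
    rcases lt_or_ge k k0 with h | h
    · have := Finset.single_le_sum (f := gam a b c d)
        (fun k _ => (gam_pos ha hb (by linarith) hd k).le) (Finset.mem_range.mpr h)
      linarith
    · have h1 : 1 ≤ (a + b) * (k : ℝ) := by
        have : 1 / (a + b) ≤ (k : ℝ) := hk0.trans (by exact_mod_cast h)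
        rwa [div_le_iff₀ hab, mul_comm] at this
      have h2 := ratio_le ha hb hc hd h1
      have : 0 ≤ ∑ k ∈ Finset.range k0, gam a b c d k :=
        Finset.sum_nonneg fun k _ => (gam_pos ha hb (by linarith) hd k).le
      unfold gam at this ⊢
      linarith

/-- the integrand -/
def Fx (a b c d x : ℝ) (s : ℂ) : ℂ := Mf a b c d s * (x : ℂ) ^ (-s)

def J (a b c d σ x : ℝ) : ℂ := ∫ t : ℝ, Fx a b c d x (σ + t * Complex.I)

lemma norm_xpow {x : ℝ} (hx : 0 < x) (σ t : ℝ) :
    ‖(x : ℂ) ^ (-((σ : ℂ) + t * Complex.I))‖ = x ^ (-σ) := by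
  rw [Complex.norm_cpow_eq_rpow_re_of_pos hx]
  simp

theorem Fx_decay {a b c d : ℝ} (ha : 0 < a) (hb : 0 < b) (hc : a + b < c) (hc1 : c ≤ a + b + 1)
    (σ1 σ2 : ℝ) (h : c < a + b + 1 ∨ (1 + c - a - b) * σ2 - d < -1) {x : ℝ} (hx : 0 < x) :
    ∃ η C T : ℝ, 1 / 2 < η ∧ VB (Fx a b c d x) σ1 σ2 η C T := by
  obtain ⟨η, C, T, hη, hC, hT, hM⟩ := M_decay ha hb hc hc1 σ1 σ2 h
  refine ⟨η, C * (x ^ (-σ2) + x ^ (-σ1)), T, hη, ?_⟩
  intro σ t h1 h2 ht
  unfold Fx
  rw [norm_mul, norm_xpow hx]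
  have m1 := hM σ t h1 h2 ht
  have m2 := rpow_bound hx (-σ2) (-σ1) (-σ) (by linarith) (by linarith)
  have := mul_le_mul m1 m2 (by positivity) (by positivity)
  refine this.trans (le_of_eq ?_)
  ring

lemma Gamma_prod (N : ℕ) : ∀ s : ℂ, (∀ j : ℕ, j ≤ N → s + j ≠ 0) →
    Complex.Gamma (s + N + 1) = (∏ j ∈ Finset.range (N + 1), (s + j)) * Complex.Gamma s := by
  induction N with
  | zero =>
    intro s hs
    have h0 := hs 0 le_rfl
    simp only [Nat.cast_zero, add_zero] at h0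
    simp [Complex.Gamma_add_one s h0]
  | succ N ih =>
    intro s hs
    have h1 := hs (N + 1) le_rfl
    have e : s + ((N + 1 : ℕ) : ℂ) + 1 = (s + N + 1) + 1 := by push_cast; ring
    have h2 : s + N + 1 ≠ 0 := by
      intro h; apply h1; push_cast; linear_combination h
    rw [e, Complex.Gamma_add_one _ h2, ih s (fun j hj => hs j (by omega)),
      Finset.prod_range_succ _ (N + 1)]
    push_cast
    ring

lemma prod_neg (N : ℕ) : ∏ j ∈ Finset.range N, (-(N : ℂ) + j) = (-1) ^ N * (N.factorial : ℂ) := by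
  have h1 : ∏ j ∈ Finset.range N, (-(N : ℂ) + j) = ∏ j ∈ Finset.range N, ((-1) * ((N : ℂ) - j)) := by
    apply Finset.prod_congr rfl
    intro j _
    ring
  rw [h1, Finset.prod_mul_distrib, Finset.prod_const, Finset.card_range]
  congr 1
  rw [← Finset.prod_range_reflect]
  rw [← Finset.prod_range_add_one_eq_factorial]
  push_cast
  apply Finset.prod_congr rfl
  intro j hj
  have hj' := Finset.mem_range.mp hj
  have : ((N - 1 - j : ℕ) : ℂ) = (N : ℂ) - 1 - j := by
    rw [Nat.cast_sub (by omega), Nat.cast_sub (by omega)]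
    simp
  rw [this]; ring

theorem left_step {a b c d : ℝ} (ha : 0 < a) (hb : 0 < b) (hc : a + b < c) (hc1 : c ≤ a + b + 1)
    (N : ℕ) {σ1 σ2 : ℝ} (h1 : -(N : ℝ) - 1 < σ1) (h1' : σ1 < -(N : ℝ)) (h2 : -(N : ℝ) < σ2)
    (h2' : σ2 < -(N : ℝ) + 1) (hsa : a * σ2 < 1) (hsb : b * σ2 < 1)
    (h : c < a + b + 1 ∨ (1 + c - a - b) * σ2 - d < -1) {x : ℝ} (hx : 0 < x) :
    J a b c d σ2 x - J a b c d σ1 x =
      2 * Real.pi * (((-1) ^ N * gam a b c d N * x ^ N / (N.factorial : ℝ) : ℝ) : ℂ) := by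
  obtain ⟨η, C, T, hη, hV⟩ := Fx_decay ha hb hc hc1 σ1 σ2 h hx
  set U : Set ℂ := {s : ℂ | -(N : ℝ) - 1 < s.re ∧ s.re < -(N : ℝ) + 1 ∧ a * s.re < 1 ∧ b * s.re < 1}
    with hUdef
  have hU : IsOpen U := by
    apply IsOpen.and (isOpen_lt (by fun_prop) (by fun_prop))
    apply IsOpen.and (isOpen_lt (by fun_prop) (by fun_prop))
    exact IsOpen.and (isOpen_lt (by fun_prop) (by fun_prop)) (isOpen_lt (by fun_prop) (by fun_prop))
  have hsub : vs σ1 σ2 ⊆ U := by
    intro s hs
    obtain ⟨s1, s2⟩ := hs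
    refine ⟨by linarith, by linarith, ?_, ?_⟩
    · have := mul_le_mul_of_nonneg_left s2 ha.le
      linarith
    · have := mul_le_mul_of_nonneg_left s2 hb.le
      linarith
  set K : ℂ → ℂ := fun s => Complex.Gamma (1 - a * s) * Complex.Gamma (1 - b * s) *
    (Complex.Gamma (d + 1 - c * s))⁻¹ * (x : ℂ) ^ (-s) with hK
  set L : ℂ → ℂ := fun s => Complex.Gamma (s + N + 1) / (∏ j ∈ Finset.range N, (s + j)) * K s with hL
  set H : ℂ → ℂ := fun s => (s + N) * L s with hH
  have hpole : ∀ s ∈ U, ∀ j : ℕ, j < N → s + j ≠ 0 := by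
    intro s hs j hj h0
    have := congrArg Complex.re h0
    simp at this
    have h3 : (j : ℝ) + 1 ≤ N := by exact_mod_cast hj
    have h4 := hs.2.1
    linarith
  have gd : ∀ z : ℂ, 0 < z.re → DifferentiableAt ℂ Complex.Gamma z := by
    intro z hz
    apply Complex.differentiableAt_Gamma
    intro m h0
    rw [h0] at hz
    simp at hz
    have : (0:ℝ) ≤ m := by positivity
    linarith
  have hKd : ∀ s ∈ U, DifferentiableAt ℂ K s := by
    intro s hs
    have g1 : DifferentiableAt ℂ (fun s : ℂ => Complex.Gamma (1 - a * s)) s := by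
      apply DifferentiableAt.comp s (gd _ _) (by fun_prop)
      simp
      exact hs.2.2.1
    have g2 : DifferentiableAt ℂ (fun s : ℂ => Complex.Gamma (1 - b * s)) s := by
      apply DifferentiableAt.comp s (gd _ _) (by fun_prop)
      simp
      exact hs.2.2.2
    have g3 : DifferentiableAt ℂ (fun s : ℂ => (Complex.Gamma (d + 1 - c * s))⁻¹) s := by
      apply DifferentiableAt.comp s (g := fun z => (Complex.Gamma z)⁻¹)
        (Complex.differentiable_one_div_Gamma _) (by fun_prop)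
    have g4 : DifferentiableAt ℂ (fun s : ℂ => (x : ℂ) ^ (-s)) s := by
      apply DifferentiableAt.const_cpow (by fun_prop)
      left; exact_mod_cast hx.ne'
    exact ((g1.mul g2).mul g3).mul g4
  have hLd : ∀ s ∈ U, DifferentiableAt ℂ L s := by
    intro s hs
    have g1 : DifferentiableAt ℂ (fun s : ℂ => Complex.Gamma (s + N + 1)) s := by
      apply DifferentiableAt.comp s (gd _ _) (by fun_prop)
      simp
      linarith [hs.1]
    have g2 : DifferentiableAt ℂ (fun s : ℂ => ∏ j ∈ Finset.range N, (s + j)) s := by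
      apply DifferentiableAt.fun_finsetProd
      intro j _
      fun_prop
    have g3 : (∏ j ∈ Finset.range N, (s + j)) ≠ 0 := by
      rw [Finset.prod_ne_zero_iff]
      intro j hj
      exact hpole s hs j (Finset.mem_range.mp hj)
    exact (g1.div g2 g3).mul (hKd s hs)
  have hHd : DifferentiableOn ℂ H U := by
    intro s hs
    apply DifferentiableAt.differentiableWithinAt
    have g1 : DifferentiableAt ℂ (fun s : ℂ => s + N) s := by fun_prop
    exact g1.mul (hLd s hs)
  have hF : ∀ s ∈ vs σ1 σ2, s ≠ ((-(N : ℝ) : ℝ) : ℂ) →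
      Fx a b c d x s = H s / (s - ((-(N : ℝ) : ℝ) : ℂ)) ^ 2 := by
    intro s hs hne
    have hsU := hsub hs
    have hsN : s + N ≠ 0 := by
      intro h0; apply hne; push_cast; linear_combination h0
    have hall : ∀ j : ℕ, j ≤ N → s + j ≠ 0 := by
      intro j hj
      rcases hj.lt_or_eq with hj | rfl
      · exact hpole s hsU j hj
      · exact hsN
    have hG := Gamma_prod N s hall
    rw [Finset.prod_range_succ] at hG
    have hP : (∏ j ∈ Finset.range N, (s + j)) ≠ 0 := by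
      rw [Finset.prod_ne_zero_iff]
      intro j hj
      exact hpole s hsU j (Finset.mem_range.mp hj)
    have e : s - ((-(N : ℝ) : ℝ) : ℂ) = s + N := by push_cast; ring
    rw [e]
    simp only [hH, hL, hK, Fx, Mf]
    rw [hG]
    field_simp
  have hres := residue_shift hU hsub hHd h1' h2 hF hη hV
  have hpU : ((-(N : ℝ) : ℝ) : ℂ) ∈ U := hsub (by
    constructor
    · simp; linarith
    · simp; linarith)
  have hderiv : deriv H ((-(N : ℝ) : ℝ) : ℂ) = L ((-(N : ℝ) : ℝ) : ℂ) := by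
    have g1 : HasDerivAt (fun s : ℂ => s + N) 1 ((-(N : ℝ) : ℝ) : ℂ) :=
      (hasDerivAt_id _).add_const _
    have g2 := g1.mul (hLd _ hpU).hasDerivAt
    have g3 := g2.deriv
    have e : (((-(N : ℝ) : ℝ) : ℂ)) + N = 0 := by push_cast; ring
    rw [e, zero_mul, add_zero, one_mul] at g3
    exact g3
  have hLval : L ((-(N : ℝ) : ℝ) : ℂ) =
      (((-1) ^ N * gam a b c d N * x ^ N / (N.factorial : ℝ) : ℝ) : ℂ) := by
    simp only [hL, hK]
    have e1 : ((-(N : ℝ) : ℝ) : ℂ) + N + 1 = 1 := by push_cast; ring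
    have e2 : ((-(N : ℝ) : ℝ) : ℂ) = -(N : ℂ) := by push_cast; ring
    rw [e1, e2, Complex.Gamma_one, prod_neg]
    have e3 : (1 : ℂ) - a * -(N : ℂ) = ((a * N + 1 : ℝ) : ℂ) := by push_cast; ring
    have e4 : (1 : ℂ) - b * -(N : ℂ) = ((b * N + 1 : ℝ) : ℂ) := by push_cast; ring
    have e5 : (d : ℂ) + 1 - c * -(N : ℂ) = ((c * N + d + 1 : ℝ) : ℂ) := by push_cast; ring
    rw [e3, e4, e5, Complex.Gamma_ofReal, Complex.Gamma_ofReal, Complex.Gamma_ofReal, neg_neg,
      Complex.cpow_natCast]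
    unfold gam
    push_cast
    have h5 : ((-1 : ℂ) ^ N) ≠ 0 := pow_ne_zero _ (by norm_num)
    have h6 : (N.factorial : ℂ) ≠ 0 := by exact_mod_cast N.factorial_ne_zero
    have h7 : ((-1 : ℂ) ^ N) * ((-1 : ℂ) ^ N) = 1 := by
      rw [← mul_pow]; simp
    have h8 : (1 : ℂ) / ((-1) ^ N * (N.factorial : ℂ)) = (-1) ^ N / (N.factorial : ℂ) := by
      rw [div_eq_div_iff (mul_ne_zero h5 h6) h6]
      linear_combination (-(N.factorial : ℂ)) * h7
    rw [h8]
    ring
  have h3 := hres.2.2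
  rw [hderiv, hLval] at h3
  exact h3

end

end Pool.Agent.Lib.MP_8382de_an
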