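import Pool.Agent.Lib.MP_8382de_an.Strip

/-!
The Mellin-Barnes integrand and its decay on vertical lines.
-/

namespace Pool.Agent.Lib.MP_8382de_an

open Filter Topology Set

noncomputable section

def Mf (a b c d : ℝ) (s : ℂ) : ℂ :=
  Complex.Gamma s * Complex.Gamma (1 - a * s) * Complex.Gamma (1 - b * s) *
    (Complex.Gamma (d + 1 - c * s))⁻¹

lemma rpow_bound {a : ℝ} (ha : 0 < a) (e0 e1 : ℝ) : ∀ e : ℝ, e0 ≤ e → e ≤ e1 →
    a ^ e ≤ a ^ e0 + a ^ e1 := by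
  intro e h0 h1
  have p0 : 0 < a ^ e0 := Real.rpow_pos_of_pos ha _
  have p1 : 0 < a ^ e1 := Real.rpow_pos_of_pos ha _
  rcases le_total 1 a with h | h
  · have := Real.rpow_le_rpow_of_exponent_le h h1
    linarith
  · have := Real.rpow_le_rpow_of_exponent_ge ha h h0
    linarith

lemma sz_scale {a : ℝ} (ha : 0 < a) (x t : ℝ) :
    sz x (-(a * t)) = a ^ (x - 1 / 2) * (|t| ^ (x - 1 / 2) * Real.exp (-(Real.pi * (a * |t|)) / 2)) := by
  unfold sz
  rw [abs_neg, abs_mul, abs_of_pos ha, Real.mul_rpow ha.le (abs_nonneg t)]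
  ring

/-- numerator factor -/
lemma num_bound {a : ℝ} (ha : 0 < a) (σ1 σ2 : ℝ) : ∃ C : ℝ, 0 < C ∧ ∀ σ t : ℝ, σ1 ≤ σ → σ ≤ σ2 →
    1 ≤ a * |t| → ‖Complex.Gamma (1 - a * (σ + t * Complex.I))‖ ≤
      C * (|t| ^ (1 / 2 - a * σ) * Real.exp (-(Real.pi * (a * |t|)) / 2)) := by
  obtain ⟨C, hC, hb⟩ := strip (1 - a * σ2) (1 - a * σ1)
  refine ⟨C * (a ^ (1 / 2 - a * σ2) + a ^ (1 / 2 - a * σ1)), by positivity, ?_⟩
  intro σ t h1 h2 ht
  have e : (1 : ℂ) - a * (σ + t * Complex.I) = ((1 - a * σ : ℝ) : ℂ) + ((-(a * t) : ℝ) : ℂ) * Complex.I := by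
    push_cast; ring
  have hy : 1 ≤ |-(a * t)| := by rw [abs_neg, abs_mul, abs_of_pos ha]; exact ht
  have hb1 := (hb (1 - a * σ) (-(a * t)) (by nlinarith) (by nlinarith) hy).1
  rw [e]
  refine hb1.trans ?_
  rw [sz_scale ha]
  have e2 : 1 - a * σ - 1 / 2 = 1 / 2 - a * σ := by ring
  rw [e2]
  have h3 := rpow_bound ha (1 / 2 - a * σ2) (1 / 2 - a * σ1) (1 / 2 - a * σ) (by nlinarith) (by nlinarith)
  have hp : 0 ≤ |t| ^ (1 / 2 - a * σ) * Real.exp (-(Real.pi * (a * |t|)) / 2) := by positivity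
  have := mul_le_mul_of_nonneg_right h3 hp
  have h4 := mul_le_mul_of_nonneg_left this hC.le
  linarith

lemma num0_bound (σ1 σ2 : ℝ) : ∃ C : ℝ, 0 < C ∧ ∀ σ t : ℝ, σ1 ≤ σ → σ ≤ σ2 →
    1 ≤ |t| → ‖Complex.Gamma (σ + t * Complex.I)‖ ≤
      C * (|t| ^ (σ - 1 / 2) * Real.exp (-(Real.pi * |t|) / 2)) := by
  obtain ⟨C, hC, hb⟩ := strip σ1 σ2
  exact ⟨C, hC, fun σ t h1 h2 ht => (hb σ t h1 h2 ht).1⟩

/-- denominator factor -/
lemma den_bound {c : ℝ} (hc : 0 < c) (d σ1 σ2 : ℝ) : ∃ C : ℝ, 0 < C ∧ ∀ σ t : ℝ, σ1 ≤ σ → σ ≤ σ2 →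
    1 ≤ c * |t| → ‖(Complex.Gamma (d + 1 - c * (σ + t * Complex.I)))⁻¹‖ ≤
      C * (|t| ^ (c * σ - d - 1 / 2) * Real.exp ((Real.pi * (c * |t|)) / 2)) := by
  obtain ⟨C, hC, hb⟩ := strip (d + 1 - c * σ2) (d + 1 - c * σ1)
  refine ⟨C * (c ^ (c * σ1 - d - 1 / 2) + c ^ (c * σ2 - d - 1 / 2)), by positivity, ?_⟩
  intro σ t h1 h2 ht
  have e : (d : ℂ) + 1 - c * (σ + t * Complex.I) =
      ((d + 1 - c * σ : ℝ) : ℂ) + ((-(c * t) : ℝ) : ℂ) * Complex.I := by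
    push_cast; ring
  have hy : 1 ≤ |-(c * t)| := by rw [abs_neg, abs_mul, abs_of_pos hc]; exact ht
  have hb1 := (hb (d + 1 - c * σ) (-(c * t)) (by nlinarith) (by nlinarith) hy).2
  rw [e, norm_inv]
  set G := ‖Complex.Gamma (((d + 1 - c * σ : ℝ) : ℂ) + ((-(c * t) : ℝ) : ℂ) * Complex.I)‖ with hG
  have hsz := sz_pos (x := d + 1 - c * σ) hy
  have ht0 : 0 < |t| := by
    by_contra h
    have : |t| = 0 := le_antisymm (not_lt.mp h) (abs_nonneg _)
    rw [this] at ht; linarith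
  have hG0 : 0 < G := by
    by_contra h
    have h0 : G = 0 := le_antisymm (not_lt.mp h) (norm_nonneg _)
    rw [h0, mul_zero] at hb1
    linarith
  have h5 : G⁻¹ ≤ C * (sz (d + 1 - c * σ) (-(c * t)))⁻¹ := by
    rw [← div_eq_mul_inv, inv_eq_one_div, div_le_div_iff₀ hG0 hsz]
    linarith
  refine h5.trans ?_
  rw [sz_scale hc]
  have e3 : (c ^ (d + 1 - c * σ - 1 / 2) * (|t| ^ (d + 1 - c * σ - 1 / 2) *
      Real.exp (-(Real.pi * (c * |t|)) / 2)))⁻¹ =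
      c ^ (c * σ - d - 1 / 2) * (|t| ^ (c * σ - d - 1 / 2) * Real.exp (Real.pi * (c * |t|) / 2)) := by
    have e4 : c * σ - d - 1 / 2 = -(d + 1 - c * σ - 1 / 2) := by ring
    have e5 : Real.pi * (c * |t|) / 2 = -(-(Real.pi * (c * |t|)) / 2) := by ring
    rw [e4, e5, Real.rpow_neg hc.le, Real.rpow_neg ht0.le, Real.exp_neg, mul_inv, mul_inv]
  rw [e3]
  have h3 := rpow_bound hc (c * σ1 - d - 1 / 2) (c * σ2 - d - 1 / 2) (c * σ - d - 1 / 2)
    (by nlinarith) (by nlinarith)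
  have hp : 0 ≤ |t| ^ (c * σ - d - 1 / 2) * Real.exp (Real.pi * (c * |t|) / 2) := by positivity
  have := mul_le_mul_of_nonneg_right h3 hp
  have h4 := mul_le_mul_of_nonneg_left this hC.le
  linarith

theorem M_bound {a b c : ℝ} (ha : 0 < a) (hb : 0 < b) (hc : 0 < c) (d σ1 σ2 : ℝ) :
    ∃ C T : ℝ, 0 < C ∧ 1 ≤ T ∧ ∀ σ t : ℝ, σ1 ≤ σ → σ ≤ σ2 → T ≤ |t| →
      ‖Mf a b c d (σ + t * Complex.I)‖ ≤
        C * (|t| ^ ((1 + c - a - b) * σ - d) *
          Real.exp (-(Real.pi / 2 * (1 + a + b - c) * |t|))) := by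
  obtain ⟨C0, hC0, h0⟩ := num0_bound σ1 σ2
  obtain ⟨C1, hC1, h1⟩ := num_bound ha σ1 σ2
  obtain ⟨C2, hC2, h2⟩ := num_bound hb σ1 σ2
  obtain ⟨C3, hC3, h3⟩ := den_bound hc d σ1 σ2
  refine ⟨C0 * C1 * C2 * C3, 1 + 1 / a + 1 / b + 1 / c, by positivity, ?_, ?_⟩
  · have : 0 < 1 / a := by positivity
    have : 0 < 1 / b := by positivity
    have : 0 < 1 / c := by positivity
    linarith
  intro σ t hs1 hs2 ht
  have pa : 0 < 1 / a := by positivity
  have pb : 0 < 1 / b := by positivity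
  have pc : 0 < 1 / c := by positivity
  have t1 : 1 ≤ |t| := by linarith
  have ta : 1 ≤ a * |t| := by
    have : 1 / a ≤ |t| := by linarith
    rwa [div_le_iff₀ ha, mul_comm] at this
  have tb : 1 ≤ b * |t| := by
    have : 1 / b ≤ |t| := by linarith
    rwa [div_le_iff₀ hb, mul_comm] at this
  have tc : 1 ≤ c * |t| := by
    have : 1 / c ≤ |t| := by linarith
    rwa [div_le_iff₀ hc, mul_comm] at this
  have ht0 : 0 < |t| := by linarith
  have b0 := h0 σ t hs1 hs2 t1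
  have b1 := h1 σ t hs1 hs2 ta
  have b2 := h2 σ t hs1 hs2 tb
  have b3 := h3 σ t hs1 hs2 tc
  unfold Mf
  rw [norm_mul, norm_mul, norm_mul]
  have q1 := mul_le_mul b0 b1 (norm_nonneg _) (by positivity)
  have q2 := mul_le_mul q1 b2 (norm_nonneg _) (by positivity)
  have q3 := mul_le_mul q2 b3 (norm_nonneg _) (by positivity)
  refine q3.trans (le_of_eq ?_)
  have e1 : (1 + c - a - b) * σ - d =
      (σ - 1 / 2) + (1 / 2 - a * σ) + (1 / 2 - b * σ) + (c * σ - d - 1 / 2) := by ring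
  have e2 : -(Real.pi / 2 * (1 + a + b - c) * |t|) =
      -(Real.pi * |t|) / 2 + -(Real.pi * (a * |t|)) / 2 + -(Real.pi * (b * |t|)) / 2
        + Real.pi * (c * |t|) / 2 := by ring
  rw [e1, e2, Real.rpow_add ht0, Real.rpow_add ht0, Real.rpow_add ht0, Real.exp_add, Real.exp_add,
    Real.exp_add]
  ring

theorem M_decay {a b c d : ℝ} (ha : 0 < a) (hb : 0 < b) (hc : a + b < c) (hc1 : c ≤ a + b + 1)
    (σ1 σ2 : ℝ) (h : c < a + b + 1 ∨ (1 + c - a - b) * σ2 - d < -1) :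
    ∃ η C T : ℝ, 1 / 2 < η ∧ 0 < C ∧ 1 ≤ T ∧ ∀ σ t : ℝ, σ1 ≤ σ → σ ≤ σ2 → T ≤ |t| →
      ‖Mf a b c d (σ + t * Complex.I)‖ ≤ C * (1 + t ^ 2) ^ (-η) := by
  obtain ⟨C, T, hC, hT, hM⟩ := M_bound ha hb (by linarith) d σ1 σ2
  have hκ : 0 < 1 + c - a - b := by linarith
  have mono : ∀ σ t : ℝ, σ ≤ σ2 → 1 ≤ |t| →
      |t| ^ ((1 + c - a - b) * σ - d) ≤ |t| ^ ((1 + c - a - b) * σ2 - d) := by
    intro σ t hs ht
    apply Real.rpow_le_rpow_of_exponent_le ht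
    have := mul_le_mul_of_nonneg_left hs hκ.le
    linarith
  rcases h with h | h
  · set ε := Real.pi / 2 * (1 + a + b - c) with hε
    have hε0 : 0 < ε := by
      have := Real.pi_pos
      have : 0 < 1 + a + b - c := by linarith
      positivity
    set A := (1 + c - a - b) * σ2 - d with hA
    have ht := tendsto_rpow_mul_exp_neg_mul_atTop_nhds_zero (A + 2) ε hε0
    have hev := (ht.eventually (gt_mem_nhds (show (0:ℝ) < 1 by norm_num))).and
      (eventually_ge_atTop (1:ℝ))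
    obtain ⟨T1, hT1⟩ := (hev.exists_forall_of_atTop)
    refine ⟨1, C * 2, max T T1, by norm_num, by positivity, le_max_of_le_left hT, ?_⟩
    intro σ t hs1 hs2 htt
    have ht1 : T ≤ |t| := (le_max_left _ _).trans htt
    have ht2 : T1 ≤ |t| := (le_max_right _ _).trans htt
    have t1 : 1 ≤ |t| := hT.trans ht1
    have t0 : 0 < |t| := by linarith
    refine (hM σ t hs1 hs2 ht1).trans ?_
    have h1 := (hT1 |t| ht2).1
    have h2 : |t| ^ A * Real.exp (-(ε * |t|)) ≤ (|t| ^ 2)⁻¹ := by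
      rw [Real.rpow_add t0, show (2:ℝ) = ((2:ℕ):ℝ) by norm_num, Real.rpow_natCast] at h1
      rw [← one_div, le_div_iff₀ (by positivity)]
      have e : -ε * |t| = -(ε * |t|) := by ring
      rw [e] at h1
      calc |t| ^ A * Real.exp (-(ε * |t|)) * |t| ^ 2 = |t| ^ A * |t| ^ 2 * Real.exp (-(ε * |t|)) := by
            ring
        _ ≤ 1 := h1.le
    have h3 : |t| ^ ((1 + c - a - b) * σ - d) * Real.exp (-(ε * |t|)) ≤ 2 * (1 + t ^ 2) ^ (-1:ℝ) := by
      have h4 := mul_le_mul_of_nonneg_right (mono σ t hs2 t1) (Real.exp_pos (-(ε * |t|))).le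
      refine h4.trans (h2.trans ?_)
      rw [Real.rpow_neg_one, sq_abs]
      have h5 : 1 ≤ t ^ 2 := by rw [← sq_abs]; nlinarith
      rw [← div_eq_mul_inv, inv_eq_one_div, div_le_div_iff₀ (by positivity) (by positivity)]
      linarith
    have := mul_le_mul_of_nonneg_left h3 hC.le
    linarith
  · set A := (1 + c - a - b) * σ2 - d with hA
    refine ⟨-A / 2, C * 2 ^ (-A / 2), T, by linarith, by positivity, hT, ?_⟩
    intro σ t hs1 hs2 ht1
    have t1 : 1 ≤ |t| := hT.trans ht1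
    have t0 : 0 < |t| := by linarith
    refine (hM σ t hs1 hs2 ht1).trans ?_
    have h1 := mono σ t hs2 t1
    have h2 : Real.exp (-(Real.pi / 2 * (1 + a + b - c) * |t|)) ≤ 1 := by
      rw [Real.exp_le_one_iff]
      have := Real.pi_pos
      have : 0 ≤ 1 + a + b - c := by linarith
      have : 0 ≤ Real.pi / 2 * (1 + a + b - c) * |t| := by positivity
      linarith
    have h3 : |t| ^ A ≤ 2 ^ (-A / 2) * (1 + t ^ 2) ^ (-(-A / 2)) := by
      have e1 : |t| ^ A = (t ^ 2) ^ (A / 2) := by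
        rw [← sq_abs, ← Real.rpow_natCast |t| 2, ← Real.rpow_mul t0.le]
        congr 1; push_cast; ring
      have h5 : 1 ≤ t ^ 2 := by rw [← sq_abs]; nlinarith
      have e2 : -(-A / 2) = A / 2 := by ring
      rw [e1, e2]
      have h6 : (1 + t ^ 2) / 2 ≤ t ^ 2 := by linarith
      have h7 : (t ^ 2) ^ (A / 2) ≤ ((1 + t ^ 2) / 2) ^ (A / 2) :=
        Real.rpow_le_rpow_of_nonpos (by positivity) h6 (by linarith)
      refine h7.trans (le_of_eq ?_)
      rw [Real.div_rpow (by positivity) (by norm_num)]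
      have e3 : (2:ℝ) ^ (-A / 2) = ((2:ℝ) ^ (A / 2))⁻¹ := by
        rw [← Real.rpow_neg (by norm_num)]; congr 1; ring
      rw [e3]; field_simp
    have h4 : |t| ^ ((1 + c - a - b) * σ - d) * Real.exp (-(Real.pi / 2 * (1 + a + b - c) * |t|)) ≤
        2 ^ (-A / 2) * (1 + t ^ 2) ^ (-(-A / 2)) := by
      calc _ ≤ |t| ^ A * 1 := mul_le_mul h1 h2 (Real.exp_pos _).le (by positivity)
        _ = |t| ^ A := mul_one _
        _ ≤ _ := h3
    have := mul_le_mul_of_nonneg_left h4 hC.le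
    linarith

end

end Pool.Agent.Lib.MP_8382de_an
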