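import Pool.Agent.Lib.MP_8382de_an.Left

/-!
Orders of the integrand, and the first pole on the positive axis that is not cancelled.
-/

namespace Pool.Agent.Lib.MP_8382de_an

open Filter Topology Set MeasureTheory

noncomputable section

lemma ord_Gamma_neg (n : ℕ) : meromorphicOrderAt Complex.Gamma (-(n : ℂ)) = ((-1 : ℤ) : WithTop ℤ) := by
  induction n with
  | zero =>
    rw [meromorphicOrderAt_eq_int_iff (Meromorphic.Gamma _)]
    refine ⟨fun z => Complex.Gamma (z + 1), ?_, ?_, ?_⟩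
    · have hU : IsOpen {z : ℂ | 0 < (z + 1).re} := isOpen_lt (by fun_prop) (by fun_prop)
      apply DifferentiableOn.analyticAt (s := {z : ℂ | 0 < (z + 1).re})
      · intro z hz
        apply DifferentiableAt.differentiableWithinAt
        apply DifferentiableAt.comp z _ (by fun_prop)
        apply Complex.differentiableAt_Gamma
        intro m h0
        have hz' : 0 < (z + 1).re := hz
        rw [h0] at hz'
        simp at hz'
        have : (0:ℝ) ≤ m := by positivity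
        linarith
      · apply hU.mem_nhds
        simp
    · simp
    · filter_upwards [self_mem_nhdsWithin] with z hz
      have hz0 : z ≠ 0 := by simpa using hz
      rw [Complex.Gamma_add_one z hz0]
      simp only [Nat.cast_zero, neg_zero, sub_zero, smul_eq_mul]
      rw [zpow_neg_one, ← mul_assoc, inv_mul_cancel₀ hz0, one_mul]
  | succ n ih =>
    have hne : (-((n + 1 : ℕ) : ℂ)) ≠ 0 := by
      rw [neg_ne_zero]; exact_mod_cast Nat.succ_ne_zero n
    have h1 : Complex.Gamma =ᶠ[𝓝[≠] (-((n + 1 : ℕ) : ℂ))]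
        ((fun z : ℂ => z⁻¹) * (fun z => Complex.Gamma (z + 1))) := by
      have : ∀ᶠ z in 𝓝 (-((n + 1 : ℕ) : ℂ)), z ≠ 0 := eventually_ne_nhds hne
      filter_upwards [mem_nhdsWithin_of_mem_nhds this] with z hz
      simp only [Pi.mul_apply]
      rw [Complex.Gamma_add_one z hz, ← mul_assoc, inv_mul_cancel₀ hz, one_mul]
    rw [meromorphicOrderAt_congr h1, meromorphicOrderAt_mul_of_ne_zero (by
      exact AnalyticAt.inv analyticAt_id hne) (inv_ne_zero hne)]
    have h2 := meromorphicOrderAt_fun_comp_add_const_eq_meromorphicOrderAt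
      (x := -((n + 1 : ℕ) : ℂ)) (c := (1 : ℂ)) (f := Complex.Gamma)
    rw [h2, ← ih]
    congr 1
    push_cast; ring

open scoped Classical in
/-- is `e` a pole of the Gamma function -/
def dl (e : ℝ) : ℤ := if ∃ m : ℕ, e = -(m : ℝ) then 1 else 0

lemma dl_nonneg (e : ℝ) : 0 ≤ dl e := by unfold dl; split_ifs <;> norm_num
lemma dl_le (e : ℝ) : dl e ≤ 1 := by unfold dl; split_ifs <;> norm_num

lemma dl_eq_one {e : ℝ} (m : ℕ) (h : e = -(m : ℝ)) : dl e = 1 := by
  unfold dl; rw [if_pos ⟨m, h⟩]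

lemma exists_of_dl {e : ℝ} (h : 0 < dl e) : ∃ m : ℕ, e = -(m : ℝ) := by
  by_contra hcon
  unfold dl at h
  rw [if_neg hcon] at h
  exact lt_irrefl _ h

lemma ord_Gamma (e : ℝ) : meromorphicOrderAt Complex.Gamma (e : ℂ) = ((-(dl e) : ℤ) : WithTop ℤ) := by
  by_cases h : ∃ m : ℕ, e = -(m : ℝ)
  · obtain ⟨m, rfl⟩ := h
    rw [dl_eq_one m rfl]
    have := ord_Gamma_neg m
    rw [← this]
    push_cast
    rfl
  · have h1 : dl e = 0 := by unfold dl; rw [if_neg h]
    rw [h1]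
    have h2 : Complex.Gamma (e : ℂ) ≠ 0 := by
      apply Complex.Gamma_ne_zero
      intro m hm
      apply h
      exact ⟨m, by exact_mod_cast hm⟩
    have h3 := (MeromorphicNFOn.Gamma (mem_univ (e : ℂ))).meromorphicOrderAt_eq_zero_iff.mpr h2
    rw [h3]
    rfl

lemma ord_comp {a : ℝ} (ha : a ≠ 0) (e p : ℝ) :
    meromorphicOrderAt (fun s : ℂ => Complex.Gamma ((e : ℂ) - a * s)) (p : ℂ) =
      ((-(dl (e - a * p)) : ℤ) : WithTop ℤ) := by
  have h1 : HasDerivAt (fun s : ℂ => (e : ℂ) - a * s) (-(a : ℂ)) (p : ℂ) := by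
    have := ((hasDerivAt_id (p : ℂ)).const_mul (a : ℂ)).const_sub (e : ℂ)
    simpa using this
  have h2 := meromorphicOrderAt_comp_of_deriv_ne_zero (f := Complex.Gamma)
    (g := fun s : ℂ => (e : ℂ) - a * s) (x := (p : ℂ)) (by fun_prop)
    (by rw [h1.deriv]; rw [neg_ne_zero]; exact_mod_cast ha)
  have e1 : (Complex.Gamma ∘ fun s : ℂ => (e : ℂ) - a * s) =
      (fun s : ℂ => Complex.Gamma ((e : ℂ) - a * s)) := rfl
  rw [e1] at h2
  rw [h2, ← ord_Gamma]
  push_cast
  rfl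

lemma mero_comp (a e : ℝ) (s : ℂ) :
    MeromorphicAt (fun s : ℂ => Complex.Gamma ((e : ℂ) - a * s)) s :=
  MeromorphicAt.comp_analyticAt (f := Complex.Gamma) (g := fun s : ℂ => (e : ℂ) - a * s)
    (Meromorphic.Gamma _) (by fun_prop)

lemma mero_Mf (a b c d : ℝ) (s : ℂ) : MeromorphicAt (Mf a b c d) s := by
  have h1 := mero_comp a 1 s
  have h2 := mero_comp b 1 s
  have h3 := mero_comp c (d + 1) s
  push_cast at h1 h2 h3
  exact (((Meromorphic.Gamma s).mul h1).mul h2).mul h3.inv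

theorem ord_Mf {a b c d : ℝ} (ha : a ≠ 0) (hb : b ≠ 0) (hc : c ≠ 0) {p : ℝ} (hp : 0 < p) :
    meromorphicOrderAt (Mf a b c d) (p : ℂ) =
      ((dl (d + 1 - c * p) - dl (1 - a * p) - dl (1 - b * p) : ℤ) : WithTop ℤ) := by
  have h0 : dl p = 0 := by
    unfold dl
    rw [if_neg]
    rintro ⟨m, hm⟩
    have : (0:ℝ) ≤ m := by positivity
    linarith
  have o0 := ord_Gamma p
  have o1 := ord_comp ha 1 p
  have o2 := ord_comp hb 1 p
  have o3 := ord_comp hc (d + 1) p
  have m0 : MeromorphicAt Complex.Gamma (p : ℂ) := Meromorphic.Gamma _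
  have m1 := mero_comp a 1 (p : ℂ)
  have m2 := mero_comp b 1 (p : ℂ)
  have m3 := mero_comp c (d + 1) (p : ℂ)
  rw [h0] at o0
  have e : Mf a b c d = ((Complex.Gamma * (fun s : ℂ => Complex.Gamma (((1 : ℝ) : ℂ) - a * s))) *
      (fun s : ℂ => Complex.Gamma (((1 : ℝ) : ℂ) - b * s))) *
      (fun s : ℂ => Complex.Gamma (((d + 1 : ℝ) : ℂ) - c * s))⁻¹ := by
    ext s
    simp only [Mf, Pi.mul_apply, Pi.inv_apply]
    push_cast
    rfl
  rw [e, meromorphicOrderAt_mul ((m0.mul m1).mul m2) m3.inv, meromorphicOrderAt_mul (m0.mul m1) m2,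
    meromorphicOrderAt_mul m0 m1, meromorphicOrderAt_inv, o0, o1, o2, o3,
    ← WithTop.LinearOrderedAddCommGroup.coe_neg, ← WithTop.coe_add, ← WithTop.coe_add,
    ← WithTop.coe_add]
  apply congrArg
  ring

/-- `p` is a pole of the integrand -/
def Gen (a b c d p : ℝ) : Prop := 0 < p ∧ dl (d + 1 - c * p) < dl (1 - a * p) + dl (1 - b * p)

lemma exists_gen {a b c d : ℝ} (ha : 0 < a) (hb : 0 < b) (hc : 0 < c) : ∃ p, Gen a b c d p := by
  by_contra hcon
  push Not at hcon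
  have key : ∀ p : ℝ, 0 < p → dl (1 - a * p) + dl (1 - b * p) ≤ dl (d + 1 - c * p) := by
    intro p hp
    have := hcon p
    unfold Gen at this
    push Not at this
    exact this hp
  -- one point of each progression
  have pt : ∀ (u : ℝ), 0 < u → (u = a ∨ u = b) → ∀ k : ℕ, ∃ m : ℕ, c * ((k + 1 : ℝ) / u) = d + 1 + m := by
    intro u hu hor k
    have h1 := key ((k + 1 : ℝ) / u) (by positivity)
    have h2 : dl (1 - u * ((k + 1 : ℝ) / u)) = 1 := by
      apply dl_eq_one k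
      field_simp
      ring
    have h3 : 0 < dl (d + 1 - c * ((k + 1 : ℝ) / u)) := by
      rcases hor with rfl | rfl
      · have := dl_nonneg (1 - b * ((k + 1 : ℝ) / u)); omega
      · have := dl_nonneg (1 - a * ((k + 1 : ℝ) / u)); omega
    obtain ⟨m, hm⟩ := exists_of_dl h3
    exact ⟨m, by linarith⟩
  have intg : ∀ (u : ℝ), 0 < u → (u = a ∨ u = b) → ∃ n : ℕ, c / u = n + 1 := by
    intro u hu hor
    obtain ⟨m1, h1⟩ := pt u hu hor 0
    obtain ⟨m2, h2⟩ := pt u hu hor 1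
    have e1 : c * (((0 : ℕ) + 1 : ℝ) / u) = c / u := by push_cast; ring
    have e2 : c * (((1 : ℕ) + 1 : ℝ) / u) = 2 * (c / u) := by push_cast; ring
    rw [e1] at h1
    rw [e2] at h2
    have h3 : c / u = m2 - m1 := by linarith
    have h4 : 0 < c / u := by positivity
    have h5 : (m1 : ℝ) < m2 := by linarith
    have h6 : m1 < m2 := by exact_mod_cast h5
    refine ⟨m2 - m1 - 1, ?_⟩
    rw [Nat.cast_sub (by omega), Nat.cast_sub h6.le, h3]
    push_cast; ring
  obtain ⟨n1, hn1⟩ := intg a ha (Or.inl rfl)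
  obtain ⟨n2, hn2⟩ := intg b hb (Or.inr rfl)
  have h := key (c / (a * b)) (by positivity)
  have e1 : a * (c / (a * b)) = c / b := by field_simp
  have e2 : b * (c / (a * b)) = c / a := by field_simp
  have d1 : dl (1 - a * (c / (a * b))) = 1 := by
    apply dl_eq_one n2
    rw [e1, hn2]; ring
  have d2 : dl (1 - b * (c / (a * b))) = 1 := by
    apply dl_eq_one n1
    rw [e2, hn1]; ring
  have d3 := dl_le (d + 1 - c * (c / (a * b)))
  rw [d1, d2] at h
  omega

/-- on the critical plane -/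
lemma gen_crit {a b c d : ℝ} (ha : 0 < a) (hab : b ≤ a) (hc : c = a + b + 1)
    (hd : 1 + 2 / a < d) : Gen a b c d (1 / a) := by
  refine ⟨by positivity, ?_⟩
  have h1 : dl (1 - a * (1 / a)) = 1 := by
    apply dl_eq_one 0
    field_simp
    simp
  have h2 := dl_nonneg (1 - b * (1 / a))
  by_contra hcon
  have h3 : 0 < dl (d + 1 - c * (1 / a)) := by omega
  obtain ⟨m, hm⟩ := exists_of_dl h3
  have h4 : (0:ℝ) ≤ m := by positivity
  have h5 : c * (1 / a) ≤ 2 + 1 / a := by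
    rw [hc]
    have : (a + b + 1) * (1 / a) = 1 + b / a + 1 / a := by field_simp
    rw [this]
    have : b / a ≤ 1 := (div_le_one ha).mpr hab
    linarith
  have h6 : 0 < 1 / a := by positivity
  have h7 : 2 / a = 2 * (1 / a) := by ring
  linarith

lemma gen_finite {a b c d : ℝ} (ha : 0 < a) (hb : 0 < b) (B : ℝ) :
    {p : ℝ | Gen a b c d p ∧ p ≤ B}.Finite := by
  have hfin : ∀ u : ℝ, 0 < u → {p : ℝ | p ≤ B ∧ ∃ m : ℕ, 1 - u * p = -(m : ℝ)}.Finite := by
    intro u hu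
    apply Set.Finite.subset ((Set.finite_Iic (⌈u * B⌉₊)).image (fun m : ℕ => ((m : ℝ) + 1) / u))
    rintro p ⟨hp, m, hm⟩
    refine ⟨m, ?_, ?_⟩
    · rw [mem_Iic]
      have h1 : (m : ℝ) ≤ u * B := by
        have := mul_le_mul_of_nonneg_left hp hu.le
        linarith
      have h2 : (m : ℝ) ≤ (⌈u * B⌉₊ : ℝ) := h1.trans (Nat.le_ceil _)
      exact_mod_cast h2
    · simp only
      rw [div_eq_iff hu.ne']
      linarith
  apply Set.Finite.subset ((hfin a ha).union (hfin b hb))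
  rintro p ⟨⟨_, h2⟩, hB⟩
  have h3 := dl_nonneg (d + 1 - c * p)
  by_cases h4 : 0 < dl (1 - a * p)
  · left
    exact ⟨hB, exists_of_dl h4⟩
  · right
    have : 0 < dl (1 - b * p) := by omega
    exact ⟨hB, exists_of_dl this⟩

/-- the least pole and a gap after it -/
lemma least_gen {a b c d : ℝ} (ha : 0 < a) (hb : 0 < b) {p : ℝ} (hp : Gen a b c d p) (δ : ℝ)
    (hδ : 0 < δ) :
    ∃ s0 σ2 : ℝ, Gen a b c d s0 ∧ s0 ≤ p ∧ s0 < σ2 ∧ σ2 < s0 + δ ∧
      ∀ q : ℝ, Gen a b c d q → q < σ2 + (σ2 - s0) → q = s0 := by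
  obtain ⟨s0, hs0, hmin⟩ := Set.exists_min_image {q : ℝ | Gen a b c d q ∧ q ≤ p} id
    (gen_finite ha hb p) ⟨p, hp, le_rfl⟩
  have hleast : ∀ q : ℝ, Gen a b c d q → s0 ≤ q := by
    intro q hq
    rcases le_total q p with h | h
    · exact hmin q ⟨hq, h⟩
    · exact hs0.2.trans h
  -- next one
  have hfin : {q : ℝ | (Gen a b c d q ∧ q ≤ s0 + 1) ∧ q ≠ s0}.Finite :=
    (gen_finite ha hb (s0 + 1)).subset (fun q hq => hq.1)
  obtain ⟨r, hr0, hr⟩ : ∃ r : ℝ, s0 < r ∧ ∀ q : ℝ, Gen a b c d q → q < r → q = s0 := by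
    by_cases hne : {q : ℝ | (Gen a b c d q ∧ q ≤ s0 + 1) ∧ q ≠ s0}.Nonempty
    · obtain ⟨r, hr, hrmin⟩ := Set.exists_min_image _ id hfin hne
      refine ⟨r, lt_of_le_of_ne (hleast r hr.1.1) (Ne.symm hr.2), ?_⟩
      intro q hq hqr
      by_contra hqs
      have := hrmin q ⟨⟨hq, hqr.le.trans hr.1.2⟩, hqs⟩
      simp only [id] at this
      linarith
    · refine ⟨s0 + 1, by linarith, ?_⟩
      intro q hq hqr
      by_contra hqs
      exact hne ⟨q, ⟨hq, hqr.le⟩, hqs⟩
  refine ⟨s0, s0 + min ((r - s0) / 2) (δ / 2), hs0.1, hs0.2, ?_, ?_, ?_⟩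
  · have : 0 < min ((r - s0) / 2) (δ / 2) := lt_min (by linarith) (by linarith)
    linarith
  · have := min_le_right ((r - s0) / 2) (δ / 2)
    linarith
  · intro q hq hqs
    apply hr q hq
    have := min_le_left ((r - s0) / 2) (δ / 2)
    linarith

end

end Pool.Agent.Lib.MP_8382de_an
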