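import Pool.Agent.Lib.MP_8382de_an.Ord

/-!
Moving the line of integration to the right, over the first pole.
-/

namespace Pool.Agent.Lib.MP_8382de_an

open Filter Topology Set MeasureTheory

noncomputable section

lemma VB.mono_T {g : ℂ → ℂ} {σ1 σ2 η C T T' : ℝ} (h : VB g σ1 σ2 η C T) (hT : T ≤ T') :
    VB g σ1 σ2 η C T' := fun σ t h1 h2 ht => h σ t h1 h2 (hT.trans ht)

lemma mf_analytic {a b c d : ℝ} {s : ℂ} (hs : s.im ≠ 0) (ha : a ≠ 0) (hb : b ≠ 0) :
    AnalyticAt ℂ (Mf a b c d) s := by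
  have hU : IsOpen {s : ℂ | s.im ≠ 0} := isOpen_ne_fun (by fun_prop) (by fun_prop)
  apply DifferentiableOn.analyticAt (s := {s : ℂ | s.im ≠ 0}) _ (hU.mem_nhds hs)
  intro z hz
  have hz' : z.im ≠ 0 := hz
  apply DifferentiableAt.differentiableWithinAt
  have gd : ∀ w : ℂ, w.im ≠ 0 → DifferentiableAt ℂ Complex.Gamma w := by
    intro w hw
    apply Complex.differentiableAt_Gamma
    intro m h0
    rw [h0] at hw
    simp at hw
  have g0 : DifferentiableAt ℂ Complex.Gamma z := gd z hz'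
  have g1 : DifferentiableAt ℂ (fun s : ℂ => Complex.Gamma (1 - a * s)) z := by
    apply DifferentiableAt.comp z (gd _ _) (by fun_prop)
    simp [ha, hz']
  have g2 : DifferentiableAt ℂ (fun s : ℂ => Complex.Gamma (1 - b * s)) z := by
    apply DifferentiableAt.comp z (gd _ _) (by fun_prop)
    simp [hb, hz']
  have g3 : DifferentiableAt ℂ (fun s : ℂ => (Complex.Gamma (d + 1 - c * s))⁻¹) z := by
    apply DifferentiableAt.comp z (g := fun z => (Complex.Gamma z)⁻¹)
      (Complex.differentiable_one_div_Gamma _) (by fun_prop)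
  exact ((g0.mul g1).mul g2).mul g3

/-- the regular part -/
lemma exists_H {a b c d : ℝ} (ha : 0 < a) (hb : 0 < b) (hc : 0 < c) {s0 σ3 : ℝ}
    (h0 : Gen a b c d s0) (h3 : s0 < σ3) (hgap : ∀ q : ℝ, Gen a b c d q → q < σ3 → q = s0) :
    ∃ H : ℂ → ℂ, DifferentiableOn ℂ H {s : ℂ | 0 < s.re ∧ s.re < σ3} ∧
      (∀ s : ℂ, 0 < s.re → s.re < σ3 → s.im ≠ 0 → H s = (s - s0) ^ 2 * Mf a b c d s) ∧
      (H s0 ≠ 0 ∨ deriv H s0 ≠ 0) := by
  set U : Set ℂ := {s : ℂ | 0 < s.re ∧ s.re < σ3} with hU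
  have hUo : IsOpen U := by
    apply IsOpen.and (isOpen_lt (by fun_prop) (by fun_prop)) (isOpen_lt (by fun_prop) (by fun_prop))
  set f : ℂ → ℂ := (fun s : ℂ => (s - s0) ^ 2) * Mf a b c d with hf
  have hqa : ∀ s : ℂ, AnalyticAt ℂ (fun s : ℂ => (s - s0) ^ 2) s := by
    intro s; fun_prop
  have hfm : MeromorphicOn f U := fun s _ => (hqa s).meromorphicAt.mul (mero_Mf a b c d s)
  have hord0 : meromorphicOrderAt f (s0 : ℂ) =
      ((2 + (dl (d + 1 - c * s0) - dl (1 - a * s0) - dl (1 - b * s0)) : ℤ) : WithTop ℤ) := by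
    rw [hf, meromorphicOrderAt_mul (hqa _).meromorphicAt (mero_Mf a b c d _),
      ord_Mf ha.ne' hb.ne' hc.ne' h0.1]
    have h1 : meromorphicOrderAt (fun s : ℂ => (s - s0) ^ 2) (s0 : ℂ) = ((2 : ℤ) : WithTop ℤ) := by
      rw [meromorphicOrderAt_eq_int_iff (hqa _).meromorphicAt]
      refine ⟨fun _ => 1, analyticAt_const, one_ne_zero, Eventually.of_forall fun z => ?_⟩
      simp only [smul_eq_mul, mul_one]
      norm_cast
    rw [h1, ← WithTop.coe_add]
  have hd1 := dl_nonneg (d + 1 - c * s0)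
  have hd2 := dl_le (1 - a * s0)
  have hd3 := dl_le (1 - b * s0)
  have hg := h0.2
  have hord : ∀ s ∈ U, 0 ≤ meromorphicOrderAt f s := by
    intro s hs
    by_cases him : s.im = 0
    · have hsre : s = (s.re : ℂ) := Complex.ext (by simp) (by simp [him])
      by_cases hs0 : s.re = s0
      · rw [hsre, hs0, hord0]
        have : (0 : ℤ) ≤ 2 + (dl (d + 1 - c * s0) - dl (1 - a * s0) - dl (1 - b * s0)) := by omega
        exact_mod_cast this
      · have hng : ¬ Gen a b c d s.re := fun h => hs0 (hgap _ h hs.2)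
        have hle : dl (1 - a * s.re) + dl (1 - b * s.re) ≤ dl (d + 1 - c * s.re) := by
          by_contra hcon
          exact hng ⟨hs.1, not_le.mp hcon⟩
        rw [hsre, hf, meromorphicOrderAt_mul (hqa _).meromorphicAt (mero_Mf a b c d _),
          ord_Mf ha.ne' hb.ne' hc.ne' hs.1]
        apply add_nonneg
        · exact (hqa _).meromorphicOrderAt_nonneg
        · have : (0 : ℤ) ≤ dl (d + 1 - c * s.re) - dl (1 - a * s.re) - dl (1 - b * s.re) := by
            omega
          exact_mod_cast this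
    · exact ((hqa s).mul (mf_analytic him ha.ne' hb.ne')).meromorphicOrderAt_nonneg
  have hNF := meromorphicNFOn_toMeromorphicNFOn f U
  have hHa : ∀ s ∈ U, AnalyticAt ℂ (toMeromorphicNFOn f U) s := by
    intro s hs
    rw [← (hNF hs).meromorphicOrderAt_nonneg_iff_analyticAt, meromorphicOrderAt_toMeromorphicNFOn hfm hs]
    exact hord s hs
  refine ⟨toMeromorphicNFOn f U, fun s hs => (hHa s hs).differentiableAt.differentiableWithinAt,
    ?_, ?_⟩
  · intro s h1 h2 him
    have hs : s ∈ U := ⟨h1, h2⟩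
    rw [toMeromorphicNFOn_eq_toMeromorphicNFAt hfm hs]
    have hfa : AnalyticAt ℂ f s := (hqa s).mul (mf_analytic him ha.ne' hb.ne')
    rw [toMeromorphicNFAt_eq_self.2 hfa.meromorphicNFAt]
    rfl
  · have hs0U : (s0 : ℂ) ∈ U := ⟨by simpa using h0.1, by simpa using h3⟩
    have hA := hHa _ hs0U
    have hO : meromorphicOrderAt (toMeromorphicNFOn f U) (s0 : ℂ) =
        ((2 + (dl (d + 1 - c * s0) - dl (1 - a * s0) - dl (1 - b * s0)) : ℤ) : WithTop ℤ) := by
      rw [meromorphicOrderAt_toMeromorphicNFOn hfm hs0U, hord0]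
    by_contra hcon
    push Not at hcon
    obtain ⟨hH0, hH1⟩ := hcon
    -- analytic order at least two
    have h4 := hA.analyticOrderAt_deriv_add_one
    rw [hH0] at h4
    simp only [sub_zero] at h4
    have h5 : analyticOrderAt (deriv (toMeromorphicNFOn f U)) (s0 : ℂ) ≠ 0 := by
      intro h6
      rw [hA.deriv.analyticOrderAt_eq_zero] at h6
      exact h6 hH1
    rw [hA.meromorphicOrderAt_eq, ← h4] at hO
    have h6 : 2 ≤ analyticOrderAt (deriv (toMeromorphicNFOn f U)) (s0 : ℂ) + 1 := by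
      have : 1 ≤ analyticOrderAt (deriv (toMeromorphicNFOn f U)) (s0 : ℂ) :=
        Order.one_le_iff_ne_zero.mpr h5
      calc (2 : ℕ∞) = 1 + 1 := by norm_num
        _ ≤ _ := by gcongr
    generalize analyticOrderAt (deriv (toMeromorphicNFOn f U)) (s0 : ℂ) + 1 = o at hO h6
    cases o with
    | top =>
      rw [ENat.map_top] at hO
      exact WithTop.top_ne_coe hO
    | coe n =>
      have h7 : (2 : ℕ) ≤ n := by exact_mod_cast h6
      rw [ENat.map_natCast] at hO
      have h8 : ((n : ℤ)) = 2 + (dl (d + 1 - c * s0) - dl (1 - a * s0) - dl (1 - b * s0)) := by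
        exact_mod_cast hO
      omega

theorem asym {a b c d : ℝ} (ha : 0 < a) (hb : 0 < b) (hc : a + b < c) (hc1 : c ≤ a + b + 1)
    (hd : 0 < d) {p : ℝ} (hp : Gen a b c d p)
    (h : c < a + b + 1 ∨ (1 + c - a - b) * p - d < -1) :
    ∃ (s0 σ2 C : ℝ) (A B : ℂ), 0 < s0 ∧ s0 < σ2 ∧ 0 ≤ C ∧ (B ≠ 0 ∨ A ≠ 0) ∧
      ∀ x : ℝ, 0 < x → ‖Phi a b c d (-(x : ℂ)) + (A - B * Real.log x) * ((x ^ (-s0) : ℝ) : ℂ)‖ ≤
        C * x ^ (-σ2) := by
  have hκ : 0 < 1 + c - a - b := by linarith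
  -- choice of the gap
  obtain ⟨δ, hδ, hδ'⟩ : ∃ δ : ℝ, 0 < δ ∧ ∀ σ : ℝ, σ < p + δ →
      (c < a + b + 1 ∨ (1 + c - a - b) * σ - d < -1) := by
    rcases h with h | h
    · exact ⟨1, one_pos, fun _ _ => Or.inl h⟩
    · refine ⟨(d - 1 - (1 + c - a - b) * p) / (1 + c - a - b), by
        apply div_pos (by linarith) hκ, fun σ hσ => Or.inr ?_⟩
      have h1 := mul_lt_mul_of_pos_left hσ hκ
      rw [mul_add, mul_div_cancel₀ _ hκ.ne'] at h1
      linarith
  obtain ⟨s0, σ2, hs0, hs0p, hs2, hs2δ, hgap⟩ := least_gen ha hb hp δ hδ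
  have hs0pos : 0 < s0 := hs0.1
  obtain ⟨H, hHd, hHe, hHne⟩ := exists_H ha hb (by linarith : 0 < c) hs0
    (show s0 < σ2 + (σ2 - s0) by linarith) hgap
  set σ0 : ℝ := min (min (s0 / 2) (1 / 2)) (min (1 / (2 * a)) (1 / (2 * b))) with hσ0
  have k1 : σ0 ≤ s0 / 2 := (min_le_left _ _).trans (min_le_left _ _)
  have k2 : σ0 ≤ 1 / 2 := (min_le_left _ _).trans (min_le_right _ _)
  have k3 : σ0 ≤ 1 / (2 * a) := (min_le_right _ _).trans (min_le_left _ _)
  have k4 : σ0 ≤ 1 / (2 * b) := (min_le_right _ _).trans (min_le_right _ _)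
  have k5 : 0 < σ0 := by
    rw [hσ0]
    apply lt_min (lt_min (by positivity) (by norm_num)) (lt_min (by positivity) (by positivity))
  have k3' : a * σ0 < 1 := by
    have := mul_le_mul_of_nonneg_left k3 ha.le
    have e : a * (1 / (2 * a)) = 1 / 2 := by field_simp
    linarith
  have k4' : b * σ0 < 1 := by
    have := mul_le_mul_of_nonneg_left k4 hb.le
    have e : b * (1 / (2 * b)) = 1 / 2 := by field_simp
    linarith
  have hdec0 := hδ' σ0 (by linarith)
  have hdec2 := hδ' σ2 (by linarith)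
  -- the key identity
  have key : ∀ x : ℝ, 0 < x → J a b c d σ2 x - J a b c d σ0 x =
      2 * Real.pi * ((deriv H s0 - H s0 * Real.log x) * ((x ^ (-s0) : ℝ) : ℂ)) := by
    intro x hx
    have hx' : (x : ℂ) ≠ 0 := by exact_mod_cast hx.ne'
    obtain ⟨η, C, T, hη, hV⟩ := Fx_decay ha hb hc hc1 σ0 σ2 hdec2 hx
    set H' : ℂ → ℂ := fun s => H s * (x : ℂ) ^ (-s) with hH'
    set F' : ℂ → ℂ := fun s => H' s / (s - s0) ^ 2 with hF'
    set U : Set ℂ := {s : ℂ | 0 < s.re ∧ s.re < σ2 + (σ2 - s0)} with hU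
    have hUo : IsOpen U := by
      apply IsOpen.and (isOpen_lt (by fun_prop) (by fun_prop))
        (isOpen_lt (by fun_prop) (by fun_prop))
    have hsub : vs σ0 σ2 ⊆ U := by
      intro s hs
      exact ⟨by linarith [hs.1], by linarith [hs.2]⟩
    have hFeq : ∀ s : ℂ, 0 < s.re → s.re < σ2 + (σ2 - s0) → s.im ≠ 0 →
        F' s = Fx a b c d x s := by
      intro s h1 h2 h3
      have hne : s - s0 ≠ 0 := by
        intro h4
        apply h3
        have := congrArg Complex.im h4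
        simpa using this
      simp only [hF', hH', hHe s h1 h2 h3, Fx]
      field_simp
    have hV' : VB F' σ0 σ2 η C (max T 1) := by
      intro σ t h1 h2 ht
      have ht1 : 1 ≤ |t| := (le_max_right _ _).trans ht
      have ht0 : t ≠ 0 := by
        rintro rfl
        rw [abs_zero] at ht1; linarith
      rw [hFeq _ (by simp; linarith) (by simp; linarith) (by simpa using ht0)]
      exact hV σ t h1 h2 ((le_max_left _ _).trans ht)
    have hxd : ∀ s : ℂ, HasDerivAt (fun s : ℂ => (x : ℂ) ^ (-s)) ((x : ℂ) ^ (-s) * Complex.log x * (-1)) s := by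
      intro s
      exact ((hasDerivAt_id s).neg).const_cpow (Or.inl hx')
    have hHd' : DifferentiableOn ℂ H' U := by
      intro s hs
      exact (hHd s hs).mul (hxd s).differentiableAt.differentiableWithinAt
    have hres := residue_shift hUo hsub hHd' (show σ0 < s0 by linarith) hs2
      (fun s _ _ => rfl) hη hV'
    have hline : ∀ σ : ℝ, 0 < σ → σ < σ2 + (σ2 - s0) →
        (∫ t : ℝ, H' (σ + t * Complex.I) / ((σ + t * Complex.I) - s0) ^ 2) = J a b c d σ x := by
      intro σ h1 h2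
      unfold J
      apply integral_congr_ae
      have h0 : ∀ᵐ t : ℝ, t ≠ 0 := by
        rw [ae_iff]
        simp
      filter_upwards [h0] with t ht
      exact hFeq _ (by simpa using h1) (by simpa using h2) (by simpa using ht)
    have h3 := hres.2.2
    rw [hline σ2 (by linarith) (by linarith), hline σ0 k5 (by linarith)] at h3
    rw [h3]
    congr 1
    have hs0U : (s0 : ℂ) ∈ U := ⟨by simpa using hs0pos, by simp; linarith⟩
    have hder := ((hHd.differentiableAt (hUo.mem_nhds hs0U)).hasDerivAt.mul (hxd s0)).deriv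
    have e1 : deriv H' (s0 : ℂ) = deriv H (s0 : ℂ) * (x : ℂ) ^ (-(s0 : ℂ)) +
        H (s0 : ℂ) * ((x : ℂ) ^ (-(s0 : ℂ)) * Complex.log x * (-1)) := hder
    rw [e1]
    have e2 : (x : ℂ) ^ (-(s0 : ℂ)) = ((x ^ (-s0) : ℝ) : ℂ) := by
      rw [Complex.ofReal_cpow hx.le]; push_cast; rfl
    rw [e2, Complex.ofReal_log hx.le]
    ring
  -- the remaining integral
  set C0 : ℝ := ∫ t : ℝ, ‖Fx a b c d 1 (σ2 + t * Complex.I)‖ with hC0
  have hC0' : 0 ≤ C0 := integral_nonneg fun _ => norm_nonneg _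
  have hJ2 : ∀ x : ℝ, 0 < x → ‖J a b c d σ2 x‖ ≤ C0 * x ^ (-σ2) := by
    intro x hx
    unfold J
    refine (norm_integral_le_integral_norm _).trans (le_of_eq ?_)
    rw [hC0, ← integral_mul_const]
    congr 1
    ext t
    unfold Fx
    rw [norm_mul, norm_mul, norm_xpow hx, norm_xpow one_pos, Real.one_rpow, mul_one]
  refine ⟨s0, σ2, C0 / (2 * Real.pi), deriv H s0, H s0, hs0pos, hs2, by positivity, hHne, ?_⟩
  intro x hx
  have h1 := key x hx
  rw [J_eq_Phi ha hb hc hc1 hd k5 (by linarith) k3' k4' hdec0 hx] at h1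
  have hpi : (2 * Real.pi : ℂ) ≠ 0 := by
    have := Real.pi_ne_zero
    norm_cast
    positivity
  have h2 : Phi a b c d (-(x : ℂ)) + (deriv H s0 - H s0 * Real.log x) * ((x ^ (-s0) : ℝ) : ℂ) =
      J a b c d σ2 x / (2 * Real.pi) := by
    rw [eq_div_iff hpi]
    linear_combination (-1 : ℂ) * h1
  rw [h2, norm_div]
  have h3 : ‖(2 * Real.pi : ℂ)‖ = 2 * Real.pi := by
    rw [norm_mul, Complex.norm_real, Real.norm_eq_abs, abs_of_pos Real.pi_pos]
    simp
  rw [h3, div_le_iff₀ (by positivity)]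
  refine (hJ2 x hx).trans (le_of_eq ?_)
  field_simp

end

end Pool.Agent.Lib.MP_8382de_an
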