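import Pool.Agent.Lib.MP_8382de_an.GammaBd

/-!
Bounds for Gamma in vertical strips.
-/

namespace Pool.Agent.Lib.MP_8382de_an

open Filter Topology Set

noncomputable section

/-- the model size of Gamma on vertical lines -/
def sz (x y : ℝ) : ℝ := |y| ^ (x - 1 / 2) * Real.exp (-(Real.pi * |y|) / 2)

lemma sz_pos {x y : ℝ} (hy : 1 ≤ |y|) : 0 < sz x y := by
  unfold sz
  have : 0 < |y| := by linarith
  positivity

def StripB (x0 x1 : ℝ) : Prop := ∃ C : ℝ, 0 < C ∧ ∀ x y : ℝ, x0 ≤ x → x ≤ x1 → 1 ≤ |y| →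
  ‖Complex.Gamma (x + y * Complex.I)‖ ≤ C * sz x y ∧
    sz x y ≤ C * ‖Complex.Gamma (x + y * Complex.I)‖

lemma Gamma_bounds (X : ℝ) : ∃ C : ℝ, 0 < C ∧ ∀ x : ℝ, 1 ≤ x → x ≤ X →
    Real.Gamma x ≤ C ∧ 1 ≤ C * Real.Gamma x := by
  have hcont : ContinuousOn Real.Gamma (Icc 1 X) := by
    intro x hx
    apply (Real.differentiableAt_Gamma _).continuousAt.continuousWithinAt
    intro m
    have h1 := hx.1
    have : (0:ℝ) ≤ m := by positivity
    intro h
    linarith
  have hinv : ContinuousOn (fun x => (Real.Gamma x)⁻¹) (Icc 1 X) := by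
    apply hcont.inv₀
    intro x hx
    exact (Real.Gamma_pos_of_pos (by linarith [hx.1])).ne'
  obtain ⟨C1, hC1⟩ := isCompact_Icc.exists_bound_of_continuousOn hcont
  obtain ⟨C2, hC2⟩ := isCompact_Icc.exists_bound_of_continuousOn hinv
  refine ⟨max 1 (max C1 C2), by positivity, ?_⟩
  intro x h1 h2
  have hpos := Real.Gamma_pos_of_pos (show 0 < x by linarith)
  have a1 := hC1 x ⟨h1, h2⟩
  have a2 := hC2 x ⟨h1, h2⟩
  rw [Real.norm_eq_abs, abs_of_pos hpos] at a1
  rw [norm_inv, Real.norm_eq_abs, abs_of_pos hpos] at a2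
  constructor
  · exact a1.trans ((le_max_left _ _).trans (le_max_right _ _))
  · have a3 : (Real.Gamma x)⁻¹ ≤ max 1 (max C1 C2) :=
      a2.trans ((le_max_right _ _).trans (le_max_right _ _))
    have := mul_le_mul_of_nonneg_right a3 hpos.le
    rwa [inv_mul_cancel₀ hpos.ne'] at this

lemma exp_hf (y t e : ℝ) : Real.exp (e * hf y t) = (1 + y ^ 2 / t ^ 2) ^ e := by
  unfold hf
  rw [Real.rpow_def_of_pos (one_add_pos y t)]
  ring_nf

lemma strip_base (X : ℝ) : StripB 1 X := by
  obtain ⟨C0, hC0, hΓ⟩ := Gamma_bounds X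
  set X' := max X 1 with hX'
  refine ⟨C0 * (Real.exp X' * 2 ^ X') + C0 * (X' ^ X'), by positivity, ?_⟩
  intro x y h1 h2 hy
  have hX1 : 1 ≤ X' := le_max_right _ _
  have hxX : x ≤ X' := h2.trans (le_max_left _ _)
  have hx : 0 < x := by linarith
  have hy0 : 0 < |y| := by linarith
  obtain ⟨g1, g2⟩ := hΓ x h1 h2
  have hpos := Real.Gamma_pos_of_pos hx
  have hsz := sz_pos (x := x) hy
  constructor
  · have u1 := norm_Gamma_le hx y
    have u2 := Gf_ge hx y
    have u3 : -(hf y x / 2 + Gf x y) / 2 ≤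
        x + -(Real.pi * |y|) / 2 + ((x - 1 / 2) / 2) * hf y x := by
      linarith
    have u4 : Real.exp (-(hf y x / 2 + Gf x y) / 2) ≤
        Real.exp X' * Real.exp (-(Real.pi * |y|) / 2) * (2 ^ X' * |y| ^ (x - 1 / 2)) := by
      refine (Real.exp_le_exp.mpr u3).trans ?_
      rw [Real.exp_add, Real.exp_add, exp_hf]
      apply mul_le_mul
      · apply mul_le_mul_of_nonneg_right (Real.exp_le_exp.mpr hxX) (Real.exp_pos _).le
      · have v1 : 1 + y ^ 2 / x ^ 2 ≤ 2 * |y| ^ 2 := by
          have w1 : y ^ 2 / x ^ 2 ≤ y ^ 2 := by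
            apply div_le_self (by positivity)
            nlinarith
          have w2 : 1 ≤ |y| ^ 2 := by nlinarith
          rw [sq_abs] at w2 ⊢
          linarith
        have v2 : (1 + y ^ 2 / x ^ 2) ^ ((x - 1 / 2) / 2) ≤ (2 * |y| ^ 2) ^ ((x - 1 / 2) / 2) :=
          Real.rpow_le_rpow (one_add_pos y x).le v1 (by linarith)
        refine v2.trans ?_
        rw [Real.mul_rpow (by norm_num) (by positivity), ← Real.rpow_natCast |y| 2,
          ← Real.rpow_mul hy0.le]
        have e1 : ((2:ℕ):ℝ) * ((x - 1 / 2) / 2) = x - 1 / 2 := by push_cast; ring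
        rw [e1]
        apply mul_le_mul_of_nonneg_right _ (by positivity)
        apply Real.rpow_le_rpow_of_exponent_le (by norm_num)
        linarith
      · exact (Real.rpow_pos_of_pos (one_add_pos y x) _).le
      · positivity
    have u5 : ‖Complex.Gamma (x + y * Complex.I)‖ ≤
        C0 * (Real.exp X' * Real.exp (-(Real.pi * |y|) / 2) * (2 ^ X' * |y| ^ (x - 1 / 2))) :=
      u1.trans (mul_le_mul g1 u4 (Real.exp_pos _).le hC0.le)
    refine u5.trans ?_
    have e : C0 * (Real.exp X' * Real.exp (-(Real.pi * |y|) / 2) * (2 ^ X' * |y| ^ (x - 1 / 2)))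
        = C0 * (Real.exp X' * 2 ^ X') * sz x y := by unfold sz; ring
    rw [e]
    apply mul_le_mul_of_nonneg_right _ hsz.le
    have : 0 ≤ C0 * X' ^ X' := by positivity
    linarith
  · have l1 := le_norm_Gamma' (x := x) (by linarith) y
    have hx' : 0 < x - 1 / 2 := by linarith
    have l2 := Gf_le hx' y
    have l3 : -(Real.pi * |y|) / 2 + ((x - 1 / 2) / 2) * hf y (x - 1 / 2) ≤
        -(Gf (x - 1 / 2) y) / 2 := by linarith
    have l4 : Real.exp (-(Real.pi * |y|) / 2) * (|y| ^ (x - 1 / 2) * (X' ^ X')⁻¹) ≤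
        Real.exp (-(Gf (x - 1 / 2) y) / 2) := by
      refine le_trans ?_ (Real.exp_le_exp.mpr l3)
      rw [Real.exp_add, exp_hf]
      apply mul_le_mul_of_nonneg_left _ (Real.exp_pos _).le
      have v1 : (|y| / (x - 1 / 2)) ^ 2 ≤ 1 + y ^ 2 / (x - 1 / 2) ^ 2 := by
        rw [div_pow, sq_abs]; linarith
      have v2 : ((|y| / (x - 1 / 2)) ^ 2) ^ ((x - 1 / 2) / 2) ≤
          (1 + y ^ 2 / (x - 1 / 2) ^ 2) ^ ((x - 1 / 2) / 2) :=
        Real.rpow_le_rpow (by positivity) v1 (by linarith)
      refine le_trans ?_ v2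
      rw [← Real.rpow_natCast (|y| / (x - 1 / 2)) 2, ← Real.rpow_mul (by positivity)]
      have e1 : ((2:ℕ):ℝ) * ((x - 1 / 2) / 2) = x - 1 / 2 := by push_cast; ring
      rw [e1, Real.div_rpow hy0.le hx'.le, div_eq_mul_inv]
      apply mul_le_mul_of_nonneg_left _ (by positivity)
      apply inv_anti₀ (by positivity)
      calc (x - 1 / 2) ^ (x - 1 / 2) ≤ X' ^ (x - 1 / 2) :=
            Real.rpow_le_rpow hx'.le (by linarith) hx'.le
        _ ≤ X' ^ X' := Real.rpow_le_rpow_of_exponent_le hX1 (by linarith)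
    have l5 : Real.exp (-(Real.pi * |y|) / 2) * (|y| ^ (x - 1 / 2) * (X' ^ X')⁻¹) ≤
        C0 * ‖Complex.Gamma (x + y * Complex.I)‖ := by
      calc Real.exp (-(Real.pi * |y|) / 2) * (|y| ^ (x - 1 / 2) * (X' ^ X')⁻¹)
          ≤ Real.exp (-(Gf (x - 1 / 2) y) / 2) := l4
        _ = 1 * Real.exp (-(Gf (x - 1 / 2) y) / 2) := by ring
        _ ≤ (C0 * Real.Gamma x) * Real.exp (-(Gf (x - 1 / 2) y) / 2) :=
            mul_le_mul_of_nonneg_right g2 (Real.exp_pos _).le
        _ = C0 * (Real.Gamma x * Real.exp (-(Gf (x - 1 / 2) y) / 2)) := by ring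
        _ ≤ C0 * ‖Complex.Gamma (x + y * Complex.I)‖ := mul_le_mul_of_nonneg_left l1 hC0.le
    have hXX : 0 < X' ^ X' := by positivity
    have l6 : sz x y ≤ (C0 * X' ^ X') * ‖Complex.Gamma (x + y * Complex.I)‖ := by
      have := mul_le_mul_of_nonneg_left l5 hXX.le
      have e : X' ^ X' * (Real.exp (-(Real.pi * |y|) / 2) * (|y| ^ (x - 1 / 2) * (X' ^ X')⁻¹))
          = sz x y := by
        unfold sz
        field_simp
      rw [e] at this
      linarith
    refine l6.trans (mul_le_mul_of_nonneg_right ?_ (norm_nonneg _))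
    have : 0 ≤ C0 * (Real.exp X' * 2 ^ X') := by positivity
    linarith

theorem strip : ∀ x0 x1 : ℝ, StripB x0 x1 := by
  have key : ∀ m : ℕ, ∀ x0 x1 : ℝ, 1 ≤ x0 + m → StripB x0 x1 := by
    intro m
    induction m with
    | zero =>
      intro x0 x1 h
      obtain ⟨C, hC, hb⟩ := strip_base x1
      refine ⟨C, hC, fun x y hx => hb x y ?_⟩
      simp at h
      linarith
    | succ m ih =>
      intro x0 x1 h
      obtain ⟨C, hC, hb⟩ := ih (x0 + 1) (x1 + 1) (by push_cast at h; linarith)
      set B := |x0| + |x1| + 1 with hB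
      have hB1 : 1 ≤ B := by
        have := abs_nonneg x0
        have := abs_nonneg x1
        linarith
      refine ⟨C * B, by positivity, ?_⟩
      intro x y h0 h1 hy
      have hy0 : 0 < |y| := by linarith
      obtain ⟨b1, b2⟩ := hb (x + 1) y (by linarith) (by linarith) hy
      set z : ℂ := (x : ℂ) + y * Complex.I with hz
      have hzim : z.im = y := by simp [hz]
      have hzre : z.re = x := by simp [hz]
      have hz0 : z ≠ 0 := by
        intro h
        rw [h] at hzim
        simp at hzim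
        rw [← hzim] at hy0
        simp at hy0
      have e1 : ((x + 1 : ℝ) : ℂ) + y * Complex.I = z + 1 := by rw [hz]; push_cast; ring
      rw [e1, Complex.Gamma_add_one z hz0, norm_mul] at b1 b2
      have hn1 : |y| ≤ ‖z‖ := by rw [← hzim]; exact Complex.abs_im_le_norm z
      have hn2 : ‖z‖ ≤ B * |y| := by
        have h3 : ‖z‖ ≤ |x| + |y| := by
          have := Complex.norm_le_abs_re_add_abs_im z
          rwa [hzre, hzim] at this
        have h4 : |x| ≤ |x0| + |x1| := by
          rw [abs_le]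
          constructor
          · have := neg_abs_le x0
            have := abs_nonneg x1
            linarith
          · have := le_abs_self x1
            have := abs_nonneg x0
            linarith
        have h5 : |x0| + |x1| ≤ (|x0| + |x1|) * |y| :=
          le_mul_of_one_le_right (by positivity) hy
        have h6 : B * |y| = (|x0| + |x1|) * |y| + |y| := by rw [hB]; ring
        linarith
      have hszr : sz (x + 1) y = |y| * sz x y := by
        unfold sz
        have : x + 1 - 1 / 2 = 1 + (x - 1 / 2) := by ring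
        rw [this, Real.rpow_add hy0, Real.rpow_one]
        ring
      have hG := norm_nonneg (Complex.Gamma z)
      have hsz := sz_pos (x := x) hy
      rw [hszr] at b1 b2
      constructor
      · have : |y| * ‖Complex.Gamma z‖ ≤ |y| * (C * sz x y) := by
          calc |y| * ‖Complex.Gamma z‖ ≤ ‖z‖ * ‖Complex.Gamma z‖ :=
                mul_le_mul_of_nonneg_right hn1 hG
            _ ≤ C * (|y| * sz x y) := b1
            _ = |y| * (C * sz x y) := by ring
        have h7 := le_of_mul_le_mul_left this hy0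
        refine h7.trans ?_
        have : C * sz x y * 1 ≤ C * sz x y * B := mul_le_mul_of_nonneg_left hB1 (by positivity)
        linarith
      · have : |y| * sz x y ≤ |y| * (C * B * ‖Complex.Gamma z‖) := by
          calc |y| * sz x y ≤ C * (‖z‖ * ‖Complex.Gamma z‖) := b2
            _ ≤ C * ((B * |y|) * ‖Complex.Gamma z‖) := by
                apply mul_le_mul_of_nonneg_left _ hC.le
                exact mul_le_mul_of_nonneg_right hn2 hG
            _ = |y| * (C * B * ‖Complex.Gamma z‖) := by ring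
        exact le_of_mul_le_mul_left this hy0
  intro x0 x1
  obtain ⟨m, hm⟩ := exists_nat_ge (1 - x0)
  exact key m x0 x1 (by linarith)

end

end Pool.Agent.Lib.MP_8382de_an
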