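import Pool.Agent.Lib.MP_8382de_an.Final
import Pool.Agent.Lib.MP_8382de_an.Lag

/-!
The Turan inequality for the coefficients, and an explicit bound for `d`.
-/

namespace Pool.Agent.Lib.MP_8382de_an

open Filter Topology Set

noncomputable section

lemma Phi_iteratedDeriv {a b c d : ℝ} (ha : 0 < a) (hb : 0 < b) (hc : a + b < c) (hd : 0 < d)
    (n : ℕ) : iteratedDeriv n (Phi a b c d) 0 = ((gam a b c d n : ℝ) : ℂ) := by
  have h1 : HasFPowerSeriesAt (Phi a b c d)
      (FormalMultilinearSeries.ofScalars ℂ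
        (fun k : ℕ => ((gam a b c d k : ℝ) : ℂ) / (k.factorial : ℂ))) 0 := by
    rw [hasFPowerSeriesAt_iff]
    apply Eventually.of_forall
    intro z
    rw [zero_add]
    have h2 : HasSum (fun k : ℕ => ((gam a b c d k : ℝ) : ℂ) * z ^ k / (k.factorial : ℂ))
        (Phi a b c d z) := (term_summable ha hb hc hd z).hasSum
    have e : (fun k : ℕ => ((gam a b c d k : ℝ) : ℂ) * z ^ k / (k.factorial : ℂ)) =
        (fun k : ℕ => z ^ k • (FormalMultilinearSeries.ofScalars ℂ
          (fun k : ℕ => ((gam a b c d k : ℝ) : ℂ) / (k.factorial : ℂ))).coeff k) := by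
      ext k
      rw [FormalMultilinearSeries.coeff_ofScalars, smul_eq_mul]
      ring
    rw [e] at h2
    exact h2
  have h2 := ((Phi_differentiable ha hb hc hd).analyticAt 0).hasFPowerSeriesAt
  have h3 := h1.eq_formalMultilinearSeries h2
  have h4 := congrArg (fun p => FormalMultilinearSeries.coeff p n) h3
  simp only [FormalMultilinearSeries.coeff_ofScalars] at h4
  have hf : (n.factorial : ℂ) ≠ 0 := by exact_mod_cast n.factorial_ne_zero
  rw [div_left_inj' hf] at h4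
  exact h4.symm

theorem turan {a b c d : ℝ} (ha : 0 < a) (hb : 0 < b) (hc : a + b < c) (hd : 0 < d)
    (hreal : ∀ z, Phi a b c d z = 0 → z.im = 0) :
    gam a b c d 0 * gam a b c d 2 ≤ gam a b c d 1 ^ 2 := by
  have hf := Phi_differentiable ha hb hc hd
  obtain ⟨K, hK⟩ := Phi_norm_le ha hb hc hd
  have i0 := Phi_iteratedDeriv ha hb hc hd 0
  have i1 := Phi_iteratedDeriv ha hb hc hd 1
  have i2 := Phi_iteratedDeriv ha hb hc hd 2
  rw [iteratedDeriv_zero] at i0
  rw [iteratedDeriv_one] at i1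
  rw [iteratedDeriv_succ, iteratedDeriv_one] at i2
  have hg0 := gam_pos ha hb (by linarith : 0 < c) hd 0
  have h0 : Phi a b c d 0 ≠ 0 := by
    rw [i0]; exact_mod_cast hg0.ne'
  have h := laguerre hf h0 hK hreal
  have hd2 : HasDerivAt (logDeriv (Phi a b c d))
      ((deriv (deriv (Phi a b c d)) 0 * Phi a b c d 0 - deriv (Phi a b c d) 0 *
        deriv (Phi a b c d) 0) / (Phi a b c d 0) ^ 2) 0 := by
    unfold logDeriv
    exact (hf.deriv 0).hasDerivAt.div (hf 0).hasDerivAt h0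
  rw [hd2.deriv, i0, i1, i2] at h
  have e : (((gam a b c d 2 : ℝ) : ℂ) * ((gam a b c d 0 : ℝ) : ℂ) -
      ((gam a b c d 1 : ℝ) : ℂ) * ((gam a b c d 1 : ℝ) : ℂ)) / ((gam a b c d 0 : ℝ) : ℂ) ^ 2 =
      (((gam a b c d 2 * gam a b c d 0 - gam a b c d 1 * gam a b c d 1) /
        (gam a b c d 0) ^ 2 : ℝ) : ℂ) := by push_cast; ring
  rw [e, Complex.ofReal_re, div_le_iff₀ (by positivity), zero_mul] at h
  nlinarith

theorem turan' {a b c d : ℝ} (ha : 0 < a) (hb : 0 < b) (hc : a + b < c) (hd : 0 < d)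
    (hreal : ∀ z, Phi a b c d z = 0 → z.im = 0) :
    Real.Gamma (2 * a + 1) * Real.Gamma (2 * b + 1) * Real.Gamma (c + d + 1) ^ 2 ≤
      Real.Gamma (a + 1) ^ 2 * Real.Gamma (b + 1) ^ 2 *
        (Real.Gamma (d + 1) * Real.Gamma (2 * c + d + 1)) := by
  have h := turan ha hb hc hd hreal
  unfold gam at h
  have e0 : a * ((0 : ℕ) : ℝ) + 1 = 1 := by simp
  have e0' : b * ((0 : ℕ) : ℝ) + 1 = 1 := by simp
  have e0'' : c * ((0 : ℕ) : ℝ) + d + 1 = d + 1 := by simp
  have e1 : a * ((1 : ℕ) : ℝ) + 1 = a + 1 := by simp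
  have e1' : b * ((1 : ℕ) : ℝ) + 1 = b + 1 := by simp
  have e1'' : c * ((1 : ℕ) : ℝ) + d + 1 = c + d + 1 := by simp
  have e2 : a * ((2 : ℕ) : ℝ) + 1 = 2 * a + 1 := by push_cast; ring
  have e2' : b * ((2 : ℕ) : ℝ) + 1 = 2 * b + 1 := by push_cast; ring
  have e2'' : c * ((2 : ℕ) : ℝ) + d + 1 = 2 * c + d + 1 := by push_cast; ring
  rw [e0, e0', e0'', e1, e1', e1'', e2, e2', e2'', Real.Gamma_one, mul_one] at h
  have p1 := Real.Gamma_pos_of_pos (show 0 < d + 1 by linarith)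
  have p2 := Real.Gamma_pos_of_pos (show 0 < c + d + 1 by linarith)
  have p3 := Real.Gamma_pos_of_pos (show 0 < 2 * c + d + 1 by linarith)
  rw [div_mul_div_comm, div_pow, div_le_div_iff₀ (by positivity) (by positivity), one_mul] at h
  rw [mul_pow] at h
  exact h

lemma ratio_ge {a : ℝ} (ha : 0 < a) :
    (1 + a) ^ 2 / (1 + 2 * a) * Real.Gamma (a + 1) ^ 2 ≤ Real.Gamma (2 * a + 1) := by
  have h1 := Real.Gamma_mul_add_mul_le_rpow_Gamma_mul_rpow_Gamma (s := 2) (t := 2 * a + 2)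
    (a := 1 / 2) (b := 1 / 2) (by norm_num) (by linarith) (by norm_num) (by norm_num) (by norm_num)
  have e1 : 1 / 2 * 2 + 1 / 2 * (2 * a + 2) = a + 1 + 1 := by ring
  have e2 : 2 * a + 2 = 2 * a + 1 + 1 := by ring
  have g1 : Real.Gamma (a + 1 + 1) = (a + 1) * Real.Gamma (a + 1) :=
    Real.Gamma_add_one (by linarith)
  have g2 : Real.Gamma (2 * a + 1 + 1) = (2 * a + 1) * Real.Gamma (2 * a + 1) :=
    Real.Gamma_add_one (by linarith)
  rw [e1, Real.Gamma_two, Real.one_rpow, one_mul, e2, g1, g2] at h1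
  have p1 := Real.Gamma_pos_of_pos (show 0 < a + 1 by linarith)
  have p2 := Real.Gamma_pos_of_pos (show 0 < 2 * a + 1 by linarith)
  have h2 := pow_le_pow_left₀ (by positivity) h1 2
  rw [← Real.rpow_natCast (((2 * a + 1) * Real.Gamma (2 * a + 1)) ^ (1 / 2 : ℝ)) 2,
    ← Real.rpow_mul (by positivity)] at h2
  norm_num at h2
  rw [div_mul_eq_mul_div, div_le_iff₀ (by linarith)]
  nlinarith

/-- second difference of `log Gamma` -/
lemma second_diff {c d : ℝ} (hc : 0 < c) (hd : 0 < d) :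
    Real.log (Real.Gamma (d + 1)) + Real.log (Real.Gamma (2 * c + d + 1)) -
      2 * Real.log (Real.Gamma (c + d + 1)) ≤ c * (2 * c + 1) / d := by
  have hconv := Real.convexOn_log_Gamma
  have h1 := hconv.slope_mono_adjacent (x := c + d + 1) (y := 2 * c + d + 1) (z := 2 * c + d + 1 + 1)
    (mem_Ioi.mpr (by linarith)) (mem_Ioi.mpr (by linarith)) (by linarith) (by linarith)
  have h2 := hconv.slope_mono_adjacent (x := d) (y := d + 1) (z := c + d + 1)
    (mem_Ioi.mpr (by linarith)) (mem_Ioi.mpr (by linarith)) (by linarith) (by linarith)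
  simp only [Function.comp_apply] at h1 h2
  rw [Real.Gamma_add_one (by linarith : (2 * c + d + 1 : ℝ) ≠ 0),
    Real.log_mul (by linarith) (Real.Gamma_pos_of_pos (by linarith)).ne'] at h1
  have hGd : Real.log (Real.Gamma (d + 1)) = Real.log d + Real.log (Real.Gamma d) := by
    rw [Real.Gamma_add_one hd.ne', Real.log_mul hd.ne' (Real.Gamma_pos_of_pos hd).ne']
  have e1 : 2 * c + d + 1 - (c + d + 1) = c := by ring
  have e2 : 2 * c + d + 1 + 1 - (2 * c + d + 1) = 1 := by ring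
  have e3 : d + 1 - d = 1 := by ring
  have e4 : c + d + 1 - (d + 1) = c := by ring
  rw [e1, e2, div_one, div_le_iff₀ hc] at h1
  rw [e3, e4, div_one, le_div_iff₀ hc] at h2
  have h3 : Real.log (2 * c + d + 1) - Real.log d ≤ (2 * c + 1) / d := by
    rw [← Real.log_div (by linarith) hd.ne']
    have h4 : (2 * c + d + 1) / d = 1 + (2 * c + 1) / d := by field_simp; ring
    rw [h4]
    have := Real.log_le_sub_one_of_pos (show 0 < 1 + (2 * c + 1) / d by positivity)
    linarith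
  have h5 : c * (Real.log (2 * c + d + 1) - Real.log d) ≤ c * ((2 * c + 1) / d) :=
    mul_le_mul_of_nonneg_left h3 hc.le
  have e5 : c * (2 * c + 1) / d = c * ((2 * c + 1) / d) := by ring
  rw [e5]
  nlinarith

theorem d_bound {a b c d : ℝ} (ha : 0 < a) (hb : 0 < b) (hc : a + b < c) (hd : 0 < d)
    (hreal : ∀ z, Phi a b c d z = 0 → z.im = 0) :
    d * Real.log ((1 + a) ^ 2 * (1 + b) ^ 2 / ((1 + 2 * a) * (1 + 2 * b))) ≤ c * (2 * c + 1) := by
  have hc0 : 0 < c := by linarith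
  have h := turan' ha hb hc hd hreal
  have ra := ratio_ge ha
  have rb := ratio_ge hb
  have p1 := Real.Gamma_pos_of_pos (show 0 < d + 1 by linarith)
  have p2 := Real.Gamma_pos_of_pos (show 0 < c + d + 1 by linarith)
  have p3 := Real.Gamma_pos_of_pos (show 0 < 2 * c + d + 1 by linarith)
  have pa := Real.Gamma_pos_of_pos (show 0 < a + 1 by linarith)
  have pb := Real.Gamma_pos_of_pos (show 0 < b + 1 by linarith)
  set ρ := (1 + a) ^ 2 * (1 + b) ^ 2 / ((1 + 2 * a) * (1 + 2 * b)) with hρ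
  have hρ0 : 0 < ρ := by positivity
  have h1 : ρ * (Real.Gamma (a + 1) ^ 2 * Real.Gamma (b + 1) ^ 2) ≤
      Real.Gamma (2 * a + 1) * Real.Gamma (2 * b + 1) := by
    have h2 := mul_le_mul ra rb (by positivity) (Real.Gamma_pos_of_pos (by linarith)).le
    refine le_trans (le_of_eq ?_) h2
    rw [hρ]
    field_simp
  have h3 : ρ * Real.Gamma (c + d + 1) ^ 2 ≤ Real.Gamma (d + 1) * Real.Gamma (2 * c + d + 1) := by
    have h4 : (Real.Gamma (a + 1) ^ 2 * Real.Gamma (b + 1) ^ 2) * (ρ * Real.Gamma (c + d + 1) ^ 2) ≤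
        (Real.Gamma (a + 1) ^ 2 * Real.Gamma (b + 1) ^ 2) *
          (Real.Gamma (d + 1) * Real.Gamma (2 * c + d + 1)) := by
      have h5 := mul_le_mul_of_nonneg_right h1 (show 0 ≤ Real.Gamma (c + d + 1) ^ 2 by positivity)
      refine le_trans (le_of_eq ?_) (h5.trans h)
      ring
    exact le_of_mul_le_mul_left h4 (by positivity)
  have h6 := Real.log_le_log (by positivity) h3
  rw [Real.log_mul hρ0.ne' (by positivity), Real.log_mul p1.ne' p3.ne', Real.log_pow] at h6
  have h7 := second_diff hc0 hd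
  push_cast at h6
  have h8 : Real.log ρ ≤ c * (2 * c + 1) / d := by linarith
  rw [le_div_iff₀ hd] at h8
  linarith

lemma rho_gt_one {a b : ℝ} (ha : 0 < a) (hb : 0 < b) :
    1 < (1 + a) ^ 2 * (1 + b) ^ 2 / ((1 + 2 * a) * (1 + 2 * b)) := by
  rw [one_lt_div (by positivity)]
  have h1 : 1 + 2 * a < (1 + a) ^ 2 := by nlinarith
  have h2 : 1 + 2 * b < (1 + b) ^ 2 := by nlinarith
  exact mul_lt_mul'' h1 h2 (by positivity) (by positivity)

end

end Pool.Agent.Lib.MP_8382de_an
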